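import Mathlib

set_option autoImplicit false

namespace Pool.Agent.StarterAdder

/-- A pair of orthogonal starters, encoded by the maps sending a difference `d` to the
first element of the pair with difference `d`. -/
def Good (G : Type*) [AddCommGroup G] : Prop :=
  ∃ e f : G → G, Function.Injective e ∧ Function.Injective f ∧ e 0 = 0 ∧ f 0 = 0 ∧
    (∀ d, e (-d) = e d - d) ∧ (∀ d, f (-d) = f d - d) ∧
    (∀ d d', f d - e d = f d' - e d' → d' = d ∨ d' = -d)

/-- A strong starter. -/
def Strong (G : Type*) [AddCommGroup G] : Prop :=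
  ∃ e : G → G, Function.Injective e ∧ e 0 = 0 ∧ (∀ d, e (-d) = e d - d) ∧
    (∀ d d', e d + e d - d = e d' + e d' - d' → d' = d ∨ d' = -d)

/-- Halving homomorphism. -/
def HasHalf (G : Type*) [AddCommGroup G] : Prop :=
  ∃ h : G →+ G, ∀ x, h x + h x = x

/-- A difference matrix with four rows (normalised). -/
def DM (H : Type*) [AddCommGroup H] : Prop :=
  ∃ α a : H → H, Function.Injective α ∧ Function.Injective (fun x => α x - x) ∧
    Function.Injective a ∧ Function.Injective (fun x => α x + a x) ∧
    Function.Injective (fun x => α x + a x - x)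

theorem HasHalf.no2 {G : Type*} [AddCommGroup G] (hG : HasHalf G) (x : G) (hx : x + x = 0) :
    x = 0 := by
  obtain ⟨h, hh⟩ := hG
  have := hh x
  rw [← map_add, hx, map_zero] at this
  exact this.symm

theorem HasHalf.ne_neg {G : Type*} [AddCommGroup G] (hG : HasHalf G) (x : G) (hx : x ≠ 0) :
    x ≠ -x := by
  intro h
  exact hx (hG.no2 x (by nth_rewrite 1 [h]; simp))

theorem HasHalf.double_inj {G : Type*} [AddCommGroup G] (hG : HasHalf G) {x y : G}
    (h : x + x = y + y) : x = y := by
  have : (x - y) + (x - y) = 0 := by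
    have : (x - y) + (x - y) = (x + x) - (y + y) := by abel
    rw [this, h, sub_self]
  exact sub_eq_zero.1 (hG.no2 _ this)

theorem hasHalf_of_odd {G : Type*} [AddCommGroup G] [Finite G] (hG : Odd (Nat.card G)) :
    HasHalf G := by
  obtain ⟨k, hk⟩ := hG
  refine ⟨(k + 1) • AddMonoidHom.id G, fun x => ?_⟩
  simp only [AddMonoidHom.coe_smul, Pi.smul_apply, AddMonoidHom.id_apply]
  rw [← add_smul]
  have : k + 1 + (k + 1) = Nat.card G + 1 := by omega
  rw [this, add_smul, one_smul, card_nsmul_eq_zero', zero_add]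

theorem HasHalf.congr {G G' : Type*} [AddCommGroup G] [AddCommGroup G'] (φ : G ≃+ G')
    (h : HasHalf G) : HasHalf G' := by
  obtain ⟨h, hh⟩ := h
  refine ⟨(φ : G →+ G').comp (h.comp (φ.symm : G' →+ G)), fun x => ?_⟩
  simp only [AddMonoidHom.coe_comp, AddMonoidHom.coe_coe, Function.comp_apply]
  rw [← map_add, hh, AddEquiv.apply_symm_apply]

theorem HasHalf.prod {G G' : Type*} [AddCommGroup G] [AddCommGroup G'] (h1 : HasHalf G)
    (h2 : HasHalf G') : HasHalf (G × G') := by
  obtain ⟨h, hh⟩ := h1
  obtain ⟨k, hk⟩ := h2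
  refine ⟨AddMonoidHom.prodMap h k, fun x => ?_⟩
  ext
  · simp [hh]
  · simp [hk]

theorem Good.congr {G G' : Type*} [AddCommGroup G] [AddCommGroup G'] (φ : G ≃+ G')
    (h : Good G) : Good G' := by
  obtain ⟨e, f, he, hf, e0, f0, hen, hfn, ho⟩ := h
  refine ⟨fun x => φ (e (φ.symm x)), fun x => φ (f (φ.symm x)), ?_, ?_, ?_, ?_, ?_, ?_, ?_⟩
  · intro x y hxy
    exact φ.symm.injective (he (φ.injective hxy))
  · intro x y hxy
    exact φ.symm.injective (hf (φ.injective hxy))
  · simp [e0]
  · simp [f0]
  · intro d; simp [hen]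
  · intro d; simp [hfn]
  · intro d d' h
    simp only [← map_sub] at h
    have := ho _ _ (φ.injective h)
    rcases this with h | h
    · left; exact φ.symm.injective h
    · right
      apply φ.symm.injective
      rw [h, map_neg]

theorem Strong.congr {G G' : Type*} [AddCommGroup G] [AddCommGroup G'] (φ : G ≃+ G')
    (h : Strong G) : Strong G' := by
  obtain ⟨e, he, e0, hen, ho⟩ := h
  refine ⟨fun x => φ (e (φ.symm x)), ?_, ?_, ?_, ?_⟩
  · intro x y hxy
    exact φ.symm.injective (he (φ.injective hxy))
  · simp [e0]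
  · intro d; simp [hen]
  · intro d d' h
    have h' : φ (e (φ.symm d) + e (φ.symm d) - φ.symm d)
        = φ (e (φ.symm d') + e (φ.symm d') - φ.symm d') := by
      simpa using h
    rcases ho _ _ (φ.injective h') with h | h
    · left; exact φ.symm.injective h
    · right
      apply φ.symm.injective
      rw [h, map_neg]

theorem DM.congr {G G' : Type*} [AddCommGroup G] [AddCommGroup G'] (φ : G ≃+ G')
    (h : DM G) : DM G' := by
  obtain ⟨α, a, h1, h2, h3, h4, h5⟩ := h
  refine ⟨fun x => φ (α (φ.symm x)), fun x => φ (a (φ.symm x)), ?_, ?_, ?_, ?_, ?_⟩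
  · intro x y hxy
    exact φ.symm.injective (h1 (φ.injective hxy))
  · intro x y hxy
    apply φ.symm.injective
    apply h2
    apply φ.injective
    simpa using hxy
  · intro x y hxy
    exact φ.symm.injective (h3 (φ.injective hxy))
  · intro x y hxy
    apply φ.symm.injective
    apply h4
    apply φ.injective
    simpa using hxy
  · intro x y hxy
    apply φ.symm.injective
    apply h5
    apply φ.injective
    simpa using hxy

theorem Strong.good {G : Type*} [AddCommGroup G] (h : Strong G) (hh : HasHalf G) : Good G := by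
  obtain ⟨e, he, e0, hen, ho⟩ := h
  have hh' := hh
  obtain ⟨h, hh⟩ := hh
  refine ⟨e, h, he, ?_, e0, map_zero h, hen, ?_, ?_⟩
  · intro x y hxy
    rw [← hh x, ← hh y, hxy]
  · intro d
    rw [map_neg]
    nth_rewrite 3 [← hh d]
    abel
  · intro d d' hd
    apply ho
    have h1 : (h d - e d) + (h d - e d) = (h d' - e d') + (h d' - e d') := by rw [hd]
    have h2 : (h d - e d) + (h d - e d) = d - (e d + e d) := by
      nth_rewrite 5 [← hh d]; abel
    have h3 : (h d' - e d') + (h d' - e d') = d' - (e d' + e d') := by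
      nth_rewrite 5 [← hh d']; abel
    rw [h2, h3] at h1
    rw [← neg_sub, h1, neg_sub]

/-- A half system. -/
theorem exists_half_system {G : Type*} [AddCommGroup G] (hG : ∀ x : G, x ≠ 0 → x ≠ -x) :
    ∃ P : G → Prop, ∀ x, x ≠ 0 → (P x ↔ ¬ P (-x)) := by
  classical
  refine ⟨fun x => WellOrderingRel x (-x), fun x hx => ?_⟩
  simp only [neg_neg]
  constructor
  · intro h h'
    exact asymm h h'
  · intro h
    rcases trichotomous_of WellOrderingRel x (-x) with h1 | h1 | h1
    · exact h1
    · exact absurd h1 (hG x hx)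
    · exact absurd h1 h

end Pool.Agent.StarterAdder
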