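import Pool.Agent.MP_b9302b_co.Prod2

set_option autoImplicit false

namespace Pool.Agent.StarterAdder

theorem exists_coloring_aux {V : Type*} [DecidableEq V] (f : V → V) (hf : ∀ v, f v ≠ v) :
    ∀ (n : ℕ) (s : Finset V), s.card = n →
      ∃ c : V → ZMod 3, ∀ v ∈ s, f v ∈ s → c v ≠ c (f v) := by
  intro n
  induction n with
  | zero =>
    intro s hs
    rw [Finset.card_eq_zero] at hs
    subst hs
    exact ⟨fun _ => 0, fun v hv => by simp at hv⟩
  | succ n ih =>
    intro s hs
    have hw : ∃ w ∈ s, (s.filter (fun v => f v = w)).card ≤ 1 := by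
      by_contra hcon
      push Not at hcon
      have h1 : ∑ w ∈ s, (s.filter (fun v => f v = w)).card ≤ s.card := by
        rw [← Finset.card_biUnion]
        · apply Finset.card_le_card
          intro v hv
          rw [Finset.mem_biUnion] at hv
          obtain ⟨w, _, hv⟩ := hv
          exact (Finset.mem_filter.1 hv).1
        · intro x _ y _ hxy
          rw [Function.onFun, Finset.disjoint_left]
          intro v hv hv'
          rw [Finset.mem_filter] at hv hv'
          exact hxy (hv.2.symm.trans hv'.2)
      have h2 : ∑ _w ∈ s, 2 ≤ ∑ w ∈ s, (s.filter (fun v => f v = w)).card :=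
        Finset.sum_le_sum (fun w hw => hcon w hw)
      rw [Finset.sum_const, smul_eq_mul] at h2
      omega
    obtain ⟨w, hws, hw⟩ := hw
    obtain ⟨c, hc⟩ := ih (s.erase w) (by rw [Finset.card_erase_of_mem hws, hs]; rfl)
    obtain ⟨a, ha⟩ : ∃ a : ZMod 3, a ∉ insert (c (f w)) ((s.filter (fun v => f v = w)).image c) := by
      by_contra hcon
      push Not at hcon
      have h1 : (Finset.univ : Finset (ZMod 3)) ⊆
          insert (c (f w)) ((s.filter (fun v => f v = w)).image c) := fun a _ => hcon a
      have h2 := Finset.card_le_card h1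
      have h3 := Finset.card_insert_le (c (f w)) ((s.filter (fun v => f v = w)).image c)
      have h4 := Finset.card_image_le (s := s.filter (fun v => f v = w)) (f := c)
      have h5 : (Finset.univ : Finset (ZMod 3)).card = 3 := by decide
      omega
    rw [Finset.mem_insert, Finset.mem_image] at ha
    push Not at ha
    obtain ⟨ha1, ha2⟩ := ha
    refine ⟨Function.update c w a, fun v hv hfv => ?_⟩
    by_cases h1 : v = w
    · subst h1
      rw [Function.update_self, Function.update_of_ne (hf v)]
      exact ha1
    · rw [Function.update_of_ne h1]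
      by_cases h2 : f v = w
      · rw [h2, Function.update_self]
        exact ha2 v (Finset.mem_filter.2 ⟨hv, h2⟩)
      · rw [Function.update_of_ne h2]
        exact hc v (Finset.mem_erase.2 ⟨h1, hv⟩) (Finset.mem_erase.2 ⟨h2, hfv⟩)

theorem exists_coloring {V : Type*} [Finite V] (f : V → V) (hf : ∀ v, f v ≠ v) :
    ∃ c : V → ZMod 3, ∀ v, c v ≠ c (f v) := by
  classical
  have := Fintype.ofFinite V
  obtain ⟨c, hc⟩ := exists_coloring_aux f hf _ Finset.univ rfl
  exact ⟨c, fun v => hc v (Finset.mem_univ _) (Finset.mem_univ _)⟩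

/-- `ZMod 3 × K` for a finite field `K` with a strong starter. -/
theorem good_zmod3_prod {K : Type*} [Field K] [Finite K] (h2 : (2 : K) ≠ 0)
    (hS : Strong K) : Good (ZMod 3 × K) := by
  classical
  obtain ⟨e, he, e0, hen, hst⟩ := hS
  have hne : ∀ x : K, x ≠ 0 → x ≠ -x := by
    intro x hx h
    have : (2 : K) * x = 0 := by
      rw [two_mul]; nth_rewrite 1 [h]; ring
    rcases mul_eq_zero.1 this with h | h
    · exact h2 h
    · exact hx h
  obtain ⟨P, hP⟩ := exists_half_system hne
  -- choose beta, z
  set β : K := e 1 with hβ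
  have hβ0 : β ≠ 0 := by
    intro h
    have : e 1 = e 0 := by rw [e0]; exact h
    exact one_ne_zero (he this)
  have hβ1 : β ≠ 1 := by
    intro h
    have h1 : e (-1) = e 0 := by rw [hen, e0, ← hβ, h, sub_self]
    have := he h1
    simp at this
  have hβ2 : 2 * β - 1 ≠ 0 := by
    intro h
    have h1 : e 1 + e 1 - 1 = e 0 + e 0 - 0 := by
      rw [e0, ← hβ]
      linear_combination h
    rcases hst _ _ h1 with h3 | h3
    · exact zero_ne_one h3
    · simp at h3
  obtain ⟨z, hz⟩ : ∃ z : K, ∀ x, e x - β * x ≠ z := by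
    by_contra hcon
    push Not at hcon
    have hsurj : Function.Surjective (fun x : K => e x - β * x) := hcon
    have hinj := Finite.injective_iff_surjective.2 hsurj
    have : (fun x : K => e x - β * x) 1 = (fun x : K => e x - β * x) 0 := by
      simp [e0, ← hβ]
    exact one_ne_zero (hinj this)
  have hz0 : z ≠ 0 := by
    intro h
    apply hz 0
    rw [h, e0]; ring
  -- F
  set F : K → K := fun x => (2 * e x - x - 2 * z) / (2 * β - 1) with hF
  have hFn : ∀ x, F (-x) = F x := by
    intro x
    simp only [hF, hen]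
    congr 1
    ring
  have hF1 : ∀ x, F x ≠ x := by
    intro x h
    simp only [hF] at h
    rw [div_eq_iff hβ2] at h
    apply hz x
    have : 2 * (e x - β * x - z) = 0 := by linear_combination h
    rcases mul_eq_zero.1 this with h | h
    · exact absurd h h2
    · linear_combination h
  have hF2 : ∀ x, F x ≠ -x := by
    intro x h
    rw [← hFn] at h
    exact hF1 (-x) h
  -- representatives
  set rep : K → K := fun x => if P x then x else -x with hrep
  have hrep_or : ∀ x, rep x = x ∨ rep x = -x := by
    intro x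
    simp only [hrep]
    split_ifs
    · left; rfl
    · right; rfl
  have hrepn : ∀ x, rep (-x) = rep x := by
    intro x
    by_cases hx : x = 0
    · simp [hx]
    · simp only [hrep, neg_neg]
      by_cases hp : P x
      · have := (hP x hx).1 hp
        simp [hp, this]
      · have : P (-x) := by
          by_contra hc
          exact hp ((hP x hx).2 hc)
        simp [hp, this]
  obtain ⟨c, hc⟩ := exists_coloring (fun v => rep (F v)) (by
    intro v h
    rcases hrep_or (F v) with h1 | h1
    · exact hF1 v (h1.symm.trans h)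
    · apply hF2 v
      exact neg_eq_iff_eq_neg.1 (h1.symm.trans h))
  have hFrep : ∀ x, F (rep x) = F x := by
    intro x
    rcases hrep_or x with h1 | h1
    · rw [h1]
    · rw [h1, hFn]
  set τ : K → ZMod 3 := fun x => c (rep x) - c (rep 0) with hτ
  have hτn : ∀ x, τ (-x) = τ x := by
    intro x; simp only [hτ, hrepn]
  have hτ0 : τ 0 = 0 := by simp [hτ]
  have hτF : ∀ x, τ x ≠ τ (F x) := by
    intro x h
    simp only [hτ] at h
    have h1 := sub_left_injective h
    have h3 := hc (rep x)
    rw [hFrep] at h3
    exact h3 h1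
  -- the starters
  set E : ZMod 3 × K → ZMod 3 × K := fun d =>
    if d.1 = 0 then (0, e d.2) else if d.1 = 1 then (2, β * d.2 + z) else (1, (1 - β) * d.2 + z)
    with hE
  set Φ : ZMod 3 × K → ZMod 3 × K := fun d => (τ d.2 + 2 * d.1, d.2 / 2) with hΦ
  have h3 : ∀ i : ZMod 3, i = 0 ∨ i = 1 ∨ i = 2 := by decide
  have n10 : (1 : ZMod 3) ≠ 0 := by decide
  have n20 : (2 : ZMod 3) ≠ 0 := by decide
  have n21 : (2 : ZMod 3) ≠ 1 := by decide
  have n12 : (1 : ZMod 3) ≠ 2 := by decide
  have hE0 : ∀ x, E (0, x) = (0, e x) := by intro x; simp [hE]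
  have hE1 : ∀ x, E (1, x) = (2, β * x + z) := by intro x; simp [hE]
  have hE2 : ∀ x, E (2, x) = (1, (1 - β) * x + z) := by
    intro x
    simp only [hE, n20, n21, if_false]
  have neg1 : -(1 : ZMod 3) = 2 := by decide
  have neg2 : -(2 : ZMod 3) = 1 := by decide
  have e21 : (2 : ZMod 3) - 1 = 1 := by decide
  have e12 : (1 : ZMod 3) - 2 = 2 := by decide
  have hEn : ∀ d, E (-d) = E d - d := by
    rintro ⟨i, x⟩
    rcases h3 i with rfl | rfl | rfl
    · rw [Prod.neg_mk, neg_zero, hE0, hE0, hen]
      simp
    · rw [Prod.neg_mk, neg1, hE2, hE1, Prod.mk_sub_mk, e21]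
      congr 1
      ring
    · rw [Prod.neg_mk, neg2, hE1, hE2, Prod.mk_sub_mk, e12]
      congr 1
      ring
  have hΦn : ∀ d, Φ (-d) = Φ d - d := by
    rintro ⟨i, x⟩
    simp only [hΦ, Prod.neg_mk, hτn, Prod.mk_sub_mk]
    congr 1
    · have : ∀ i : ZMod 3, 2 * -i = 2 * i - i := by decide
      rw [this]; ring
    · field_simp
      ring
  have hB : ∀ d, Φ d - E d = (τ d.2, if d.1 = 0 then d.2 / 2 - e d.2 else
      if d.1 = 1 then d.2 / 2 - (β * d.2 + z) else d.2 / 2 - ((1 - β) * d.2 + z)) := by
    rintro ⟨i, x⟩
    rcases h3 i with rfl | rfl | rfl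
    · rw [hE0]
      simp [hΦ]
    · rw [hE1]
      simp [hΦ]
    · rw [hE2]
      simp only [hΦ, Prod.mk_sub_mk, n20, n21, if_false]
      congr 1
      have : (2 : ZMod 3) * 2 = 1 := by decide
      rw [this]; ring
  have hinv : (2 : K) * (1 / 2) = 1 := by field_simp
  refine ⟨E, Φ, ?_, ?_, ?_, ?_, hEn, hΦn, ?_⟩
  · rintro ⟨i, x⟩ ⟨j, y⟩ h
    have hb1 : 1 - β ≠ 0 := sub_ne_zero.2 (Ne.symm hβ1)
    rcases h3 i with rfl | rfl | rfl <;> rcases h3 j with rfl | rfl | rfl <;>
      simp only [hE0, hE1, hE2, Prod.mk.injEq] at h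
    · rw [he h.2]
    · exact absurd h.1 (by decide)
    · exact absurd h.1 (by decide)
    · exact absurd h.1 (by decide)
    · have := mul_left_cancel₀ hβ0 (add_right_cancel h.2)
      rw [this]
    · exact absurd h.1 (by decide)
    · exact absurd h.1 (by decide)
    · exact absurd h.1 (by decide)
    · have := mul_left_cancel₀ hb1 (add_right_cancel h.2)
      rw [this]
  · rintro ⟨i, x⟩ ⟨j, y⟩ h
    simp only [hΦ, Prod.mk.injEq] at h
    have hxy : x = y := by
      have := h.2
      field_simp at this
      exact this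
    subst hxy
    have : ∀ i j : ZMod 3, 2 * i = 2 * j → i = j := by decide
    rw [this i j (add_left_cancel h.1)]
  · have := hE0 0
    rw [e0] at this
    exact this
  · simp only [hΦ, Prod.fst_zero, Prod.snd_zero, hτ0]
    simp
  · -- adders
    have k0 : ∀ x y : K, x / 2 - e x = y / 2 - e y → y = x ∨ y = -x := by
      intro x y h
      apply hst
      linear_combination (-2 : K) * h + (x - y) * hinv
    have k1 : ∀ x y : K, x / 2 - (β * x + z) = y / 2 - (β * y + z) → x = y := by
      intro x y h
      have : (2 * β - 1) * (x - y) = 0 := by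
        linear_combination (-2 : K) * h + (x - y) * hinv
      rcases mul_eq_zero.1 this with h | h
      · exact absurd h hβ2
      · exact sub_eq_zero.1 h
    have k2 : ∀ x y : K, x / 2 - ((1 - β) * x + z) = y / 2 - ((1 - β) * y + z) → x = y := by
      intro x y h
      have : (2 * β - 1) * (x - y) = 0 := by
        linear_combination (2 : K) * h - (x - y) * hinv
      rcases mul_eq_zero.1 this with h | h
      · exact absurd h hβ2
      · exact sub_eq_zero.1 h
    have k12 : ∀ x y : K, x / 2 - (β * x + z) = y / 2 - ((1 - β) * y + z) → y = -x := by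
      intro x y h
      have : (2 * β - 1) * (y + x) = 0 := by
        linear_combination (-2 : K) * h + (x - y) * hinv
      rcases mul_eq_zero.1 this with h | h
      · exact absurd h hβ2
      · exact eq_neg_of_add_eq_zero_left h
    have k01 : ∀ x y : K, x / 2 - e x = y / 2 - (β * y + z) → F x = y := by
      intro x y h
      simp only [hF]
      rw [div_eq_iff hβ2]
      linear_combination (-2 : K) * h + (x - y) * hinv
    have k02 : ∀ x y : K, x / 2 - e x = y / 2 - ((1 - β) * y + z) → F x = -y := by
      intro x y h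
      simp only [hF]
      rw [div_eq_iff hβ2]
      linear_combination (-2 : K) * h + (x - y) * hinv
    rintro ⟨i, x⟩ ⟨j, y⟩ h
    rw [hB, hB] at h
    rcases h3 i with rfl | rfl | rfl <;> rcases h3 j with rfl | rfl | rfl <;>
      simp only [n10, n20, n21, if_false, if_true, Prod.mk.injEq] at h
    · rcases k0 x y h.2 with h4 | h4
      · left; rw [h4]
      · right; rw [h4]; simp
    · exfalso
      apply hτF x
      rw [k01 x y h.2, h.1]
    · exfalso
      apply hτF x
      rw [k02 x y h.2, hτn, h.1]
    · exfalso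
      apply hτF y
      rw [k01 y x h.2.symm, h.1]
    · left; rw [k1 x y h.2]
    · right
      rw [k12 x y h.2, Prod.neg_mk, neg1]
    · exfalso
      apply hτF y
      rw [k02 y x h.2.symm, hτn, h.1]
    · right
      rw [Prod.neg_mk, neg2]
      have := k12 y x h.2.symm
      rw [this, neg_neg]
    · left; rw [k2 x y h.2]

end Pool.Agent.StarterAdder
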