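import Pool.Agent.MP_b9302b_co.Basic

set_option autoImplicit false

namespace Pool.Agent.StarterAdder

/-- Extension lemma. -/
theorem good_ext {G H K : Type*} [AddCommGroup G] [AddCommGroup H] [AddCommGroup K]
    (φ : H →+ G) (π : G →+ K) (hφ : Function.Injective φ) (hπ : Function.Surjective π)
    (hex : ∀ g, π g = 0 ↔ ∃ h, φ h = g) (hK : HasHalf K)
    (hH : Good H) (hgK : Good K) (dm : DM H) : Good G := by
  classical
  obtain ⟨eH, fH, heH, hfH, eH0, fH0, heHn, hfHn, hoH⟩ := hH
  obtain ⟨eK, fK, heK, hfK, eK0, fK0, heKn, hfKn, hoK⟩ := hgK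
  obtain ⟨α, a, h1, h2, h3, h4, h5⟩ := dm
  obtain ⟨P, hP⟩ := exists_half_system (G := K) (fun x hx => hK.ne_neg x hx)
  -- section
  obtain ⟨u, hu, hu0⟩ : ∃ u : K → G, (∀ y, π (u y) = y) ∧ u 0 = 0 := by
    refine ⟨fun y => if y = 0 then 0 else (hπ y).choose, fun y => ?_, by simp⟩
    by_cases hy : y = 0
    · simp [hy]
    · simp only [hy, if_false]
      exact (hπ y).choose_spec
  set D : K → G := fun x => u (eK x) - u (eK (-x)) with hD
  have hDneg : ∀ x, D (-x) = - D x := by intro x; simp [hD]
  have hD0 : D 0 = 0 := by simp [hD]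
  have hδ : ∀ d : G, ∃ h, φ h = d - D (π d) := by
    intro d
    rw [← hex]
    simp only [hD, map_sub, hu, heKn]
    abel
  choose δ hδ using hδ
  have hδneg : ∀ d, δ (-d) = - δ d := by
    intro d
    apply hφ
    rw [map_neg, hδ, hδ, map_neg, hDneg]
    abel
  have hδ0 : δ 0 = 0 := by
    apply hφ
    rw [hδ, map_zero, map_zero, hD0, sub_zero]
  set E : K → H → H := fun x t => if x = 0 then eH t else (if P x then α t else α (-t) + t) with hE
  set A : K → H → H := fun x t => if x = 0 then fH t - eH t else (if P x then a t else a (-t))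
    with hA
  have hEneg : ∀ x t, E (-x) (-t) = E x t - t := by
    intro x t
    simp only [hE, neg_eq_zero, neg_neg]
    by_cases hx : x = 0
    · simp [hx, heHn]
    · simp only [hx, if_false]
      by_cases hp : P x
      · have : ¬ P (-x) := (hP x hx).1 hp
        simp [hp, this, sub_eq_add_neg]
      · have : P (-x) := by
          by_contra h
          exact hp ((hP x hx).2 h)
        simp [hp, this]
  have hAneg : ∀ x t, A (-x) (-t) = A x t := by
    intro x t
    simp only [hA, neg_eq_zero, neg_neg]
    by_cases hx : x = 0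
    · simp [hx, heHn, hfHn]
    · simp only [hx, if_false]
      by_cases hp : P x
      · have : ¬ P (-x) := (hP x hx).1 hp
        simp [hp, this]
      · have : P (-x) := by
          by_contra h
          exact hp ((hP x hx).2 h)
        simp [hp, this]
  have hEinj : ∀ x t t', E x t = E x t' → t = t' := by
    intro x t t' h
    simp only [hE] at h
    split_ifs at h
    · exact heH h
    · exact h1 h
    · have := @h2 (-t) (-t') (by simpa using h)
      simpa using this
  have hEAinj : ∀ x t t', E x t + A x t = E x t' + A x t' → t = t' := by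
    intro x t t' h
    simp only [hE, hA] at h
    split_ifs at h
    · exact hfH (by simpa using h)
    · exact h4 h
    · have := @h5 (-t) (-t') (by
        simp only [sub_neg_eq_add]
        rw [add_right_comm, h, add_right_comm])
      simpa using this
  have hAinj : ∀ x t t', A x t = A x t' → t' = t ∨ (x = 0 ∧ t' = -t) := by
    intro x t t' h
    simp only [hA] at h
    split_ifs at h with h0 hp
    · rcases hoH t t' h with h | h
      · left; exact h
      · right; exact ⟨h0, h⟩
    · left; exact (h3 h).symm
    · left
      have := h3 h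
      simpa using this.symm
  set e : G → G := fun d => u (eK (π d)) + φ (E (π d) (δ d)) with he
  set B : G → G := fun d => u (fK (π d) - eK (π d)) + φ (A (π d) (δ d)) with hB
  have haK : ∀ x, fK (-x) - eK (-x) = fK x - eK x := by
    intro x; rw [hfKn, heKn]; abel
  have hBneg : ∀ d, B (-d) = B d := by
    intro d
    simp only [hB, map_neg, haK, hδneg, hAneg]
  have hen : ∀ d, e (-d) = e d - d := by
    intro d
    have h6 : d = φ (δ d) + D (π d) := by rw [hδ]; abel
    have h7 : e d - d = e d - (φ (δ d) + D (π d)) := by rw [← h6]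
    rw [h7]
    simp only [he, hD, map_neg, hδneg, hEneg, map_sub]
    abel
  have hd_of : ∀ d d', π d = π d' → δ d = δ d' → d = d' := by
    intro d d' h h'
    have h6 : d = φ (δ d) + D (π d) := by rw [hδ]; abel
    have h7 : d' = φ (δ d') + D (π d') := by rw [hδ]; abel
    rw [h6, h7, h, h']
  have hφπ : ∀ h, π (φ h) = 0 := fun h => (hex _).2 ⟨h, rfl⟩
  have hBinj1 : ∀ d d', π d' = π d → B d = B d' → d' = d ∨ d' = -d := by
    intro d d' h h'
    simp only [hB, h] at h'
    have h8 := hφ (add_left_cancel h')
    rcases hAinj _ _ _ h8 with h9 | ⟨h9, h10⟩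
    · left; exact hd_of _ _ h h9
    · right
      apply hd_of
      · rw [h, map_neg, h9, neg_zero]
      · rw [hδneg]; exact h10
  refine ⟨e, fun d => e d + B d, ?_, ?_, ?_, ?_, hen, ?_, ?_⟩
  · intro d d' h
    have h6 : π (e d) = π (e d') := by rw [h]
    simp only [he, map_add, hu, hφπ, add_zero] at h6
    have h7 := heK h6
    simp only [he, h7] at h
    exact hd_of _ _ h7 (hEinj _ _ _ (hφ (add_left_cancel h)))
  · intro d d' h
    have h6 : π (e d + B d) = π (e d' + B d') := congrArg π h
    simp only [he, hB, map_add, hu, hφπ, add_zero, add_sub_cancel] at h6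
    have h7 := hfK h6
    simp only [he, hB, h7] at h
    apply hd_of _ _ h7
    apply hEAinj (π d')
    apply hφ
    rw [map_add, map_add]
    have h8 : ∀ p q r s s' r' : G, p + r + (q + s) = p + r' + (q + s') → r + s = r' + s' := by
      intro p q r s s' r' h
      have : p + r + (q + s) - (p + q) = p + r' + (q + s') - (p + q) := by rw [h]
      calc r + s = p + r + (q + s) - (p + q) := by abel
        _ = p + r' + (q + s') - (p + q) := this
        _ = r' + s' := by abel
    exact h8 _ _ _ _ _ _ h
  · simp [he, hE, hδ0, eH0, eK0, hu0]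
  · simp [he, hB, hE, hA, hδ0, eH0, fH0, eK0, fK0, hu0]
  · intro d
    simp only [hen, hBneg]
    abel
  · intro d d' h
    simp only [add_sub_cancel_left] at h
    have h6 : π (B d) = π (B d') := by rw [h]
    simp only [hB, map_add, hu, hφπ, add_zero] at h6
    rcases hoK _ _ h6 with h7 | h7
    · exact hBinj1 d d' h7 h
    · have h8 := hBinj1 d (-d') (by rw [map_neg, h7, neg_neg]) (by rw [hBneg]; exact h)
      rcases h8 with h8 | h8
      · right; rw [← h8, neg_neg]
      · left; exact neg_injective h8

end Pool.Agent.StarterAdder
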