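import Pool.Agent.MP_b9302b_co.MN

set_option autoImplicit false

namespace Pool.Agent.StarterAdder

theorem inj4 (f : ZMod 4 → ZMod 4) (a0 a1 a2 a3 : ZMod 4) (h0 : f 0 = a0) (h1 : f 1 = a1)
    (h2 : f 2 = a2) (h3 : f 3 = a3)
    (hne : a0 ≠ a1 ∧ a0 ≠ a2 ∧ a0 ≠ a3 ∧ a1 ≠ a2 ∧ a1 ≠ a3 ∧ a2 ≠ a3) :
    Function.Injective f := by
  obtain ⟨n1, n2, n3, n4, n5, n6⟩ := hne
  have h : ∀ i : ZMod 4, i = 0 ∨ i = 1 ∨ i = 2 ∨ i = 3 := by decide
  intro i j hij
  rcases h i with rfl | rfl | rfl | rfl <;> rcases h j with rfl | rfl | rfl | rfl <;>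
    simp only [h0, h1, h2, h3] at hij <;>
    first
      | rfl
      | exact absurd hij n1
      | exact absurd hij n2
      | exact absurd hij n3
      | exact absurd hij n4
      | exact absurd hij n5
      | exact absurd hij n6
      | exact absurd hij.symm n1
      | exact absurd hij.symm n2
      | exact absurd hij.symm n3
      | exact absurd hij.symm n4
      | exact absurd hij.symm n5
      | exact absurd hij.symm n6

theorem strong_of_cycle {K : Type*} [Field K] (h2 : (2 : K) ≠ 0)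
    (c : K → ZMod 4) (hc : ∀ x y, x ≠ 0 → y ≠ 0 → c (x * y) = c x + c y) (hc1 : c (-1) = 0)
    (z : ZMod 4 → K) (hz0 : ∀ i, z i ≠ 0) (hz : Function.Injective (fun i => c (z i)))
    (hD0 : ∀ i, z i + z (i + 1) ≠ 0) (hD : Function.Injective (fun i => c (z i + z (i + 1))))
    (hS0 : ∀ i, z i - z (i + 1) ≠ 0) (hS : Function.Injective (fun i => c (z i - z (i + 1)))) :
    Strong K := by
  have hDb := Finite.injective_iff_surjective.1 hD
  have hzb := Finite.injective_iff_surjective.1 hz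
  choose σ hσ using hDb
  choose ρ hρ using hzb
  simp only at hσ hρ
  have hσinj : Function.Injective σ := by
    intro i j h
    rw [← hσ i, ← hσ j, h]
  have hρz : ∀ k, ρ (c (z k)) = k := by
    intro k
    apply hz
    simp only [hρ]
  refine strong_of_quartic h2 c hc hc1 (fun j => z (ρ j)) (fun j => hz0 _) (fun j => hρ j)
    (fun i b => if b = true then c (z (σ i)) else c (z (σ i + 1))) (fun _ b => b) ?_
    (fun i b => if b = true then z (σ i) else - z (σ i + 1)) ?_ ?_ ?_ ?_ ?_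
  · rintro ⟨i, b⟩ ⟨j, b'⟩ h
    simp only [Prod.mk.injEq] at h
    obtain ⟨h, rfl⟩ := h
    cases b
    · simp only [Bool.false_eq_true, if_false] at h
      have := hσinj (add_right_cancel (hz h))
      rw [this]
    · simp only [if_true] at h
      have := hσinj (hz h)
      rw [this]
  · intro i b
    cases b <;> simp [hρz]
  · intro i
    simp only [if_true, Bool.false_eq_true, if_false, sub_neg_eq_add]
    exact hD0 _
  · intro i
    simp only [if_true, Bool.false_eq_true, if_false, sub_neg_eq_add]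
    exact hσ i
  · intro i
    simp only [if_true, Bool.false_eq_true, if_false, ← sub_eq_add_neg]
    exact hS0 _
  · intro i j h
    simp only [if_true, Bool.false_eq_true, if_false, ← sub_eq_add_neg] at h
    exact hσinj (hS h)

theorem strong_of_cycle4 {K : Type*} [Field K] (h2 : (2 : K) ≠ 0)
    (c : K → ZMod 4) (hc : ∀ x y, x ≠ 0 → y ≠ 0 → c (x * y) = c x + c y) (hc1 : c (-1) = 0)
    (z0 z1 z2 z3 : K) (n0 : z0 ≠ 0) (n1 : z1 ≠ 0) (n2 : z2 ≠ 0) (n3 : z3 ≠ 0)
    (a0 a1 a2 a3 : ZMod 4) (ha0 : c z0 = a0) (ha1 : c z1 = a1) (ha2 : c z2 = a2) (ha3 : c z3 = a3)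
    (hne : a0 ≠ a1 ∧ a0 ≠ a2 ∧ a0 ≠ a3 ∧ a1 ≠ a2 ∧ a1 ≠ a3 ∧ a2 ≠ a3)
    (d0 d1 d2 d3 : K) (e0 : z0 + z1 = d0) (e1 : z1 + z2 = d1) (e2 : z2 + z3 = d2)
    (e3 : z3 + z0 = d3) (m0 : d0 ≠ 0) (m1 : d1 ≠ 0) (m2 : d2 ≠ 0) (m3 : d3 ≠ 0)
    (b0 b1 b2 b3 : ZMod 4) (hb0 : c d0 = b0) (hb1 : c d1 = b1) (hb2 : c d2 = b2) (hb3 : c d3 = b3)
    (hne' : b0 ≠ b1 ∧ b0 ≠ b2 ∧ b0 ≠ b3 ∧ b1 ≠ b2 ∧ b1 ≠ b3 ∧ b2 ≠ b3)
    (s0 s1 s2 s3 : K) (f0 : z0 - z1 = s0) (f1 : z1 - z2 = s1) (f2 : z2 - z3 = s2)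
    (f3 : z3 - z0 = s3) (l0 : s0 ≠ 0) (l1 : s1 ≠ 0) (l2 : s2 ≠ 0) (l3 : s3 ≠ 0)
    (g0 g1 g2 g3 : ZMod 4) (hg0 : c s0 = g0) (hg1 : c s1 = g1) (hg2 : c s2 = g2) (hg3 : c s3 = g3)
    (hne'' : g0 ≠ g1 ∧ g0 ≠ g2 ∧ g0 ≠ g3 ∧ g1 ≠ g2 ∧ g1 ≠ g3 ∧ g2 ≠ g3) :
    Strong K := by
  set z : ZMod 4 → K := fun i => if i = 0 then z0 else if i = 1 then z1 else if i = 2 then z2
    else z3 with hz
  have h : ∀ i : ZMod 4, i = 0 ∨ i = 1 ∨ i = 2 ∨ i = 3 := by decide
  have k0 : z 0 = z0 := by simp [hz]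
  have k1 : z 1 = z1 := by
    simp only [hz, show (1 : ZMod 4) ≠ 0 from by decide, if_false, if_true]
  have k2 : z 2 = z2 := by
    simp only [hz, show (2 : ZMod 4) ≠ 0 from by decide, show (2 : ZMod 4) ≠ 1 from by decide,
      if_false, if_true]
  have k3 : z 3 = z3 := by
    simp only [hz, show (3 : ZMod 4) ≠ 0 from by decide, show (3 : ZMod 4) ≠ 1 from by decide,
      show (3 : ZMod 4) ≠ 2 from by decide, if_false]
  have q0 : (0 : ZMod 4) + 1 = 1 := by decide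
  have q1 : (1 : ZMod 4) + 1 = 2 := by decide
  have q2 : (2 : ZMod 4) + 1 = 3 := by decide
  have q3 : (3 : ZMod 4) + 1 = 0 := by decide
  refine strong_of_cycle h2 c hc hc1 z ?_ ?_ ?_ ?_ ?_ ?_
  · intro i
    rcases h i with rfl | rfl | rfl | rfl
    · rw [k0]; exact n0
    · rw [k1]; exact n1
    · rw [k2]; exact n2
    · rw [k3]; exact n3
  · exact inj4 _ a0 a1 a2 a3 (by rw [k0]; exact ha0) (by rw [k1]; exact ha1)
      (by rw [k2]; exact ha2) (by rw [k3]; exact ha3) hne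
  · intro i
    rcases h i with rfl | rfl | rfl | rfl
    · rw [q0, k0, k1, e0]; exact m0
    · rw [q1, k1, k2, e1]; exact m1
    · rw [q2, k2, k3, e2]; exact m2
    · rw [q3, k3, k0, e3]; exact m3
  · exact inj4 _ b0 b1 b2 b3 (by rw [q0, k0, k1, e0]; exact hb0) (by rw [q1, k1, k2, e1]; exact hb1)
      (by rw [q2, k2, k3, e2]; exact hb2) (by rw [q3, k3, k0, e3]; exact hb3) hne'
  · intro i
    rcases h i with rfl | rfl | rfl | rfl
    · rw [q0, k0, k1, f0]; exact l0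
    · rw [q1, k1, k2, f1]; exact l1
    · rw [q2, k2, k3, f2]; exact l2
    · rw [q3, k3, k0, f3]; exact l3
  · exact inj4 _ g0 g1 g2 g3 (by rw [q0, k0, k1, f0]; exact hg0) (by rw [q1, k1, k2, f1]; exact hg1)
      (by rw [q2, k2, k3, f2]; exact hg2) (by rw [q3, k3, k0, f3]; exact hg3) hne''

theorem fermat_case1 {K : Type*} [Field K] (h2 : (2 : K) ≠ 0)
    (c : K → ZMod 4) (hc : ∀ x y, x ≠ 0 → y ≠ 0 → c (x * y) = c x + c y) (hc1 : c (-1) = 0)
    (hnz : ∀ n : ℕ, 0 < n → n < 257 → (n : K) ≠ 0)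
    (c2 : c 2 = 0) (c3 : c 3 = 1) (c5 : c 5 = 1) (c7 : c 7 = 3) : Strong K := by
  have hcn : ∀ x : K, x ≠ 0 → c (-x) = c x := by
    intro x hx
    have := hc (-1) x (by simp) hx
    rw [hc1, zero_add] at this
    rw [← this]; congr 1; ring
  have nz2 : (2 : K) ≠ 0 := by simpa using hnz 2 (by norm_num) (by norm_num)
  have nz3 : (3 : K) ≠ 0 := by simpa using hnz 3 (by norm_num) (by norm_num)
  have nz4 : (4 : K) ≠ 0 := by simpa using hnz 4 (by norm_num) (by norm_num)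
  have c4 : c 4 = 0 := by
    rw [show (4 : K) = 2 * 2 by norm_num, hc _ _ nz2 nz2, c2]; decide
  have nz5 : (5 : K) ≠ 0 := by simpa using hnz 5 (by norm_num) (by norm_num)
  have nz6 : (6 : K) ≠ 0 := by simpa using hnz 6 (by norm_num) (by norm_num)
  have c6 : c 6 = 1 := by
    rw [show (6 : K) = 2 * 3 by norm_num, hc _ _ nz2 nz3, c2, c3]; decide
  have nz7 : (7 : K) ≠ 0 := by simpa using hnz 7 (by norm_num) (by norm_num)
  have nz8 : (8 : K) ≠ 0 := by simpa using hnz 8 (by norm_num) (by norm_num)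
  have c8 : c 8 = 0 := by
    rw [show (8 : K) = 2 * 4 by norm_num, hc _ _ nz2 nz4, c2, c4]; decide
  have nz9 : (9 : K) ≠ 0 := by simpa using hnz 9 (by norm_num) (by norm_num)
  have c9 : c 9 = 2 := by
    rw [show (9 : K) = 3 * 3 by norm_num, hc _ _ nz3 nz3, c3]; decide
  have nz12 : (12 : K) ≠ 0 := by simpa using hnz 12 (by norm_num) (by norm_num)
  have c12 : c 12 = 1 := by
    rw [show (12 : K) = 2 * 6 by norm_num, hc _ _ nz2 nz6, c2, c6]; decide
  have nz14 : (14 : K) ≠ 0 := by simpa using hnz 14 (by norm_num) (by norm_num)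
  have c14 : c 14 = 3 := by
    rw [show (14 : K) = 2 * 7 by norm_num, hc _ _ nz2 nz7, c2, c7]; decide
  have nz15 : (15 : K) ≠ 0 := by simpa using hnz 15 (by norm_num) (by norm_num)
  have c15 : c 15 = 2 := by
    rw [show (15 : K) = 3 * 5 by norm_num, hc _ _ nz3 nz5, c3, c5]; decide
  have nz16 : (16 : K) ≠ 0 := by simpa using hnz 16 (by norm_num) (by norm_num)
  have c16 : c 16 = 0 := by
    rw [show (16 : K) = 2 * 8 by norm_num, hc _ _ nz2 nz8, c2, c8]; decide
  have nz18 : (18 : K) ≠ 0 := by simpa using hnz 18 (by norm_num) (by norm_num)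
  have c18 : c 18 = 2 := by
    rw [show (18 : K) = 2 * 9 by norm_num, hc _ _ nz2 nz9, c2, c9]; decide
  have nz21 : (21 : K) ≠ 0 := by simpa using hnz 21 (by norm_num) (by norm_num)
  have c21 : c 21 = 0 := by
    rw [show (21 : K) = 3 * 7 by norm_num, hc _ _ nz3 nz7, c3, c7]; decide
  have nz24 : (24 : K) ≠ 0 := by simpa using hnz 24 (by norm_num) (by norm_num)
  have c24 : c 24 = 1 := by
    rw [show (24 : K) = 2 * 12 by norm_num, hc _ _ nz2 nz12, c2, c12]; decide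
  have nz28 : (28 : K) ≠ 0 := by simpa using hnz 28 (by norm_num) (by norm_num)
  have c28 : c 28 = 3 := by
    rw [show (28 : K) = 2 * 14 by norm_num, hc _ _ nz2 nz14, c2, c14]; decide
  have nz30 : (30 : K) ≠ 0 := by simpa using hnz 30 (by norm_num) (by norm_num)
  have c30 : c 30 = 2 := by
    rw [show (30 : K) = 2 * 15 by norm_num, hc _ _ nz2 nz15, c2, c15]; decide
  have nz32 : (32 : K) ≠ 0 := by simpa using hnz 32 (by norm_num) (by norm_num)
  have c32 : c 32 = 0 := by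
    rw [show (32 : K) = 2 * 16 by norm_num, hc _ _ nz2 nz16, c2, c16]; decide
  have nz36 : (36 : K) ≠ 0 := by simpa using hnz 36 (by norm_num) (by norm_num)
  have c36 : c 36 = 2 := by
    rw [show (36 : K) = 2 * 18 by norm_num, hc _ _ nz2 nz18, c2, c18]; decide
  have nz45 : (45 : K) ≠ 0 := by simpa using hnz 45 (by norm_num) (by norm_num)
  have c45 : c 45 = 3 := by
    rw [show (45 : K) = 3 * 15 by norm_num, hc _ _ nz3 nz15, c3, c15]; decide
  have nz49 : (49 : K) ≠ 0 := by simpa using hnz 49 (by norm_num) (by norm_num)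
  have c49 : c 49 = 2 := by
    rw [show (49 : K) = 7 * 7 by norm_num, hc _ _ nz7 nz7, c7]; decide
  have nz60 : (60 : K) ≠ 0 := by simpa using hnz 60 (by norm_num) (by norm_num)
  have c60 : c 60 = 2 := by
    rw [show (60 : K) = 2 * 30 by norm_num, hc _ _ nz2 nz30, c2, c30]; decide
  have nz64 : (64 : K) ≠ 0 := by simpa using hnz 64 (by norm_num) (by norm_num)
  have c64 : c 64 = 0 := by
    rw [show (64 : K) = 2 * 32 by norm_num, hc _ _ nz2 nz32, c2, c32]; decide
  refine strong_of_cycle4 h2 c hc hc1 21 (-24) (-36) (-28) nz21 (neg_ne_zero.2 nz24) (neg_ne_zero.2 nz36) (neg_ne_zero.2 nz28)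
    0 1 2 3 c21 ((hcn _ nz24).trans c24) ((hcn _ nz36).trans c36) ((hcn _ nz28).trans c28) (by decide)
    (-3) (-60) (-64) (-7)
    (by norm_num) (by norm_num) (by norm_num) (by norm_num)
    (neg_ne_zero.2 nz3) (neg_ne_zero.2 nz60) (neg_ne_zero.2 nz64) (neg_ne_zero.2 nz7)
    1 2 0 3 ((hcn _ nz3).trans c3) ((hcn _ nz60).trans c60) ((hcn _ nz64).trans c64) ((hcn _ nz7).trans c7) (by decide)
    45 12 (-8) (-49)
    (by norm_num) (by norm_num) (by norm_num) (by norm_num)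
    nz45 nz12 (neg_ne_zero.2 nz8) (neg_ne_zero.2 nz49)
    3 1 0 2 c45 c12 ((hcn _ nz8).trans c8) ((hcn _ nz49).trans c49) (by decide)

theorem fermat_case2 {K : Type*} [Field K] (h2 : (2 : K) ≠ 0)
    (c : K → ZMod 4) (hc : ∀ x y, x ≠ 0 → y ≠ 0 → c (x * y) = c x + c y) (hc1 : c (-1) = 0)
    (hnz : ∀ n : ℕ, 0 < n → n < 257 → (n : K) ≠ 0)
    (c2 : c 2 = 0) (c3 : c 3 = 1) (c5 : c 5 = 3) (c7 : c 7 = 1) : Strong K := by
  have hcn : ∀ x : K, x ≠ 0 → c (-x) = c x := by
    intro x hx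
    have := hc (-1) x (by simp) hx
    rw [hc1, zero_add] at this
    rw [← this]; congr 1; ring
  have nz2 : (2 : K) ≠ 0 := by simpa using hnz 2 (by norm_num) (by norm_num)
  have nz3 : (3 : K) ≠ 0 := by simpa using hnz 3 (by norm_num) (by norm_num)
  have nz4 : (4 : K) ≠ 0 := by simpa using hnz 4 (by norm_num) (by norm_num)
  have c4 : c 4 = 0 := by
    rw [show (4 : K) = 2 * 2 by norm_num, hc _ _ nz2 nz2, c2]; decide
  have nz5 : (5 : K) ≠ 0 := by simpa using hnz 5 (by norm_num) (by norm_num)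
  have nz6 : (6 : K) ≠ 0 := by simpa using hnz 6 (by norm_num) (by norm_num)
  have c6 : c 6 = 1 := by
    rw [show (6 : K) = 2 * 3 by norm_num, hc _ _ nz2 nz3, c2, c3]; decide
  have nz7 : (7 : K) ≠ 0 := by simpa using hnz 7 (by norm_num) (by norm_num)
  have nz9 : (9 : K) ≠ 0 := by simpa using hnz 9 (by norm_num) (by norm_num)
  have c9 : c 9 = 2 := by
    rw [show (9 : K) = 3 * 3 by norm_num, hc _ _ nz3 nz3, c3]; decide
  have nz10 : (10 : K) ≠ 0 := by simpa using hnz 10 (by norm_num) (by norm_num)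
  have c10 : c 10 = 3 := by
    rw [show (10 : K) = 2 * 5 by norm_num, hc _ _ nz2 nz5, c2, c5]; decide
  have nz14 : (14 : K) ≠ 0 := by simpa using hnz 14 (by norm_num) (by norm_num)
  have c14 : c 14 = 1 := by
    rw [show (14 : K) = 2 * 7 by norm_num, hc _ _ nz2 nz7, c2, c7]; decide
  have nz15 : (15 : K) ≠ 0 := by simpa using hnz 15 (by norm_num) (by norm_num)
  have c15 : c 15 = 0 := by
    rw [show (15 : K) = 3 * 5 by norm_num, hc _ _ nz3 nz5, c3, c5]; decide
  have nz20 : (20 : K) ≠ 0 := by simpa using hnz 20 (by norm_num) (by norm_num)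
  have c20 : c 20 = 3 := by
    rw [show (20 : K) = 2 * 10 by norm_num, hc _ _ nz2 nz10, c2, c10]; decide
  have nz21 : (21 : K) ≠ 0 := by simpa using hnz 21 (by norm_num) (by norm_num)
  have c21 : c 21 = 2 := by
    rw [show (21 : K) = 3 * 7 by norm_num, hc _ _ nz3 nz7, c3, c7]; decide
  refine strong_of_cycle4 h2 c hc hc1 5 (-9) 6 (-15) nz5 (neg_ne_zero.2 nz9) nz6 (neg_ne_zero.2 nz15)
    3 2 1 0 c5 ((hcn _ nz9).trans c9) c6 ((hcn _ nz15).trans c15) (by decide)
    (-4) (-3) (-9) (-10)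
    (by norm_num) (by norm_num) (by norm_num) (by norm_num)
    (neg_ne_zero.2 nz4) (neg_ne_zero.2 nz3) (neg_ne_zero.2 nz9) (neg_ne_zero.2 nz10)
    0 1 2 3 ((hcn _ nz4).trans c4) ((hcn _ nz3).trans c3) ((hcn _ nz9).trans c9) ((hcn _ nz10).trans c10) (by decide)
    14 (-15) 21 (-20)
    (by norm_num) (by norm_num) (by norm_num) (by norm_num)
    nz14 (neg_ne_zero.2 nz15) nz21 (neg_ne_zero.2 nz20)
    1 0 2 3 c14 ((hcn _ nz15).trans c15) c21 ((hcn _ nz20).trans c20) (by decide)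

theorem fermat_case3 {K : Type*} [Field K] (h2 : (2 : K) ≠ 0)
    (c : K → ZMod 4) (hc : ∀ x y, x ≠ 0 → y ≠ 0 → c (x * y) = c x + c y) (hc1 : c (-1) = 0)
    (hnz : ∀ n : ℕ, 0 < n → n < 257 → (n : K) ≠ 0)
    (c2 : c 2 = 0) (c3 : c 3 = 1) (c5 : c 5 = 3) (c7 : c 7 = 3) : Strong K := by
  have hcn : ∀ x : K, x ≠ 0 → c (-x) = c x := by
    intro x hx
    have := hc (-1) x (by simp) hx
    rw [hc1, zero_add] at this
    rw [← this]; congr 1; ring
  have nz2 : (2 : K) ≠ 0 := by simpa using hnz 2 (by norm_num) (by norm_num)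
  have nz3 : (3 : K) ≠ 0 := by simpa using hnz 3 (by norm_num) (by norm_num)
  have nz4 : (4 : K) ≠ 0 := by simpa using hnz 4 (by norm_num) (by norm_num)
  have c4 : c 4 = 0 := by
    rw [show (4 : K) = 2 * 2 by norm_num, hc _ _ nz2 nz2, c2]; decide
  have nz5 : (5 : K) ≠ 0 := by simpa using hnz 5 (by norm_num) (by norm_num)
  have nz6 : (6 : K) ≠ 0 := by simpa using hnz 6 (by norm_num) (by norm_num)
  have c6 : c 6 = 1 := by
    rw [show (6 : K) = 2 * 3 by norm_num, hc _ _ nz2 nz3, c2, c3]; decide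
  have nz7 : (7 : K) ≠ 0 := by simpa using hnz 7 (by norm_num) (by norm_num)
  have nz8 : (8 : K) ≠ 0 := by simpa using hnz 8 (by norm_num) (by norm_num)
  have c8 : c 8 = 0 := by
    rw [show (8 : K) = 2 * 4 by norm_num, hc _ _ nz2 nz4, c2, c4]; decide
  have nz9 : (9 : K) ≠ 0 := by simpa using hnz 9 (by norm_num) (by norm_num)
  have c9 : c 9 = 2 := by
    rw [show (9 : K) = 3 * 3 by norm_num, hc _ _ nz3 nz3, c3]; decide
  have nz10 : (10 : K) ≠ 0 := by simpa using hnz 10 (by norm_num) (by norm_num)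
  have c10 : c 10 = 3 := by
    rw [show (10 : K) = 2 * 5 by norm_num, hc _ _ nz2 nz5, c2, c5]; decide
  have nz12 : (12 : K) ≠ 0 := by simpa using hnz 12 (by norm_num) (by norm_num)
  have c12 : c 12 = 1 := by
    rw [show (12 : K) = 2 * 6 by norm_num, hc _ _ nz2 nz6, c2, c6]; decide
  have nz14 : (14 : K) ≠ 0 := by simpa using hnz 14 (by norm_num) (by norm_num)
  have c14 : c 14 = 3 := by
    rw [show (14 : K) = 2 * 7 by norm_num, hc _ _ nz2 nz7, c2, c7]; decide
  have nz15 : (15 : K) ≠ 0 := by simpa using hnz 15 (by norm_num) (by norm_num)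
  have c15 : c 15 = 0 := by
    rw [show (15 : K) = 3 * 5 by norm_num, hc _ _ nz3 nz5, c3, c5]; decide
  have nz18 : (18 : K) ≠ 0 := by simpa using hnz 18 (by norm_num) (by norm_num)
  have c18 : c 18 = 2 := by
    rw [show (18 : K) = 2 * 9 by norm_num, hc _ _ nz2 nz9, c2, c9]; decide
  have nz21 : (21 : K) ≠ 0 := by simpa using hnz 21 (by norm_num) (by norm_num)
  have c21 : c 21 = 0 := by
    rw [show (21 : K) = 3 * 7 by norm_num, hc _ _ nz3 nz7, c3, c7]; decide
  have nz24 : (24 : K) ≠ 0 := by simpa using hnz 24 (by norm_num) (by norm_num)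
  have c24 : c 24 = 1 := by
    rw [show (24 : K) = 2 * 12 by norm_num, hc _ _ nz2 nz12, c2, c12]; decide
  have nz25 : (25 : K) ≠ 0 := by simpa using hnz 25 (by norm_num) (by norm_num)
  have c25 : c 25 = 2 := by
    rw [show (25 : K) = 5 * 5 by norm_num, hc _ _ nz5 nz5, c5]; decide
  have nz28 : (28 : K) ≠ 0 := by simpa using hnz 28 (by norm_num) (by norm_num)
  have c28 : c 28 = 3 := by
    rw [show (28 : K) = 2 * 14 by norm_num, hc _ _ nz2 nz14, c2, c14]; decide
  refine strong_of_cycle4 h2 c hc hc1 6 (-15) 10 (-18) nz6 (neg_ne_zero.2 nz15) nz10 (neg_ne_zero.2 nz18)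
    1 0 3 2 c6 ((hcn _ nz15).trans c15) c10 ((hcn _ nz18).trans c18) (by decide)
    (-9) (-5) (-8) (-12)
    (by norm_num) (by norm_num) (by norm_num) (by norm_num)
    (neg_ne_zero.2 nz9) (neg_ne_zero.2 nz5) (neg_ne_zero.2 nz8) (neg_ne_zero.2 nz12)
    2 3 0 1 ((hcn _ nz9).trans c9) ((hcn _ nz5).trans c5) ((hcn _ nz8).trans c8) ((hcn _ nz12).trans c12) (by decide)
    21 (-25) 28 (-24)
    (by norm_num) (by norm_num) (by norm_num) (by norm_num)
    nz21 (neg_ne_zero.2 nz25) nz28 (neg_ne_zero.2 nz24)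
    0 2 3 1 c21 ((hcn _ nz25).trans c25) c28 ((hcn _ nz24).trans c24) (by decide)

theorem fermat_case4 {K : Type*} [Field K] (h2 : (2 : K) ≠ 0)
    (c : K → ZMod 4) (hc : ∀ x y, x ≠ 0 → y ≠ 0 → c (x * y) = c x + c y) (hc1 : c (-1) = 0)
    (hnz : ∀ n : ℕ, 0 < n → n < 257 → (n : K) ≠ 0)
    (c2 : c 2 = 0) (c3 : c 3 = 1) (c5 : c 5 = 1) (c7 : c 7 = 1) (c11 : c 11 = 0) : Strong K := by
  have hcn : ∀ x : K, x ≠ 0 → c (-x) = c x := by
    intro x hx
    have := hc (-1) x (by simp) hx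
    rw [hc1, zero_add] at this
    rw [← this]; congr 1; ring
  have nz1 : (1 : K) ≠ 0 := one_ne_zero
  have c1 : c 1 = 0 := by
    have := hc 1 1 one_ne_zero one_ne_zero
    rw [mul_one] at this
    simpa using this.symm
  have nz2 : (2 : K) ≠ 0 := by simpa using hnz 2 (by norm_num) (by norm_num)
  have nz3 : (3 : K) ≠ 0 := by simpa using hnz 3 (by norm_num) (by norm_num)
  have nz4 : (4 : K) ≠ 0 := by simpa using hnz 4 (by norm_num) (by norm_num)
  have c4 : c 4 = 0 := by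
    rw [show (4 : K) = 2 * 2 by norm_num, hc _ _ nz2 nz2, c2]; decide
  have nz5 : (5 : K) ≠ 0 := by simpa using hnz 5 (by norm_num) (by norm_num)
  have nz7 : (7 : K) ≠ 0 := by simpa using hnz 7 (by norm_num) (by norm_num)
  have nz9 : (9 : K) ≠ 0 := by simpa using hnz 9 (by norm_num) (by norm_num)
  have c9 : c 9 = 2 := by
    rw [show (9 : K) = 3 * 3 by norm_num, hc _ _ nz3 nz3, c3]; decide
  have nz10 : (10 : K) ≠ 0 := by simpa using hnz 10 (by norm_num) (by norm_num)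
  have c10 : c 10 = 1 := by
    rw [show (10 : K) = 2 * 5 by norm_num, hc _ _ nz2 nz5, c2, c5]; decide
  have nz11 : (11 : K) ≠ 0 := by simpa using hnz 11 (by norm_num) (by norm_num)
  have nz14 : (14 : K) ≠ 0 := by simpa using hnz 14 (by norm_num) (by norm_num)
  have c14 : c 14 = 1 := by
    rw [show (14 : K) = 2 * 7 by norm_num, hc _ _ nz2 nz7, c2, c7]; decide
  have nz15 : (15 : K) ≠ 0 := by simpa using hnz 15 (by norm_num) (by norm_num)
  have c15 : c 15 = 2 := by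
    rw [show (15 : K) = 3 * 5 by norm_num, hc _ _ nz3 nz5, c3, c5]; decide
  have nz18 : (18 : K) ≠ 0 := by simpa using hnz 18 (by norm_num) (by norm_num)
  have c18 : c 18 = 2 := by
    rw [show (18 : K) = 2 * 9 by norm_num, hc _ _ nz2 nz9, c2, c9]; decide
  have nz20 : (20 : K) ≠ 0 := by simpa using hnz 20 (by norm_num) (by norm_num)
  have c20 : c 20 = 1 := by
    rw [show (20 : K) = 2 * 10 by norm_num, hc _ _ nz2 nz10, c2, c10]; decide
  have nz21 : (21 : K) ≠ 0 := by simpa using hnz 21 (by norm_num) (by norm_num)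
  have c21 : c 21 = 2 := by
    rw [show (21 : K) = 3 * 7 by norm_num, hc _ _ nz3 nz7, c3, c7]; decide
  have nz22 : (22 : K) ≠ 0 := by simpa using hnz 22 (by norm_num) (by norm_num)
  have c22 : c 22 = 0 := by
    rw [show (22 : K) = 2 * 11 by norm_num, hc _ _ nz2 nz11, c2, c11]; decide
  have nz25 : (25 : K) ≠ 0 := by simpa using hnz 25 (by norm_num) (by norm_num)
  have c25 : c 25 = 2 := by
    rw [show (25 : K) = 5 * 5 by norm_num, hc _ _ nz5 nz5, c5]; decide
  have nz27 : (27 : K) ≠ 0 := by simpa using hnz 27 (by norm_num) (by norm_num)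
  have c27 : c 27 = 3 := by
    rw [show (27 : K) = 3 * 9 by norm_num, hc _ _ nz3 nz9, c3, c9]; decide
  have nz40 : (40 : K) ≠ 0 := by simpa using hnz 40 (by norm_num) (by norm_num)
  have c40 : c 40 = 1 := by
    rw [show (40 : K) = 2 * 20 by norm_num, hc _ _ nz2 nz20, c2, c20]; decide
  have nz45 : (45 : K) ≠ 0 := by simpa using hnz 45 (by norm_num) (by norm_num)
  have c45 : c 45 = 3 := by
    rw [show (45 : K) = 3 * 15 by norm_num, hc _ _ nz3 nz15, c3, c15]; decide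
  have nz50 : (50 : K) ≠ 0 := by simpa using hnz 50 (by norm_num) (by norm_num)
  have c50 : c 50 = 2 := by
    rw [show (50 : K) = 2 * 25 by norm_num, hc _ _ nz2 nz25, c2, c25]; decide
  have nz63 : (63 : K) ≠ 0 := by simpa using hnz 63 (by norm_num) (by norm_num)
  have c63 : c 63 = 3 := by
    rw [show (63 : K) = 3 * 21 by norm_num, hc _ _ nz3 nz21, c3, c21]; decide
  refine strong_of_cycle4 h2 c hc hc1 4 (-5) (-45) (-18) nz4 (neg_ne_zero.2 nz5) (neg_ne_zero.2 nz45) (neg_ne_zero.2 nz18)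
    0 1 3 2 c4 ((hcn _ nz5).trans c5) ((hcn _ nz45).trans c45) ((hcn _ nz18).trans c18) (by decide)
    (-1) (-50) (-63) (-14)
    (by norm_num) (by norm_num) (by norm_num) (by norm_num)
    (neg_ne_zero.2 nz1) (neg_ne_zero.2 nz50) (neg_ne_zero.2 nz63) (neg_ne_zero.2 nz14)
    0 2 3 1 ((hcn _ nz1).trans c1) ((hcn _ nz50).trans c50) ((hcn _ nz63).trans c63) ((hcn _ nz14).trans c14) (by decide)
    9 40 (-27) (-22)
    (by norm_num) (by norm_num) (by norm_num) (by norm_num)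
    nz9 nz40 (neg_ne_zero.2 nz27) (neg_ne_zero.2 nz22)
    2 1 3 0 c9 c40 ((hcn _ nz27).trans c27) ((hcn _ nz22).trans c22) (by decide)

theorem fermat_case5 {K : Type*} [Field K] (h2 : (2 : K) ≠ 0)
    (c : K → ZMod 4) (hc : ∀ x y, x ≠ 0 → y ≠ 0 → c (x * y) = c x + c y) (hc1 : c (-1) = 0)
    (hnz : ∀ n : ℕ, 0 < n → n < 257 → (n : K) ≠ 0)
    (c2 : c 2 = 0) (c3 : c 3 = 1) (c5 : c 5 = 1) (c7 : c 7 = 1) (c11 : c 11 = 1) : Strong K := by
  have hcn : ∀ x : K, x ≠ 0 → c (-x) = c x := by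
    intro x hx
    have := hc (-1) x (by simp) hx
    rw [hc1, zero_add] at this
    rw [← this]; congr 1; ring
  have nz2 : (2 : K) ≠ 0 := by simpa using hnz 2 (by norm_num) (by norm_num)
  have nz3 : (3 : K) ≠ 0 := by simpa using hnz 3 (by norm_num) (by norm_num)
  have nz4 : (4 : K) ≠ 0 := by simpa using hnz 4 (by norm_num) (by norm_num)
  have c4 : c 4 = 0 := by
    rw [show (4 : K) = 2 * 2 by norm_num, hc _ _ nz2 nz2, c2]; decide
  have nz5 : (5 : K) ≠ 0 := by simpa using hnz 5 (by norm_num) (by norm_num)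
  have nz6 : (6 : K) ≠ 0 := by simpa using hnz 6 (by norm_num) (by norm_num)
  have c6 : c 6 = 1 := by
    rw [show (6 : K) = 2 * 3 by norm_num, hc _ _ nz2 nz3, c2, c3]; decide
  have nz7 : (7 : K) ≠ 0 := by simpa using hnz 7 (by norm_num) (by norm_num)
  have nz8 : (8 : K) ≠ 0 := by simpa using hnz 8 (by norm_num) (by norm_num)
  have c8 : c 8 = 0 := by
    rw [show (8 : K) = 2 * 4 by norm_num, hc _ _ nz2 nz4, c2, c4]; decide
  have nz9 : (9 : K) ≠ 0 := by simpa using hnz 9 (by norm_num) (by norm_num)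
  have c9 : c 9 = 2 := by
    rw [show (9 : K) = 3 * 3 by norm_num, hc _ _ nz3 nz3, c3]; decide
  have nz10 : (10 : K) ≠ 0 := by simpa using hnz 10 (by norm_num) (by norm_num)
  have c10 : c 10 = 1 := by
    rw [show (10 : K) = 2 * 5 by norm_num, hc _ _ nz2 nz5, c2, c5]; decide
  have nz11 : (11 : K) ≠ 0 := by simpa using hnz 11 (by norm_num) (by norm_num)
  have nz12 : (12 : K) ≠ 0 := by simpa using hnz 12 (by norm_num) (by norm_num)
  have c12 : c 12 = 1 := by
    rw [show (12 : K) = 2 * 6 by norm_num, hc _ _ nz2 nz6, c2, c6]; decide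
  have nz15 : (15 : K) ≠ 0 := by simpa using hnz 15 (by norm_num) (by norm_num)
  have c15 : c 15 = 2 := by
    rw [show (15 : K) = 3 * 5 by norm_num, hc _ _ nz3 nz5, c3, c5]; decide
  have nz16 : (16 : K) ≠ 0 := by simpa using hnz 16 (by norm_num) (by norm_num)
  have c16 : c 16 = 0 := by
    rw [show (16 : K) = 2 * 8 by norm_num, hc _ _ nz2 nz8, c2, c8]; decide
  have nz18 : (18 : K) ≠ 0 := by simpa using hnz 18 (by norm_num) (by norm_num)
  have c18 : c 18 = 2 := by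
    rw [show (18 : K) = 2 * 9 by norm_num, hc _ _ nz2 nz9, c2, c9]; decide
  have nz20 : (20 : K) ≠ 0 := by simpa using hnz 20 (by norm_num) (by norm_num)
  have c20 : c 20 = 1 := by
    rw [show (20 : K) = 2 * 10 by norm_num, hc _ _ nz2 nz10, c2, c10]; decide
  have nz21 : (21 : K) ≠ 0 := by simpa using hnz 21 (by norm_num) (by norm_num)
  have c21 : c 21 = 2 := by
    rw [show (21 : K) = 3 * 7 by norm_num, hc _ _ nz3 nz7, c3, c7]; decide
  have nz27 : (27 : K) ≠ 0 := by simpa using hnz 27 (by norm_num) (by norm_num)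
  have c27 : c 27 = 3 := by
    rw [show (27 : K) = 3 * 9 by norm_num, hc _ _ nz3 nz9, c3, c9]; decide
  have nz35 : (35 : K) ≠ 0 := by simpa using hnz 35 (by norm_num) (by norm_num)
  have c35 : c 35 = 2 := by
    rw [show (35 : K) = 5 * 7 by norm_num, hc _ _ nz5 nz7, c5, c7]; decide
  have nz45 : (45 : K) ≠ 0 := by simpa using hnz 45 (by norm_num) (by norm_num)
  have c45 : c 45 = 3 := by
    rw [show (45 : K) = 3 * 15 by norm_num, hc _ _ nz3 nz15, c3, c15]; decide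
  have nz55 : (55 : K) ≠ 0 := by simpa using hnz 55 (by norm_num) (by norm_num)
  have c55 : c 55 = 2 := by
    rw [show (55 : K) = 5 * 11 by norm_num, hc _ _ nz5 nz11, c5, c11]; decide
  have nz63 : (63 : K) ≠ 0 := by simpa using hnz 63 (by norm_num) (by norm_num)
  have c63 : c 63 = 3 := by
    rw [show (63 : K) = 3 * 21 by norm_num, hc _ _ nz3 nz21, c3, c21]; decide
  refine strong_of_cycle4 h2 c hc hc1 2 (-10) 45 18 nz2 (neg_ne_zero.2 nz10) nz45 nz18
    0 1 3 2 c2 ((hcn _ nz10).trans c10) c45 c18 (by decide)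
    (-8) 35 63 20
    (by norm_num) (by norm_num) (by norm_num) (by norm_num)
    (neg_ne_zero.2 nz8) nz35 nz63 nz20
    0 2 3 1 ((hcn _ nz8).trans c8) c35 c63 c20 (by decide)
    12 (-55) 27 16
    (by norm_num) (by norm_num) (by norm_num) (by norm_num)
    nz12 (neg_ne_zero.2 nz55) nz27 nz16
    1 2 3 0 c12 ((hcn _ nz55).trans c55) c27 c16 (by decide)

theorem fermat_case6 {K : Type*} [Field K] (h2 : (2 : K) ≠ 0)
    (c : K → ZMod 4) (hc : ∀ x y, x ≠ 0 → y ≠ 0 → c (x * y) = c x + c y) (hc1 : c (-1) = 0)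
    (hnz : ∀ n : ℕ, 0 < n → n < 257 → (n : K) ≠ 0)
    (c2 : c 2 = 0) (c3 : c 3 = 1) (c5 : c 5 = 1) (c7 : c 7 = 1) (c11 : c 11 = 2) : Strong K := by
  have hcn : ∀ x : K, x ≠ 0 → c (-x) = c x := by
    intro x hx
    have := hc (-1) x (by simp) hx
    rw [hc1, zero_add] at this
    rw [← this]; congr 1; ring
  have nz1 : (1 : K) ≠ 0 := one_ne_zero
  have c1 : c 1 = 0 := by
    have := hc 1 1 one_ne_zero one_ne_zero
    rw [mul_one] at this
    simpa using this.symm
  have nz2 : (2 : K) ≠ 0 := by simpa using hnz 2 (by norm_num) (by norm_num)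
  have nz3 : (3 : K) ≠ 0 := by simpa using hnz 3 (by norm_num) (by norm_num)
  have nz4 : (4 : K) ≠ 0 := by simpa using hnz 4 (by norm_num) (by norm_num)
  have c4 : c 4 = 0 := by
    rw [show (4 : K) = 2 * 2 by norm_num, hc _ _ nz2 nz2, c2]; decide
  have nz5 : (5 : K) ≠ 0 := by simpa using hnz 5 (by norm_num) (by norm_num)
  have nz6 : (6 : K) ≠ 0 := by simpa using hnz 6 (by norm_num) (by norm_num)
  have c6 : c 6 = 1 := by
    rw [show (6 : K) = 2 * 3 by norm_num, hc _ _ nz2 nz3, c2, c3]; decide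
  have nz7 : (7 : K) ≠ 0 := by simpa using hnz 7 (by norm_num) (by norm_num)
  have nz8 : (8 : K) ≠ 0 := by simpa using hnz 8 (by norm_num) (by norm_num)
  have c8 : c 8 = 0 := by
    rw [show (8 : K) = 2 * 4 by norm_num, hc _ _ nz2 nz4, c2, c4]; decide
  have nz9 : (9 : K) ≠ 0 := by simpa using hnz 9 (by norm_num) (by norm_num)
  have c9 : c 9 = 2 := by
    rw [show (9 : K) = 3 * 3 by norm_num, hc _ _ nz3 nz3, c3]; decide
  have nz11 : (11 : K) ≠ 0 := by simpa using hnz 11 (by norm_num) (by norm_num)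
  have nz12 : (12 : K) ≠ 0 := by simpa using hnz 12 (by norm_num) (by norm_num)
  have c12 : c 12 = 1 := by
    rw [show (12 : K) = 2 * 6 by norm_num, hc _ _ nz2 nz6, c2, c6]; decide
  have nz14 : (14 : K) ≠ 0 := by simpa using hnz 14 (by norm_num) (by norm_num)
  have c14 : c 14 = 1 := by
    rw [show (14 : K) = 2 * 7 by norm_num, hc _ _ nz2 nz7, c2, c7]; decide
  have nz15 : (15 : K) ≠ 0 := by simpa using hnz 15 (by norm_num) (by norm_num)
  have c15 : c 15 = 2 := by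
    rw [show (15 : K) = 3 * 5 by norm_num, hc _ _ nz3 nz5, c3, c5]; decide
  have nz16 : (16 : K) ≠ 0 := by simpa using hnz 16 (by norm_num) (by norm_num)
  have c16 : c 16 = 0 := by
    rw [show (16 : K) = 2 * 8 by norm_num, hc _ _ nz2 nz8, c2, c8]; decide
  have nz18 : (18 : K) ≠ 0 := by simpa using hnz 18 (by norm_num) (by norm_num)
  have c18 : c 18 = 2 := by
    rw [show (18 : K) = 2 * 9 by norm_num, hc _ _ nz2 nz9, c2, c9]; decide
  have nz22 : (22 : K) ≠ 0 := by simpa using hnz 22 (by norm_num) (by norm_num)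
  have c22 : c 22 = 2 := by
    rw [show (22 : K) = 2 * 11 by norm_num, hc _ _ nz2 nz11, c2, c11]; decide
  have nz24 : (24 : K) ≠ 0 := by simpa using hnz 24 (by norm_num) (by norm_num)
  have c24 : c 24 = 1 := by
    rw [show (24 : K) = 2 * 12 by norm_num, hc _ _ nz2 nz12, c2, c12]; decide
  have nz27 : (27 : K) ≠ 0 := by simpa using hnz 27 (by norm_num) (by norm_num)
  have c27 : c 27 = 3 := by
    rw [show (27 : K) = 3 * 9 by norm_num, hc _ _ nz3 nz9, c3, c9]; decide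
  have nz28 : (28 : K) ≠ 0 := by simpa using hnz 28 (by norm_num) (by norm_num)
  have c28 : c 28 = 1 := by
    rw [show (28 : K) = 2 * 14 by norm_num, hc _ _ nz2 nz14, c2, c14]; decide
  have nz32 : (32 : K) ≠ 0 := by simpa using hnz 32 (by norm_num) (by norm_num)
  have c32 : c 32 = 0 := by
    rw [show (32 : K) = 2 * 16 by norm_num, hc _ _ nz2 nz16, c2, c16]; decide
  have nz45 : (45 : K) ≠ 0 := by simpa using hnz 45 (by norm_num) (by norm_num)
  have c45 : c 45 = 3 := by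
    rw [show (45 : K) = 3 * 15 by norm_num, hc _ _ nz3 nz15, c3, c15]; decide
  have nz55 : (55 : K) ≠ 0 := by simpa using hnz 55 (by norm_num) (by norm_num)
  have c55 : c 55 = 3 := by
    rw [show (55 : K) = 5 * 11 by norm_num, hc _ _ nz5 nz11, c5, c11]; decide
  refine strong_of_cycle4 h2 c hc hc1 4 (-18) 27 28 nz4 (neg_ne_zero.2 nz18) nz27 nz28
    0 2 3 1 c4 ((hcn _ nz18).trans c18) c27 c28 (by decide)
    (-14) 9 55 32
    (by norm_num) (by norm_num) (by norm_num) (by norm_num)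
    (neg_ne_zero.2 nz14) nz9 nz55 nz32
    1 2 3 0 ((hcn _ nz14).trans c14) c9 c55 c32 (by decide)
    22 (-45) (-1) 24
    (by norm_num) (by norm_num) (by norm_num) (by norm_num)
    nz22 (neg_ne_zero.2 nz45) (neg_ne_zero.2 nz1) nz24
    2 3 0 1 c22 ((hcn _ nz45).trans c45) ((hcn _ nz1).trans c1) c24 (by decide)

theorem fermat_case7 {K : Type*} [Field K] (h2 : (2 : K) ≠ 0)
    (c : K → ZMod 4) (hc : ∀ x y, x ≠ 0 → y ≠ 0 → c (x * y) = c x + c y) (hc1 : c (-1) = 0)
    (hnz : ∀ n : ℕ, 0 < n → n < 257 → (n : K) ≠ 0)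
    (c2 : c 2 = 0) (c3 : c 3 = 1) (c5 : c 5 = 1) (c7 : c 7 = 1) (c11 : c 11 = 3) : Strong K := by
  have hcn : ∀ x : K, x ≠ 0 → c (-x) = c x := by
    intro x hx
    have := hc (-1) x (by simp) hx
    rw [hc1, zero_add] at this
    rw [← this]; congr 1; ring
  have nz2 : (2 : K) ≠ 0 := by simpa using hnz 2 (by norm_num) (by norm_num)
  have nz3 : (3 : K) ≠ 0 := by simpa using hnz 3 (by norm_num) (by norm_num)
  have nz4 : (4 : K) ≠ 0 := by simpa using hnz 4 (by norm_num) (by norm_num)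
  have c4 : c 4 = 0 := by
    rw [show (4 : K) = 2 * 2 by norm_num, hc _ _ nz2 nz2, c2]; decide
  have nz5 : (5 : K) ≠ 0 := by simpa using hnz 5 (by norm_num) (by norm_num)
  have nz6 : (6 : K) ≠ 0 := by simpa using hnz 6 (by norm_num) (by norm_num)
  have c6 : c 6 = 1 := by
    rw [show (6 : K) = 2 * 3 by norm_num, hc _ _ nz2 nz3, c2, c3]; decide
  have nz7 : (7 : K) ≠ 0 := by simpa using hnz 7 (by norm_num) (by norm_num)
  have nz9 : (9 : K) ≠ 0 := by simpa using hnz 9 (by norm_num) (by norm_num)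
  have c9 : c 9 = 2 := by
    rw [show (9 : K) = 3 * 3 by norm_num, hc _ _ nz3 nz3, c3]; decide
  have nz10 : (10 : K) ≠ 0 := by simpa using hnz 10 (by norm_num) (by norm_num)
  have c10 : c 10 = 1 := by
    rw [show (10 : K) = 2 * 5 by norm_num, hc _ _ nz2 nz5, c2, c5]; decide
  have nz11 : (11 : K) ≠ 0 := by simpa using hnz 11 (by norm_num) (by norm_num)
  have nz12 : (12 : K) ≠ 0 := by simpa using hnz 12 (by norm_num) (by norm_num)
  have c12 : c 12 = 1 := by
    rw [show (12 : K) = 2 * 6 by norm_num, hc _ _ nz2 nz6, c2, c6]; decide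
  have nz15 : (15 : K) ≠ 0 := by simpa using hnz 15 (by norm_num) (by norm_num)
  have c15 : c 15 = 2 := by
    rw [show (15 : K) = 3 * 5 by norm_num, hc _ _ nz3 nz5, c3, c5]; decide
  have nz18 : (18 : K) ≠ 0 := by simpa using hnz 18 (by norm_num) (by norm_num)
  have c18 : c 18 = 2 := by
    rw [show (18 : K) = 2 * 9 by norm_num, hc _ _ nz2 nz9, c2, c9]; decide
  have nz20 : (20 : K) ≠ 0 := by simpa using hnz 20 (by norm_num) (by norm_num)
  have c20 : c 20 = 1 := by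
    rw [show (20 : K) = 2 * 10 by norm_num, hc _ _ nz2 nz10, c2, c10]; decide
  have nz21 : (21 : K) ≠ 0 := by simpa using hnz 21 (by norm_num) (by norm_num)
  have c21 : c 21 = 2 := by
    rw [show (21 : K) = 3 * 7 by norm_num, hc _ _ nz3 nz7, c3, c7]; decide
  have nz22 : (22 : K) ≠ 0 := by simpa using hnz 22 (by norm_num) (by norm_num)
  have c22 : c 22 = 3 := by
    rw [show (22 : K) = 2 * 11 by norm_num, hc _ _ nz2 nz11, c2, c11]; decide
  have nz30 : (30 : K) ≠ 0 := by simpa using hnz 30 (by norm_num) (by norm_num)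
  have c30 : c 30 = 2 := by
    rw [show (30 : K) = 2 * 15 by norm_num, hc _ _ nz2 nz15, c2, c15]; decide
  have nz33 : (33 : K) ≠ 0 := by simpa using hnz 33 (by norm_num) (by norm_num)
  have c33 : c 33 = 0 := by
    rw [show (33 : K) = 3 * 11 by norm_num, hc _ _ nz3 nz11, c3, c11]; decide
  have nz40 : (40 : K) ≠ 0 := by simpa using hnz 40 (by norm_num) (by norm_num)
  have c40 : c 40 = 1 := by
    rw [show (40 : K) = 2 * 20 by norm_num, hc _ _ nz2 nz20, c2, c20]; decide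
  have nz45 : (45 : K) ≠ 0 := by simpa using hnz 45 (by norm_num) (by norm_num)
  have c45 : c 45 = 3 := by
    rw [show (45 : K) = 3 * 15 by norm_num, hc _ _ nz3 nz15, c3, c15]; decide
  have nz55 : (55 : K) ≠ 0 := by simpa using hnz 55 (by norm_num) (by norm_num)
  have c55 : c 55 = 0 := by
    rw [show (55 : K) = 5 * 11 by norm_num, hc _ _ nz5 nz11, c5, c11]; decide
  refine strong_of_cycle4 h2 c hc hc1 12 (-18) 22 (-33) nz12 (neg_ne_zero.2 nz18) nz22 (neg_ne_zero.2 nz33)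
    1 2 3 0 c12 ((hcn _ nz18).trans c18) c22 ((hcn _ nz33).trans c33) (by decide)
    (-6) 4 (-11) (-21)
    (by norm_num) (by norm_num) (by norm_num) (by norm_num)
    (neg_ne_zero.2 nz6) nz4 (neg_ne_zero.2 nz11) (neg_ne_zero.2 nz21)
    1 0 3 2 ((hcn _ nz6).trans c6) c4 ((hcn _ nz11).trans c11) ((hcn _ nz21).trans c21) (by decide)
    30 (-40) 55 (-45)
    (by norm_num) (by norm_num) (by norm_num) (by norm_num)
    nz30 (neg_ne_zero.2 nz40) nz55 (neg_ne_zero.2 nz45)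
    2 1 0 3 c30 ((hcn _ nz40).trans c40) c55 ((hcn _ nz45).trans c45) (by decide)

end Pool.Agent.StarterAdder
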