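import Mathlib
import Pool.Agent.MP_b9302b_co.Quartic

set_option autoImplicit false

namespace Pool.Agent.StarterAdder

theorem fermat_nonsq (m : ℕ) (hm : 3 ≤ m) (p : ℕ) [hp : Fact p.Prime] (hpB : p = 2 ^ (2 ^ m) + 1)
    (q : ℕ) [Fact q.Prime] (hq2 : q ≠ 2) (h : ¬ IsSquare (p : ZMod q)) :
    ((q : ZMod p)) ^ (2 ^ (2 ^ m - 1)) ≠ 1 := by
  have hB : 8 ≤ 2 ^ m := by
    calc 8 = 2 ^ 3 := by norm_num
      _ ≤ 2 ^ m := Nat.pow_le_pow_right (by norm_num) hm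
  have hp4 : p % 4 = 1 := by
    have : 2 ^ (2 ^ m) = 4 * 2 ^ (2 ^ m - 2) := by
      rw [show (4 : ℕ) = 2 ^ 2 by norm_num, ← pow_add]; congr 1; omega
    omega
  have hpp : p / 2 = 2 ^ (2 ^ m - 1) := by
    have : 2 ^ (2 ^ m) = 2 * 2 ^ (2 ^ m - 1) := by
      rw [← pow_succ']; congr 1; omega
    omega
  have hne : (q : ZMod p) ≠ 0 := by
    intro h0
    have hqp : p ∣ q := (ZMod.natCast_eq_zero_iff q p).1 h0
    have hqp' : p = q := (Nat.prime_dvd_prime_iff_eq hp.out (Fact.out : q.Prime)).1 hqp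
    subst hqp'
    apply h
    simp
  intro h1
  rw [← hpp, ← ZMod.euler_criterion p hne] at h1
  rw [ZMod.exists_sq_eq_prime_iff_of_mod_four_eq_one hp4 hq2] at h1
  exact h h1

theorem exists_char4 (n : ℕ) (p : ℕ) [hp : Fact p.Prime] (hpB : p = 2 ^ (n + 3) + 1)
    (h3 : (3 : ZMod p) ^ (2 ^ (n + 2)) ≠ 1) (h30 : (3 : ZMod p) ≠ 0) :
    ∃ c : ZMod p → ZMod 4, (∀ x y, x ≠ 0 → y ≠ 0 → c (x * y) = c x + c y) ∧ c 3 = 1 ∧
      (∀ x, x ^ (2 ^ (n + 1)) = 1 → c x = 0) ∧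
      (∀ x, x ≠ 0 → x ^ (2 ^ (n + 2)) ≠ 1 → c x = 1 ∨ c x = 3) := by
  classical
  have hfull : ∀ x : ZMod p, x ≠ 0 → x ^ (2 ^ (n + 3)) = 1 := by
    intro x hx
    have h1 := ZMod.pow_card_sub_one_eq_one hx
    have h2 : p - 1 = 2 ^ (n + 3) := by rw [hpB]; simp
    rw [← h2]; exact h1
  have hord : orderOf (3 : ZMod p) = 2 ^ (n + 3) :=
    orderOf_eq_prime_pow (p := 2) (n := n + 2) h3 (hfull 3 h30)
  let u : (ZMod p)ˣ := Units.mk0 3 h30
  have hordu : orderOf u = 2 ^ (n + 3) := by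
    rw [← hord, ← orderOf_units]; rfl
  have hgen : ∀ x : (ZMod p)ˣ, ∃ k : ℕ, u ^ k = x := by
    intro x
    have htop : Subgroup.zpowers u = ⊤ := by
      apply Subgroup.eq_top_of_card_eq
      rw [Nat.card_zpowers, hordu, Nat.card_eq_fintype_card, ZMod.card_units p, hpB]
      simp
    have hx : x ∈ Subgroup.zpowers u := by rw [htop]; trivial
    rw [← mem_powers_iff_mem_zpowers] at hx
    exact hx
  have hgen' : ∀ x : ZMod p, ∃ k : ℕ, x ≠ 0 → (3 : ZMod p) ^ k = x := by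
    intro x
    by_cases hx : x = 0
    · exact ⟨0, fun h => absurd hx h⟩
    · obtain ⟨k, hk⟩ := hgen (Units.mk0 x hx)
      refine ⟨k, fun _ => ?_⟩
      have := congrArg Units.val hk
      simpa [u] using this
  choose k hk using hgen'
  have hdvd4 : (4 : ℕ) ∣ 2 ^ (n + 3) := ⟨2 ^ (n + 1), by
    rw [show (4 : ℕ) = 2 ^ 2 by norm_num, ← pow_add]; congr 1; omega⟩
  have hmod : ∀ a b : ℕ, (3 : ZMod p) ^ a = 3 ^ b → (a : ZMod 4) = (b : ZMod 4) := by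
    intro a b hab
    have hu : u ^ a = u ^ b := by
      ext
      simpa [u] using hab
    rw [pow_eq_pow_iff_modEq, hordu] at hu
    exact (ZMod.natCast_eq_natCast_iff a b 4).2 (hu.of_dvd hdvd4)
  refine ⟨fun x => (k x : ZMod 4), ?_, ?_, ?_, ?_⟩
  · intro x y hx hy
    have h1 : (3 : ZMod p) ^ (k (x * y)) = 3 ^ (k x + k y) := by
      rw [hk _ (mul_ne_zero hx hy), pow_add, hk _ hx, hk _ hy]
    have := hmod _ _ h1
    simpa using this
  · have h1 : (3 : ZMod p) ^ (k 3) = 3 ^ 1 := by rw [hk _ h30, pow_one]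
    have := hmod _ _ h1
    simpa using this
  · intro x hx
    have hx0 : x ≠ 0 := by
      rintro rfl
      rw [zero_pow (by positivity)] at hx
      exact zero_ne_one hx
    have h1 : (3 : ZMod p) ^ (k x * 2 ^ (n + 1)) = 1 := by
      rw [pow_mul, hk _ hx0, hx]
    have h2 : 2 ^ (n + 3) ∣ k x * 2 ^ (n + 1) := by
      rw [← hord]; exact orderOf_dvd_of_pow_eq_one h1
    have h3 : 4 ∣ k x := by
      have : 2 ^ (n + 3) = 4 * 2 ^ (n + 1) := by
        rw [show (4 : ℕ) = 2 ^ 2 by norm_num, ← pow_add]; congr 1; omega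
      rw [this] at h2
      exact Nat.dvd_of_mul_dvd_mul_right (by positivity) h2
    exact (ZMod.natCast_eq_zero_iff _ _).2 h3
  · intro x hx0 hx
    have hodd : ¬ 2 ∣ k x := by
      rintro ⟨j, hj⟩
      apply hx
      rw [← hk _ hx0, ← pow_mul, hj]
      have : 2 * j * 2 ^ (n + 2) = 2 ^ (n + 3) * j := by
        rw [pow_succ 2 (n + 2)]; ring
      rw [this, pow_mul, hfull 3 h30, one_pow]
    have h4 : k x % 4 = 1 ∨ k x % 4 = 3 := by omega
    rcases h4 with h4 | h4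
    · left
      have : ((k x : ℕ) : ZMod 4) = ((1 : ℕ) : ZMod 4) :=
        (ZMod.natCast_eq_natCast_iff _ _ _).2 h4
      simpa using this
    · right
      have : ((k x : ℕ) : ZMod 4) = ((3 : ℕ) : ZMod 4) :=
        (ZMod.natCast_eq_natCast_iff _ _ _).2 h4
      simpa using this

theorem nsq32 : ¬ IsSquare ((2 : ℕ) : ZMod 3) := by
  rintro ⟨r, hr⟩
  exact (by decide : ∀ r : ZMod 3, ((2 : ℕ) : ZMod 3) ≠ r * r) r hr

theorem nsq52 : ¬ IsSquare ((2 : ℕ) : ZMod 5) := by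
  rintro ⟨r, hr⟩
  exact (by decide : ∀ r : ZMod 5, ((2 : ℕ) : ZMod 5) ≠ r * r) r hr

theorem nsq73 : ¬ IsSquare ((3 : ℕ) : ZMod 7) := by
  rintro ⟨r, hr⟩
  exact (by decide : ∀ r : ZMod 7, ((3 : ℕ) : ZMod 7) ≠ r * r) r hr

theorem nsq75 : ¬ IsSquare ((5 : ℕ) : ZMod 7) := by
  rintro ⟨r, hr⟩
  exact (by decide : ∀ r : ZMod 7, ((5 : ℕ) : ZMod 7) ≠ r * r) r hr

theorem strong_fermat (m : ℕ) (hm : 3 ≤ m) (p : ℕ) [hp : Fact p.Prime]
    (hpB : p = 2 ^ (2 ^ m) + 1) : Strong (ZMod p) := by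
  have hB : 8 ≤ 2 ^ m := by
    calc 8 = 2 ^ 3 := by norm_num
      _ ≤ 2 ^ m := Nat.pow_le_pow_right (by norm_num) hm
  have hp257 : 257 ≤ p := by
    rw [hpB]
    have : 2 ^ 8 ≤ 2 ^ (2 ^ m) := Nat.pow_le_pow_right (by norm_num) hB
    omega
  have hnz : ∀ n : ℕ, 0 < n → n < 257 → (n : ZMod p) ≠ 0 := by
    intro n h0 h1 h
    have := (ZMod.natCast_eq_zero_iff n p).1 h
    have := Nat.le_of_dvd h0 this
    omega
  -- residues of p
  obtain ⟨j, rfl⟩ : ∃ j, m = j + 1 := ⟨m - 1, by omega⟩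
  have e4 : 2 ^ (2 ^ (j + 1)) = 4 ^ (2 ^ j) := by
    rw [pow_succ' 2 j, pow_mul]; norm_num
  have hmod3 : p % 3 = 2 := by
    rw [hpB, e4, Nat.add_mod, Nat.pow_mod]; simp
  have hmod5 : p % 5 = 2 := by
    obtain ⟨i, rfl⟩ : ∃ i, j = i + 1 := ⟨j - 1, by omega⟩
    rw [hpB, e4, pow_succ' 2 i, pow_mul, Nat.add_mod, Nat.pow_mod]; norm_num
  have hmod7 : p % 7 = 3 ∨ p % 7 = 5 := by
    have key : ∀ i : ℕ, (2 ^ i) % 3 = 1 ∨ (2 ^ i) % 3 = 2 := by
      intro i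
      induction i with
      | zero => left; rfl
      | succ i ih => rw [pow_succ]; omega
    have key2 : ∀ e : ℕ, e % 3 = 1 → (2 ^ e) % 7 = 2 := by
      intro e he
      obtain ⟨q, hq⟩ : ∃ q, e = 3 * q + 1 := ⟨e / 3, by omega⟩
      rw [hq, pow_succ, pow_mul, Nat.mul_mod, Nat.pow_mod]; norm_num
    have key3 : ∀ e : ℕ, e % 3 = 2 → (2 ^ e) % 7 = 4 := by
      intro e he
      obtain ⟨q, hq⟩ : ∃ q, e = 3 * q + 2 := ⟨e / 3, by omega⟩
      rw [hq, pow_add, pow_mul, Nat.mul_mod, Nat.pow_mod]; norm_num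
    rcases key (j + 1) with h | h
    · left; have := key2 _ h; omega
    · right; have := key3 _ h; omega
  have : Fact (Nat.Prime 3) := ⟨by norm_num⟩
  have : Fact (Nat.Prime 5) := ⟨by norm_num⟩
  have : Fact (Nat.Prime 7) := ⟨by norm_num⟩
  have n3 : ((3 : ℕ) : ZMod p) ^ (2 ^ (2 ^ (j + 1) - 1)) ≠ 1 := by
    apply fermat_nonsq (j + 1) hm p hpB 3 (by norm_num)
    have h : (p : ZMod 3) = ((2 : ℕ) : ZMod 3) := (ZMod.natCast_eq_natCast_iff _ _ _).2 hmod3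
    rw [h]; exact nsq32
  have n5 : ((5 : ℕ) : ZMod p) ^ (2 ^ (2 ^ (j + 1) - 1)) ≠ 1 := by
    apply fermat_nonsq (j + 1) hm p hpB 5 (by norm_num)
    have h : (p : ZMod 5) = ((2 : ℕ) : ZMod 5) := (ZMod.natCast_eq_natCast_iff _ _ _).2 hmod5
    rw [h]; exact nsq52
  have n7 : ((7 : ℕ) : ZMod p) ^ (2 ^ (2 ^ (j + 1) - 1)) ≠ 1 := by
    apply fermat_nonsq (j + 1) hm p hpB 7 (by norm_num)
    rcases hmod7 with h | h
    · have h' : (p : ZMod 7) = ((3 : ℕ) : ZMod 7) := (ZMod.natCast_eq_natCast_iff _ _ _).2 h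
      rw [h']; exact nsq73
    · have h' : (p : ZMod 7) = ((5 : ℕ) : ZMod 7) := (ZMod.natCast_eq_natCast_iff _ _ _).2 h
      rw [h']; exact nsq75
  obtain ⟨n, hn⟩ : ∃ n, 2 ^ (j + 1) = n + 3 := ⟨2 ^ (j + 1) - 3, by omega⟩
  have hn2 : 2 ^ (j + 1) - 1 = n + 2 := by omega
  rw [hn2] at n3 n5 n7
  have h30 : (3 : ZMod p) ≠ 0 := by have := hnz 3 (by norm_num) (by norm_num); exact_mod_cast this
  have h50 : (5 : ZMod p) ≠ 0 := by have := hnz 5 (by norm_num) (by norm_num); exact_mod_cast this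
  have h70 : (7 : ZMod p) ≠ 0 := by have := hnz 7 (by norm_num) (by norm_num); exact_mod_cast this
  have h20 : (2 : ZMod p) ≠ 0 := by have := hnz 2 (by norm_num) (by norm_num); exact_mod_cast this
  obtain ⟨c, hc, c3, hc0, hc13⟩ := exists_char4 n p (by rw [hpB, hn])
    (by exact_mod_cast n3) h30
  have hc1 : c (-1) = 0 := by
    apply hc0
    rw [pow_succ 2 n, pow_mul', neg_one_sq, one_pow]
  have c2 : c 2 = 0 := by
    apply hc0
    -- 2^(2B) = 1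
    have hm1 : (2 : ZMod p) ^ (2 ^ (j + 1)) = -1 := by
      have h1 : ((p : ℕ) : ZMod p) = 0 := ZMod.natCast_self p
      have h2 : ((2 ^ (2 ^ (j + 1)) + 1 : ℕ) : ZMod p) = 0 := by rw [← hpB]; exact h1
      push_cast at h2
      linear_combination h2
    have hm2 : (2 : ZMod p) ^ (2 ^ (j + 2)) = 1 := by
      rw [pow_succ 2 (j + 1), pow_mul, hm1]; ring
    have hle : j + 2 ≤ n + 1 := by
      have : j + 4 ≤ 2 ^ (j + 1) := by
        clear hpB hn hn2 n3 n5 n7 hm1 hm2 e4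
        have h2j : 2 ≤ j := by omega
        clear hm hB
        induction j, h2j using Nat.le_induction with
        | base => norm_num
        | succ i hi ih => rw [pow_succ]; omega
      omega
    obtain ⟨r, hr⟩ := Nat.exists_eq_add_of_le hle
    rw [hr, pow_add, pow_mul, hm2, one_pow]
  have c5 := hc13 5 h50 (by exact_mod_cast n5)
  have c7 := hc13 7 h70 (by exact_mod_cast n7)
  rcases c5 with c5 | c5 <;> rcases c7 with c7 | c7
  · have h4 : ∀ i : ZMod 4, i = 0 ∨ i = 1 ∨ i = 2 ∨ i = 3 := by decide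
    rcases h4 (c 11) with h | h | h | h
    · exact fermat_case4 h20 c hc hc1 hnz c2 c3 c5 c7 h
    · exact fermat_case5 h20 c hc hc1 hnz c2 c3 c5 c7 h
    · exact fermat_case6 h20 c hc hc1 hnz c2 c3 c5 c7 h
    · exact fermat_case7 h20 c hc hc1 hnz c2 c3 c5 c7 h
  · exact fermat_case1 h20 c hc hc1 hnz c2 c3 c5 c7
  · exact fermat_case2 h20 c hc hc1 hnz c2 c3 c5 c7
  · exact fermat_case3 h20 c hc hc1 hnz c2 c3 c5 c7

end Pool.Agent.StarterAdder
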