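import Pool.Agent.MP_b9302b_co.Prod

set_option autoImplicit false

namespace Pool.Agent.StarterAdder

open Classical in
theorem card_half {G : Type*} [AddCommGroup G] [Fintype G] (P : G → Prop)
    (hP : ∀ x, x ≠ 0 → (P x ↔ ¬ P (-x))) :
    2 * (Finset.univ.filter (fun x : G => x ≠ 0 ∧ P x)).card + 1 = Fintype.card G := by
  set S := Finset.univ.filter (fun x : G => x ≠ 0 ∧ P x) with hS
  set S' := Finset.univ.filter (fun x : G => x ≠ 0 ∧ ¬ P x) with hS'
  have h1 : S.card = S'.card := by
    apply Finset.card_bij (fun x _ => -x)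
    · intro x hx
      simp only [hS, hS', Finset.mem_filter, Finset.mem_univ, true_and] at hx ⊢
      exact ⟨by simpa using hx.1, (hP x hx.1).1 hx.2⟩
    · intro x _ y _ h
      exact neg_injective h
    · intro y hy
      simp only [hS, hS', Finset.mem_filter, Finset.mem_univ, true_and] at hy ⊢
      refine ⟨-y, ⟨by simpa using hy.1, ?_⟩, by simp⟩
      by_contra hc
      exact hy.2 ((hP y hy.1).2 hc)
  have h2 : (Finset.univ : Finset G) = insert 0 (S ∪ S') := by
    ext x
    simp only [hS, hS', Finset.mem_univ, Finset.mem_insert, Finset.mem_union,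
      Finset.mem_filter, true_and, true_iff]
    tauto
  have h3 : Disjoint S S' := by
    rw [Finset.disjoint_left]
    intro x hx hx'
    simp only [hS, hS', Finset.mem_filter] at hx hx'
    exact hx'.2.2 hx.2.2
  have h4 : (0 : G) ∉ S ∪ S' := by
    simp [hS, hS']
  rw [← Finset.card_univ, h2, Finset.card_insert_of_notMem h4, Finset.card_union_of_disjoint h3,
    ← h1]
  ring

theorem good_prod {H K : Type*} [AddCommGroup H] [AddCommGroup K] [Finite H] [Finite K]
    (hcard : Nat.card K ≤ Nat.card H)
    (hH2 : HasHalf H) (hK : HasHalf K) (hH : Good H)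
    (θ : K → K) (θ0 : θ 0 = 0) (hθ1 : Function.Injective θ)
    (hθ2 : Function.Injective (fun x => θ x - x))
    (hθ3 : Function.Injective (fun x => θ x + θ x - x)) : Good (H × K) := by
  classical
  haveI := Fintype.ofFinite H
  haveI := Fintype.ofFinite K
  obtain ⟨eH, fH, heH, hfH, eH0, fH0, heHn, hfHn, hoH⟩ := hH
  obtain ⟨P, hP⟩ := exists_half_system (G := H) (fun x hx => hH2.ne_neg x hx)
  obtain ⟨Q, hQ⟩ := exists_half_system (G := K) (fun x hx => hK.ne_neg x hx)
  have c1 := card_half P hP
  have c2 := card_half Q hQ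
  set SH := Finset.univ.filter (fun x : H => x ≠ 0 ∧ P x) with hSH
  set SK := Finset.univ.filter (fun x : K => x ≠ 0 ∧ Q x) with hSK
  set a : H → H := fun h => fH h - eH h with ha
  have han : ∀ h, a (-h) = a h := by
    intro h; simp only [ha, hfHn, heHn]; abel
  have ha0 : a 0 = 0 := by simp [ha, eH0, fH0]
  have hane : ∀ h, h ≠ 0 → a h ≠ 0 := by
    intro h hh h1
    have := hoH 0 h (by
      show fH 0 - eH 0 = fH h - eH h
      rw [fH0, eH0, sub_zero]; exact h1.symm)
    simp at this
    exact hh this
  set A := SH.image a with hA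
  have cA : A.card = SH.card := by
    apply Finset.card_image_of_injOn
    intro x hx y hy h
    simp only [hSH, Finset.coe_filter, Finset.mem_univ, true_and, Set.mem_setOf_eq] at hx hy
    rcases hoH x y h with h1 | h1
    · exact h1.symm
    · exfalso
      rw [h1] at hy
      exact (hP x hx.1).1 hx.2 hy.2
  have hAmem : ∀ h, h ≠ 0 → a h ∈ A := by
    intro h hh
    rw [hA, Finset.mem_image]
    by_cases hp : P h
    · exact ⟨h, by simp [hSH, hh, hp], rfl⟩
    · refine ⟨-h, ?_, han h⟩
      simp only [hSH, Finset.mem_filter, Finset.mem_univ, true_and]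
      refine ⟨by simpa using hh, ?_⟩
      by_contra hc
      exact hp ((hP h hh).2 hc)
  have h0A : (0 : H) ∉ A := by
    rw [hA, Finset.mem_image]
    rintro ⟨h, hh, h1⟩
    simp only [hSH, Finset.mem_filter, Finset.mem_univ, true_and] at hh
    exact hane h hh.1 h1
  set C := Finset.univ \ (insert 0 A) with hC
  have cC : C.card = SH.card := by
    rw [hC, Finset.card_sdiff_of_subset (Finset.subset_univ _), Finset.card_univ,
      Finset.card_insert_of_notMem h0A, cA]
    omega
  have hle : SK.card ≤ C.card := by
    rw [cC]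
    rw [Nat.card_eq_fintype_card, Nat.card_eq_fintype_card] at hcard
    omega
  obtain ⟨ι, hι1, hι2⟩ : ∃ ι : K → H, (∀ x ∈ SK, ι x ∈ C) ∧
      (∀ x ∈ SK, ∀ y ∈ SK, ι x = ι y → x = y) := by
    obtain ⟨C', hC', hcc⟩ := Finset.exists_subset_card_eq hle
    have := Finset.equivOfCardEq hcc.symm
    refine ⟨fun x => if hx : x ∈ SK then (this ⟨x, hx⟩ : H) else 0, ?_, ?_⟩
    · intro x hx
      simp only [hx, dif_pos]
      exact hC' (this ⟨x, hx⟩).2
    · intro x hx y hy h
      simp only [hx, hy, dif_pos] at h
      have := this.injective (Subtype.ext h)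
      simpa using this
  have hCne : ∀ y ∈ C, y ≠ 0 := by
    intro y hy h
    simp [hC, h] at hy
  have hCA : ∀ y ∈ C, y ∉ A := by
    intro y hy h
    simp [hC, h] at hy
  -- tau
  set τ : K → H := fun x => if x = 0 then 0 else (if Q x then ι x else ι (-x)) with hτ
  have hmem : ∀ x, x ≠ 0 → Q x → x ∈ SK := by
    intro x hx hq
    simp [hSK, hx, hq]
  have hmem' : ∀ x, x ≠ 0 → ¬ Q x → -x ∈ SK := by
    intro x hx hq
    simp only [hSK, Finset.mem_filter, Finset.mem_univ, true_and]
    refine ⟨by simpa using hx, ?_⟩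
    by_contra hc
    exact hq ((hQ x hx).2 hc)
  have hτC : ∀ x, x ≠ 0 → τ x ∈ C := by
    intro x hx
    simp only [hτ, hx, if_false]
    split_ifs with hq
    · exact hι1 _ (hmem x hx hq)
    · exact hι1 _ (hmem' x hx hq)
  refine good_prod_aux (fun x hx => hH2.ne_neg x hx) hK eH fH heH hfH eH0 fH0 heHn hfHn hoH
    θ θ0 hθ1 hθ2 hθ3 τ (by simp [hτ]) ?_ ?_ ?_
  · intro x
    by_cases hx : x = 0
    · simp [hx]
    · simp only [hτ, neg_eq_zero, hx, if_false, neg_neg]
      by_cases hq : Q x
      · have := (hQ x hx).1 hq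
        simp [hq, this]
      · have : Q (-x) := by
          by_contra hc
          exact hq ((hQ x hx).2 hc)
        simp [hq, this]
  · intro x x' h
    by_cases hx : x = 0
    · by_cases hx' : x' = 0
      · left; rw [hx, hx']
      · exfalso
        have h1 := hCne _ (hτC x' hx')
        apply h1
        rw [← h]; simp [hτ, hx]
    · by_cases hx' : x' = 0
      · exfalso
        have h1 := hCne _ (hτC x hx)
        apply h1
        rw [h]; simp [hτ, hx']
      · simp only [hτ, hx, hx', if_false] at h
        split_ifs at h with q1 q2 q2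
        · left; exact (hι2 _ (hmem x hx q1) _ (hmem x' hx' q2) h).symm
        · right
          have := hι2 _ (hmem x hx q1) _ (hmem' x' hx' q2) h
          rw [this, neg_neg]
        · right
          have := hι2 _ (hmem' x hx q1) _ (hmem x' hx' q2) h
          exact this.symm
        · left
          have := hι2 _ (hmem' x hx q1) _ (hmem' x' hx' q2) h
          exact (neg_injective this).symm
  · intro x h hh h1
    by_cases hx : x = 0
    · rw [hx] at h1
      simp only [hτ, if_true] at h1
      exact hane h hh h1.symm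
    · apply hCA _ (hτC x hx)
      rw [h1]
      exact hAmem h hh

end Pool.Agent.StarterAdder
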