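import Mathlib
import Pool.Agent.MP_b9302b_co.Basic

set_option autoImplicit false

namespace Pool.Agent.StarterAdder

theorem strong_of_table {G : Type*} [AddCommGroup G] (e g r : G → G) (h0 : e 0 = 0)
    (h1 : ∀ x, g (e x) = x) (h2 : ∀ x, e (-x) = e x - x)
    (h3 : ∀ x, r (e x + e x - x) = x ∨ r (e x + e x - x) = -x) : Strong G := by
  refine ⟨e, fun x y hxy => ?_, h0, h2, fun d d' hd => ?_⟩
  · rw [← h1 x, ← h1 y, hxy]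
  · have h4 := h3 d
    have h5 := h3 d'
    rw [← hd] at h5
    rcases h4 with h4 | h4 <;> rcases h5 with h5 | h5 <;> rw [h4] at h5
    · left; exact h5.symm
    · right; rw [h5, neg_neg]
    · right; exact h5.symm
    · left; exact (neg_injective h5).symm

theorem good_of_table {G : Type*} [AddCommGroup G] (e f g g' r : G → G) (h0 : e 0 = 0)
    (h0' : f 0 = 0) (h1 : ∀ x, g (e x) = x) (h1' : ∀ x, g' (f x) = x)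
    (h2 : ∀ x, e (-x) = e x - x) (h2' : ∀ x, f (-x) = f x - x)
    (h3 : ∀ x, r (f x - e x) = x ∨ r (f x - e x) = -x) : Good G := by
  refine ⟨e, f, fun x y hxy => ?_, fun x y hxy => ?_, h0, h0', h2, h2', fun d d' hd => ?_⟩
  · rw [← h1 x, ← h1 y, hxy]
  · rw [← h1' x, ← h1' y, hxy]
  · have h4 := h3 d
    have h5 := h3 d'
    rw [← hd] at h5
    rcases h4 with h4 | h4 <;> rcases h5 with h5 | h5 <;> rw [h4] at h5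
    · left; exact h5.symm
    · right; rw [h5, neg_neg]
    · right; exact h5.symm
    · left; exact (neg_injective h5).symm

theorem dm_of_table {G : Type*} [AddCommGroup G] (α β u v w x y : G → G)
    (h1 : ∀ t, u (α t) = t) (h2 : ∀ t, v (α t - t) = t) (h3 : ∀ t, w (β t - α t) = t)
    (h4 : ∀ t, x (β t) = t) (h5 : ∀ t, y (β t - t) = t) : DM G := by
  refine ⟨α, fun t => β t - α t, fun a b hab => ?_, fun a b hab => ?_, fun a b hab => ?_,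
    fun a b hab => ?_, fun a b hab => ?_⟩
  · rw [← h1 a, ← h1 b, hab]
  · have hab' : α a - a = α b - b := hab
    rw [← h2 a, ← h2 b, hab']
  · have hab' : β a - α a = β b - α b := hab
    rw [← h3 a, ← h3 b, hab']
  · have hab' : β a = β b := by simpa using hab
    rw [← h4 a, ← h4 b, hab']
  · have hab' : β a - a = β b - b := by simpa using hab
    rw [← h5 a, ← h5 b, hab']

def lk17 (T : List ℕ) (x : ZMod 17) : ZMod 17 :=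
  let i := T.getD (x.val) 0
  ((i : ℕ) : ZMod 17)

def eT17 : List ℕ :=
    [0, 15, 6, 8, 11, 1, 16, 9, 3, 12, 2, 10, 13, 7, 5, 4, 14]

def gT17 : List ℕ :=
    [0, 5, 10, 8, 15, 14, 2, 13, 3, 7, 11, 4, 9, 12, 16, 1, 6]

def rT17 : List ℕ :=
    [0, 4, 0, 0, 0, 0, 0, 0, 0, 6, 2, 7, 1, 3, 5, 8, 0]

theorem strong_17 : Strong (ZMod 17) := by
  refine strong_of_table (lk17 eT17) (lk17 gT17) (lk17 rT17) ?_ ?_ ?_ ?_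
  · decide +kernel
  · decide +kernel
  · decide +kernel
  · decide +kernel

def lk25 (T : List ℕ) (x : ZMod 25) : ZMod 25 :=
  let i := T.getD (x.val) 0
  ((i : ℕ) : ZMod 25)

def eT25 : List ℕ :=
    [0, 18, 12, 1, 8, 19, 11, 13, 3, 24, 7, 2, 21, 9, 16, 22, 15, 20, 6, 5, 14, 4, 23, 10, 17]

def gT25 : List ℕ :=
    [0, 3, 11, 8, 21, 19, 18, 10, 4, 13, 23, 6, 2, 7, 20, 16, 14, 24, 1, 5, 17, 12, 15, 22, 9]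

def rT25 : List ℕ :=
    [0, 0, 0, 0, 10, 12, 0, 0, 5, 0, 1, 0, 4, 0, 9, 0, 6, 0, 11, 7, 0, 0, 2, 8, 3]

theorem strong_25 : Strong (ZMod 25) := by
  refine strong_of_table (lk25 eT25) (lk25 gT25) (lk25 rT25) ?_ ?_ ?_ ?_
  · decide +kernel
  · decide +kernel
  · decide +kernel
  · decide +kernel

def lk27 (T : List ℕ) (x : ZMod 27) : ZMod 27 :=
  let i := T.getD (x.val) 0
  ((i : ℕ) : ZMod 27)

def eT27 : List ℕ :=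
    [0, 16, 23, 6, 9, 13, 17, 26, 12, 2, 1, 25, 7, 10, 24, 22, 14, 18, 20, 4, 19, 11, 8, 5, 3,
    21, 15]

def gT27 : List ℕ :=
    [0, 10, 9, 24, 19, 23, 3, 12, 22, 4, 13, 21, 8, 5, 16, 26, 1, 6, 17, 20, 18, 25, 15, 2, 14,
    11, 7]

def rT27 : List ℕ :=
    [0, 6, 12, 0, 1, 0, 0, 13, 0, 3, 0, 0, 11, 0, 4, 0, 8, 2, 7, 10, 0, 5, 9, 0, 0, 0, 0]

theorem strong_27 : Strong (ZMod 27) := by
  refine strong_of_table (lk27 eT27) (lk27 gT27) (lk27 rT27) ?_ ?_ ?_ ?_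
  · decide +kernel
  · decide +kernel
  · decide +kernel
  · decide +kernel

def lk81 (T : List ℕ) (x : ZMod 81) : ZMod 81 :=
  let i := T.getD (x.val) 0
  ((i : ℕ) : ZMod 81)

def eT81 : List ℕ :=
    [0, 13, 32, 31, 37, 50, 77, 48, 9, 65, 21, 58, 67, 2, 74, 78, 36, 66, 17, 53, 39, 73, 57,
    18, 27, 5, 24, 42, 72, 54, 40, 38, 26, 16, 4, 22, 14, 43, 46, 62, 69, 29, 23, 8, 6, 59, 68,
    51, 64, 75, 7, 10, 25, 44, 15, 79, 61, 3, 76, 35, 52, 19, 34, 80, 49, 20, 63, 60, 70, 55,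
    47, 11, 56, 1, 41, 71, 45, 33, 28, 30, 12]

def gT81 : List ℕ :=
    [0, 73, 13, 57, 34, 25, 44, 50, 43, 8, 51, 71, 80, 1, 36, 54, 33, 18, 23, 61, 65, 10, 35,
    42, 26, 52, 32, 24, 78, 41, 79, 3, 2, 77, 62, 59, 16, 4, 31, 20, 30, 74, 27, 37, 53, 76, 38,
    70, 7, 64, 5, 47, 60, 19, 29, 69, 72, 22, 11, 45, 67, 56, 39, 66, 48, 9, 17, 12, 46, 40, 68,
    75, 28, 21, 14, 49, 58, 6, 15, 55, 63]

def rT81 : List ℕ :=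
    [0, 0, 0, 0, 39, 0, 19, 0, 7, 35, 8, 22, 0, 23, 5, 0, 18, 40, 0, 0, 32, 0, 26, 0, 11, 1, 0,
    0, 0, 0, 24, 0, 10, 0, 17, 28, 0, 0, 0, 0, 9, 12, 0, 0, 21, 31, 0, 0, 0, 37, 30, 0, 0, 14,
    38, 34, 16, 27, 20, 3, 15, 0, 2, 0, 0, 0, 25, 6, 0, 0, 4, 0, 13, 36, 0, 0, 0, 0, 0, 29, 33]

theorem strong_81 : Strong (ZMod 81) := by
  refine strong_of_table (lk81 eT81) (lk81 gT81) (lk81 rT81) ?_ ?_ ?_ ?_
  · decide +kernel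
  · decide +kernel
  · decide +kernel
  · decide +kernel

def lk125 (T : List ℕ) (x : ZMod 125) : ZMod 125 :=
  let i := T.getD (x.val) 0
  ((i : ℕ) : ZMod 125)

def eT125 : List ℕ :=
    [0, 8, 38, 31, 86, 112, 23, 99, 106, 71, 84, 120, 52, 25, 115, 119, 69, 47, 68, 110, 26, 54,
    116, 87, 63, 66, 35, 97, 55, 73, 81, 121, 80, 118, 49, 13, 114, 83, 72, 42, 117, 21, 10, 57,
    45, 16, 29, 65, 124, 24, 20, 37, 56, 75, 113, 19, 88, 11, 60, 102, 58, 122, 67, 5, 61, 123,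
    43, 2, 79, 32, 89, 59, 22, 4, 111, 95, 100, 76, 18, 108, 96, 1, 14, 93, 105, 77, 3, 34, 46,
    78, 103, 15, 85, 48, 90, 51, 44, 27, 70, 9, 41, 39, 64, 94, 33, 6, 91, 50, 30, 53, 104, 101,
    12, 40, 109, 74, 62, 98, 92, 17, 107, 82, 28, 36, 7]

def gT125 : List ℕ :=
    [0, 81, 67, 86, 73, 63, 105, 124, 1, 99, 42, 57, 112, 35, 82, 91, 45, 119, 78, 55, 50, 41,
    72, 6, 49, 13, 20, 97, 122, 46, 108, 3, 69, 104, 87, 26, 123, 51, 2, 101, 113, 100, 39, 66,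
    96, 44, 88, 17, 93, 34, 107, 95, 12, 109, 21, 28, 52, 43, 60, 71, 58, 64, 116, 24, 102, 47,
    25, 62, 18, 16, 98, 9, 38, 29, 115, 53, 77, 85, 89, 68, 32, 30, 121, 37, 10, 92, 4, 23, 56,
    70, 94, 106, 118, 83, 103, 75, 80, 27, 117, 7, 76, 111, 59, 90, 110, 84, 8, 120, 79, 114,
    19, 74, 5, 54, 36, 14, 22, 40, 33, 15, 11, 31, 61, 65, 48]

def rT125 : List ℕ :=
    [0, 41, 0, 32, 37, 0, 0, 30, 9, 0, 0, 0, 46, 0, 0, 1, 0, 0, 0, 0, 59, 0, 0, 51, 0, 0, 23, 0,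
    0, 0, 0, 0, 20, 10, 0, 0, 0, 13, 0, 0, 6, 0, 27, 4, 26, 39, 44, 54, 0, 0, 0, 0, 0, 0, 0, 0,
    60, 0, 61, 3, 52, 0, 58, 0, 34, 0, 7, 36, 0, 40, 0, 43, 62, 0, 2, 48, 19, 17, 33, 8, 0, 0,
    28, 47, 0, 22, 31, 21, 0, 0, 57, 14, 12, 0, 5, 0, 0, 53, 15, 0, 0, 0, 24, 42, 11, 0, 38, 25,
    55, 0, 0, 0, 45, 0, 0, 50, 35, 29, 18, 0, 56, 0, 16, 0, 49]

theorem strong_125 : Strong (ZMod 125) := by
  refine strong_of_table (lk125 eT125) (lk125 gT125) (lk125 rT125) ?_ ?_ ?_ ?_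
  · decide +kernel
  · decide +kernel
  · decide +kernel
  · decide +kernel

def lk5_3 (T : List ℕ) (x : ZMod 5 × ZMod 3) : ZMod 5 × ZMod 3 :=
  let i := T.getD (x.1.val * 3 + x.2.val) 0
  (((i / 3 : ℕ) : ZMod 5), ((i : ℕ) : ZMod 3))

def eT5_3 : List ℕ :=
    [0, 3, 5, 14, 10, 2, 13, 8, 9, 7, 4, 1, 11, 12, 6]

def gT5_3 : List ℕ :=
    [0, 11, 5, 1, 10, 2, 14, 9, 7, 8, 4, 12, 13, 6, 3]

def rT5_3 : List ℕ :=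
    [0, 4, 0, 0, 0, 6, 7, 3, 1, 0, 0, 0, 0, 8, 5]

theorem strong_5_3 : Strong (ZMod 5 × ZMod 3) := by
  refine strong_of_table (lk5_3 eT5_3) (lk5_3 gT5_3) (lk5_3 rT5_3) ?_ ?_ ?_ ?_
  · decide +kernel
  · decide +kernel
  · decide +kernel
  · decide +kernel

def lk5_5 (T : List ℕ) (x : ZMod 5 × ZMod 5) : ZMod 5 × ZMod 5 :=
  let i := T.getD (x.1.val * 5 + x.2.val) 0
  (((i / 5 : ℕ) : ZMod 5), ((i : ℕ) : ZMod 5))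

def eT5_5 : List ℕ :=
    [0, 21, 16, 19, 20, 2, 10, 18, 6, 12, 14, 24, 5, 15, 1, 4, 17, 7, 23, 13, 22, 8, 3, 11, 9]

def gT5_5 : List ℕ :=
    [0, 14, 5, 22, 15, 12, 8, 17, 21, 24, 6, 23, 9, 19, 10, 13, 2, 16, 7, 3, 4, 1, 20, 18, 11]

def rT5_5 : List ℕ :=
    [0, 0, 0, 12, 7, 2, 0, 11, 0, 8, 0, 0, 0, 10, 0, 9, 1, 0, 14, 6, 0, 0, 13, 0, 5]

theorem strong_5_5 : Strong (ZMod 5 × ZMod 5) := by
  refine strong_of_table (lk5_5 eT5_5) (lk5_5 gT5_5) (lk5_5 rT5_5) ?_ ?_ ?_ ?_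
  · decide +kernel
  · decide +kernel
  · decide +kernel
  · decide +kernel

def lk5_3_3 (T : List ℕ) (x : ZMod 5 × ZMod 3 × ZMod 3) : ZMod 5 × ZMod 3 × ZMod 3 :=
  let i := T.getD (x.1.val * 9 + x.2.1.val * 3 + x.2.2.val) 0
  (((i / 9 : ℕ) : ZMod 5), ((i / 3 : ℕ) : ZMod 3), ((i : ℕ) : ZMod 3))

def eT5_3_3 : List ℕ :=
    [0, 5, 4, 35, 13, 26, 32, 21, 9, 38, 1, 30, 20, 2, 7, 40, 18, 44, 15, 39, 25, 24, 19, 31,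
    16, 28, 33, 42, 8, 23, 37, 10, 12, 3, 11, 6, 29, 22, 36, 34, 27, 14, 17, 41, 43]

def gT5_3_3 : List ℕ :=
    [0, 10, 13, 33, 2, 1, 35, 14, 28, 8, 31, 34, 32, 4, 41, 18, 24, 42, 16, 22, 12, 7, 37, 29,
    21, 20, 5, 40, 25, 36, 11, 23, 6, 26, 39, 3, 38, 30, 9, 19, 15, 43, 27, 44, 17]

def rT5_3_3 : List ℕ :=
    [0, 0, 0, 18, 0, 0, 1, 11, 24, 0, 3, 0, 0, 0, 0, 0, 0, 19, 21, 9, 15, 20, 4, 0, 0, 22, 17,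
    0, 0, 0, 0, 0, 16, 0, 12, 0, 14, 10, 5, 23, 25, 0, 13, 26, 0]

theorem strong_5_3_3 : Strong (ZMod 5 × ZMod 3 × ZMod 3) := by
  refine strong_of_table (lk5_3_3 eT5_3_3) (lk5_3_3 gT5_3_3) (lk5_3_3 rT5_3_3) ?_ ?_ ?_ ?_
  · decide +kernel
  · decide +kernel
  · decide +kernel
  · decide +kernel

def lk5_5_3 (T : List ℕ) (x : ZMod 5 × ZMod 5 × ZMod 3) : ZMod 5 × ZMod 5 × ZMod 3 :=
  let i := T.getD (x.1.val * 15 + x.2.1.val * 3 + x.2.2.val) 0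
  (((i / 15 : ℕ) : ZMod 5), ((i / 3 : ℕ) : ZMod 5), ((i : ℕ) : ZMod 3))

def eT5_5_3 : List ℕ :=
    [0, 74, 73, 49, 29, 45, 2, 15, 30, 11, 40, 26, 46, 58, 25, 71, 53, 5, 31, 14, 7, 19, 55, 32,
    72, 4, 60, 20, 44, 50, 42, 51, 18, 61, 66, 54, 3, 6, 59, 34, 17, 39, 68, 27, 38, 12, 64, 23,
    41, 9, 62, 10, 1, 67, 57, 21, 47, 43, 22, 35, 56, 63, 37, 8, 36, 16, 48, 52, 69, 13, 24, 33,
    28, 65, 70]

def gT5_5_3 : List ℕ :=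
    [0, 52, 6, 36, 25, 17, 37, 20, 63, 49, 51, 9, 45, 69, 19, 7, 65, 40, 32, 21, 27, 55, 58, 47,
    70, 14, 11, 43, 72, 4, 8, 18, 23, 71, 39, 59, 64, 62, 44, 41, 10, 48, 30, 57, 28, 5, 12, 56,
    66, 3, 29, 31, 67, 16, 35, 22, 60, 54, 13, 38, 26, 33, 50, 61, 46, 73, 34, 53, 42, 68, 74,
    15, 24, 2, 1]

def rT5_5_3 : List ℕ :=
    [0, 0, 0, 0, 0, 0, 40, 32, 0, 0, 6, 29, 16, 22, 43, 0, 42, 21, 0, 0, 3, 0, 0, 0, 0, 27, 34,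
    0, 5, 33, 24, 0, 44, 0, 15, 0, 4, 26, 0, 30, 41, 7, 0, 0, 39, 36, 0, 0, 0, 0, 0, 0, 0, 37,
    1, 0, 23, 28, 0, 18, 0, 35, 0, 0, 0, 38, 19, 0, 17, 20, 8, 0, 0, 25, 31]

theorem strong_5_5_3 : Strong (ZMod 5 × ZMod 5 × ZMod 3) := by
  refine strong_of_table (lk5_5_3 eT5_5_3) (lk5_5_3 gT5_5_3) (lk5_5_3 rT5_5_3) ?_ ?_ ?_ ?_
  · decide +kernel
  · decide +kernel
  · decide +kernel
  · decide +kernel

def lk25_3 (T : List ℕ) (x : ZMod 25 × ZMod 3) : ZMod 25 × ZMod 3 :=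
  let i := T.getD (x.1.val * 3 + x.2.val) 0
  (((i / 3 : ℕ) : ZMod 25), ((i : ℕ) : ZMod 3))

def eT25_3 : List ℕ :=
    [0, 20, 19, 36, 34, 24, 61, 65, 3, 16, 47, 8, 57, 38, 43, 69, 26, 2, 31, 67, 18, 49, 6, 70,
    64, 29, 68, 15, 21, 56, 14, 51, 44, 11, 66, 74, 41, 46, 52, 5, 17, 9, 53, 39, 35, 59, 12,
    23, 63, 27, 71, 40, 42, 4, 28, 50, 62, 13, 1, 48, 54, 60, 10, 45, 32, 25, 7, 72, 37, 55, 73,
    58, 33, 22, 30]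

def gT25_3 : List ℕ :=
    [0, 58, 17, 8, 53, 39, 22, 66, 11, 41, 62, 33, 46, 57, 30, 27, 9, 40, 20, 2, 1, 28, 73, 47,
    5, 65, 16, 49, 54, 25, 74, 18, 64, 72, 4, 44, 3, 68, 13, 43, 51, 36, 52, 14, 32, 63, 37, 10,
    59, 21, 55, 31, 38, 42, 60, 69, 29, 12, 71, 45, 61, 6, 56, 48, 24, 7, 34, 19, 26, 15, 23,
    50, 67, 70, 35]

def rT25_3 : List ℕ :=
    [0, 8, 21, 27, 0, 11, 10, 0, 29, 0, 0, 0, 0, 0, 0, 0, 0, 28, 0, 20, 0, 0, 0, 9, 0, 0, 34,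
    12, 0, 24, 25, 0, 0, 16, 0, 26, 1, 0, 35, 0, 19, 6, 23, 36, 18, 7, 5, 0, 15, 0, 0, 0, 0, 0,
    0, 37, 32, 0, 0, 0, 13, 33, 17, 0, 4, 0, 38, 0, 22, 3, 30, 0, 14, 0, 31]

theorem strong_25_3 : Strong (ZMod 25 × ZMod 3) := by
  refine strong_of_table (lk25_3 eT25_3) (lk25_3 gT25_3) (lk25_3 rT25_3) ?_ ?_ ?_ ?_
  · decide +kernel
  · decide +kernel
  · decide +kernel
  · decide +kernel

def lk7_3_3 (T : List ℕ) (x : ZMod 7 × ZMod 3 × ZMod 3) : ZMod 7 × ZMod 3 × ZMod 3 :=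
  let i := T.getD (x.1.val * 9 + x.2.1.val * 3 + x.2.2.val) 0
  (((i / 9 : ℕ) : ZMod 7), ((i / 3 : ℕ) : ZMod 3), ((i : ℕ) : ZMod 3))

def eT7_3_3 : List ℕ :=
    [0, 6, 8, 60, 23, 37, 57, 44, 19, 40, 53, 38, 16, 62, 5, 24, 10, 30, 52, 48, 46, 39, 21, 59,
    35, 26, 15, 47, 7, 41, 17, 13, 22, 61, 58, 14, 20, 12, 42, 28, 51, 33, 50, 56, 45, 34, 29,
    32, 11, 55, 1, 18, 36, 2, 31, 27, 43, 9, 25, 3, 4, 54, 49]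

def gT7_3_3 : List ℕ :=
    [0, 50, 53, 59, 60, 14, 1, 28, 2, 57, 16, 48, 37, 31, 35, 26, 12, 30, 51, 8, 36, 22, 32, 4,
    15, 58, 25, 55, 39, 46, 17, 54, 47, 41, 45, 24, 52, 5, 11, 21, 9, 29, 38, 56, 7, 44, 20, 27,
    19, 62, 42, 40, 18, 10, 61, 49, 43, 6, 34, 23, 3, 33, 13]

def rT7_3_3 : List ℕ :=
    [0, 27, 11, 0, 0, 1, 0, 26, 9, 20, 0, 12, 32, 16, 18, 5, 0, 19, 0, 34, 0, 10, 0, 22, 25, 0,
    33, 0, 0, 0, 0, 0, 23, 15, 0, 0, 13, 0, 0, 4, 28, 0, 0, 24, 0, 3, 17, 0, 0, 0, 0, 0, 0, 29,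
    0, 30, 35, 21, 31, 14, 0, 0, 0]

theorem strong_7_3_3 : Strong (ZMod 7 × ZMod 3 × ZMod 3) := by
  refine strong_of_table (lk7_3_3 eT7_3_3) (lk7_3_3 gT7_3_3) (lk7_3_3 rT7_3_3) ?_ ?_ ?_ ?_
  · decide +kernel
  · decide +kernel
  · decide +kernel
  · decide +kernel

def lk27_3 (T : List ℕ) (x : ZMod 27 × ZMod 3) : ZMod 27 × ZMod 3 :=
  let i := T.getD (x.1.val * 3 + x.2.val) 0
  (((i / 3 : ℕ) : ZMod 27), ((i : ℕ) : ZMod 3))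

def eT27_3 : List ℕ :=
    [0, 25, 24, 49, 78, 26, 74, 15, 38, 51, 79, 10, 18, 63, 61, 27, 20, 37, 8, 47, 31, 76, 80,
    60, 65, 54, 57, 43, 3, 70, 13, 22, 36, 62, 19, 67, 75, 1, 5, 56, 73, 9, 17, 52, 33, 39, 48,
    45, 29, 35, 66, 64, 7, 72, 16, 44, 59, 41, 34, 32, 55, 40, 58, 71, 14, 28, 12, 23, 4, 6, 50,
    53, 42, 2, 69, 68, 30, 11, 46, 21, 77]

def gT27_3 : List ℕ :=
    [0, 37, 73, 28, 68, 38, 69, 52, 18, 41, 11, 77, 66, 30, 64, 7, 54, 42, 12, 34, 16, 79, 31,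
    67, 2, 1, 5, 15, 65, 48, 76, 20, 59, 44, 58, 49, 32, 17, 8, 45, 61, 57, 72, 27, 55, 47, 78,
    19, 46, 3, 70, 9, 43, 71, 25, 60, 39, 26, 62, 56, 23, 14, 33, 13, 51, 24, 50, 35, 75, 74,
    29, 63, 53, 40, 6, 36, 21, 80, 4, 10, 22]

def rT27_3 : List ℕ :=
    [0, 0, 0, 0, 34, 25, 0, 33, 0, 11, 26, 0, 9, 31, 3, 0, 0, 0, 35, 23, 0, 16, 24, 0, 12, 40,
    7, 14, 0, 0, 29, 0, 0, 36, 0, 13, 0, 0, 0, 15, 0, 0, 20, 32, 0, 0, 37, 5, 0, 1, 21, 0, 0,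
    38, 22, 0, 0, 17, 6, 27, 0, 41, 28, 0, 0, 0, 0, 10, 8, 0, 39, 0, 19, 0, 4, 0, 18, 30, 0, 0,
    0]

theorem strong_27_3 : Strong (ZMod 27 × ZMod 3) := by
  refine strong_of_table (lk27_3 eT27_3) (lk27_3 gT27_3) (lk27_3 rT27_3) ?_ ?_ ?_ ?_
  · decide +kernel
  · decide +kernel
  · decide +kernel
  · decide +kernel

def lk9_9 (T : List ℕ) (x : ZMod 9 × ZMod 9) : ZMod 9 × ZMod 9 :=
  let i := T.getD (x.1.val * 9 + x.2.val) 0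
  (((i / 9 : ℕ) : ZMod 9), ((i : ℕ) : ZMod 9))

def eT9_9 : List ℕ :=
    [0, 19, 12, 7, 28, 33, 4, 10, 18, 26, 69, 43, 37, 61, 36, 80, 20, 6, 42, 75, 71, 78, 54, 15,
    53, 55, 67, 9, 23, 8, 52, 3, 77, 38, 74, 27, 21, 2, 68, 44, 47, 72, 25, 11, 70, 66, 35, 58,
    64, 40, 16, 5, 30, 46, 63, 1, 49, 14, 45, 62, 22, 60, 76, 24, 50, 39, 29, 73, 41, 57, 51,
    56, 17, 79, 13, 65, 31, 48, 34, 32, 59]

def gT9_9 : List ℕ :=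
    [0, 55, 37, 31, 6, 51, 17, 3, 29, 27, 7, 43, 2, 74, 57, 23, 50, 72, 8, 1, 16, 36, 60, 28,
    63, 42, 9, 35, 4, 66, 52, 76, 79, 5, 78, 46, 14, 12, 33, 65, 49, 68, 18, 11, 39, 58, 53, 40,
    77, 56, 64, 70, 30, 24, 22, 25, 71, 69, 47, 80, 61, 13, 59, 54, 48, 75, 45, 26, 38, 10, 44,
    20, 41, 67, 34, 19, 62, 32, 21, 73, 15]

def rT9_9 : List ℕ :=
    [0, 0, 3, 0, 0, 0, 36, 23, 42, 28, 0, 0, 0, 25, 22, 44, 0, 38, 0, 13, 0, 0, 2, 0, 0, 0, 0,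
    26, 35, 0, 0, 41, 20, 16, 9, 0, 0, 1, 10, 0, 39, 32, 34, 0, 0, 21, 0, 0, 37, 0, 19, 0, 33,
    0, 40, 15, 31, 18, 0, 29, 0, 4, 0, 0, 0, 30, 11, 14, 0, 43, 0, 12, 27, 24, 0, 0, 17, 0, 0,
    0, 0]

theorem strong_9_9 : Strong (ZMod 9 × ZMod 9) := by
  refine strong_of_table (lk9_9 eT9_9) (lk9_9 gT9_9) (lk9_9 rT9_9) ?_ ?_ ?_ ?_
  · decide +kernel
  · decide +kernel
  · decide +kernel
  · decide +kernel

def lk9_3 (T : List ℕ) (x : ZMod 9 × ZMod 3) : ZMod 9 × ZMod 3 :=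
  let i := T.getD (x.1.val * 3 + x.2.val) 0
  (((i / 3 : ℕ) : ZMod 9), ((i : ℕ) : ZMod 3))

def eT9_3 : List ℕ :=
    [0, 9, 11, 23, 14, 8, 24, 19, 2, 13, 6, 25, 7, 1, 16, 22, 5, 15, 4, 17, 26, 18, 21, 12, 20,
    3, 10]

def gT9_3 : List ℕ :=
    [0, 13, 8, 25, 18, 16, 10, 12, 5, 1, 26, 2, 23, 9, 4, 17, 14, 19, 21, 7, 24, 22, 15, 3, 6,
    11, 20]

def rT9_3 : List ℕ :=
    [0, 0, 12, 0, 7, 10, 0, 0, 0, 0, 0, 5, 11, 3, 0, 6, 13, 9, 14, 0, 1, 4, 0, 8, 0, 0, 0]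

theorem strong_9_3 : Strong (ZMod 9 × ZMod 3) := by
  refine strong_of_table (lk9_3 eT9_3) (lk9_3 gT9_3) (lk9_3 rT9_3) ?_ ?_ ?_ ?_
  · decide +kernel
  · decide +kernel
  · decide +kernel
  · decide +kernel

def lk3_3_3 (T : List ℕ) (x : ZMod 3 × ZMod 3 × ZMod 3) : ZMod 3 × ZMod 3 × ZMod 3 :=
  let i := T.getD (x.1.val * 9 + x.2.1.val * 3 + x.2.2.val) 0
  (((i / 9 : ℕ) : ZMod 3), ((i / 3 : ℕ) : ZMod 3), ((i : ℕ) : ZMod 3))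

def eT3_3_3 : List ℕ :=
    [0, 17, 16, 2, 23, 24, 8, 22, 19, 20, 4, 14, 1, 15, 9, 12, 26, 18, 11, 3, 21, 6, 13, 10, 25,
    7, 5]

def gT3_3_3 : List ℕ :=
    [0, 12, 3, 19, 10, 26, 21, 25, 6, 14, 23, 18, 15, 22, 11, 13, 2, 1, 17, 8, 9, 20, 7, 4, 5,
    24, 16]

def rT3_3_3 : List ℕ :=
    [0, 9, 0, 0, 17, 0, 16, 3, 0, 15, 5, 13, 4, 0, 0, 0, 14, 11, 0, 0, 0, 1, 0, 0, 0, 10, 12]

theorem strong_3_3_3 : Strong (ZMod 3 × ZMod 3 × ZMod 3) := by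
  refine strong_of_table (lk3_3_3 eT3_3_3) (lk3_3_3 gT3_3_3) (lk3_3_3 rT3_3_3) ?_ ?_ ?_ ?_
  · decide +kernel
  · decide +kernel
  · decide +kernel
  · decide +kernel

def lk3_3_3_3 (T : List ℕ) (x : ZMod 3 × ZMod 3 × ZMod 3 × ZMod 3) : ZMod 3 × ZMod 3 × ZMod 3 × ZMod 3 :=
  let i := T.getD (x.1.val * 27 + x.2.1.val * 9 + x.2.2.1.val * 3 + x.2.2.2.val) 0
  (((i / 27 : ℕ) : ZMod 3), ((i / 9 : ℕ) : ZMod 3), ((i / 3 : ℕ) : ZMod 3), ((i : ℕ) : ZMod 3))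

def eT3_3_3_3 : List ℕ :=
    [0, 52, 51, 18, 35, 60, 24, 58, 31, 30, 65, 80, 78, 25, 50, 16, 6, 64, 48, 69, 55, 1, 59,
    20, 66, 36, 12, 2, 22, 71, 68, 70, 46, 4, 7, 19, 63, 40, 14, 5, 33, 47, 76, 53, 73, 62, 17,
    29, 32, 67, 72, 28, 37, 49, 56, 42, 75, 61, 77, 54, 38, 26, 39, 44, 9, 79, 13, 8, 21, 11,
    34, 45, 27, 57, 3, 43, 41, 10, 74, 15, 23]

def gT3_3_3_3 : List ℕ :=
    [0, 21, 27, 74, 33, 39, 16, 34, 67, 64, 77, 69, 26, 66, 38, 79, 15, 46, 3, 35, 23, 68, 28,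
    80, 6, 13, 61, 72, 51, 47, 9, 8, 48, 40, 70, 4, 25, 52, 60, 62, 37, 76, 55, 75, 63, 71, 32,
    41, 18, 53, 14, 2, 1, 43, 59, 20, 54, 73, 7, 22, 5, 57, 45, 36, 17, 10, 24, 49, 30, 19, 31,
    29, 50, 44, 78, 56, 42, 58, 12, 65, 11]

def rT3_3_3_3 : List ℕ :=
    [0, 13, 42, 44, 49, 0, 0, 0, 0, 36, 0, 0, 0, 45, 0, 3, 0, 15, 0, 31, 0, 0, 30, 29, 0, 50,
    16, 12, 5, 0, 0, 52, 11, 43, 0, 41, 10, 0, 47, 17, 48, 51, 32, 37, 0, 53, 0, 40, 0, 0, 0, 0,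
    0, 0, 4, 27, 33, 46, 0, 14, 0, 34, 0, 0, 0, 0, 35, 1, 0, 0, 28, 38, 0, 0, 0, 0, 39, 0, 9, 0,
    0]

theorem strong_3_3_3_3 : Strong (ZMod 3 × ZMod 3 × ZMod 3 × ZMod 3) := by
  refine strong_of_table (lk3_3_3_3 eT3_3_3_3) (lk3_3_3_3 gT3_3_3_3) (lk3_3_3_3 rT3_3_3_3) ?_ ?_ ?_ ?_
  · decide +kernel
  · decide +kernel
  · decide +kernel
  · decide +kernel

def lk9_3_3 (T : List ℕ) (x : ZMod 9 × ZMod 3 × ZMod 3) : ZMod 9 × ZMod 3 × ZMod 3 :=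
  let i := T.getD (x.1.val * 9 + x.2.1.val * 3 + x.2.2.val) 0
  (((i / 9 : ℕ) : ZMod 9), ((i / 3 : ℕ) : ZMod 3), ((i : ℕ) : ZMod 3))

def eT9_3_3 : List ℕ :=
    [0, 32, 31, 17, 41, 68, 14, 63, 37, 12, 30, 28, 73, 19, 7, 11, 59, 40, 75, 16, 71, 55, 69,
    13, 62, 2, 53, 61, 1, 36, 21, 8, 56, 79, 49, 45, 80, 60, 18, 48, 66, 4, 39, 76, 25, 44, 64,
    26, 6, 65, 42, 9, 47, 29, 34, 10, 54, 46, 22, 24, 72, 33, 58, 57, 51, 78, 38, 27, 67, 43,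
    74, 50, 3, 20, 23, 5, 35, 52, 70, 77, 15]

def gT9_3_3 : List ℕ :=
    [0, 28, 25, 72, 41, 75, 48, 14, 31, 51, 55, 15, 9, 23, 6, 80, 19, 3, 38, 13, 73, 30, 58, 74,
    59, 44, 47, 67, 11, 53, 10, 2, 1, 61, 54, 76, 29, 8, 66, 42, 17, 4, 50, 69, 45, 35, 57, 52,
    39, 34, 71, 64, 77, 26, 56, 21, 32, 63, 62, 16, 37, 27, 24, 7, 46, 49, 40, 68, 5, 22, 78,
    20, 60, 12, 70, 18, 43, 79, 65, 33, 36]

def rT9_3_3 : List ℕ :=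
    [0, 38, 0, 23, 19, 27, 44, 0, 32, 0, 0, 0, 30, 15, 40, 9, 24, 21, 16, 3, 0, 0, 0, 0, 0, 0,
    0, 0, 43, 22, 0, 36, 20, 0, 13, 0, 42, 0, 0, 0, 0, 0, 0, 0, 33, 11, 29, 0, 41, 0, 5, 18, 0,
    10, 31, 28, 0, 39, 0, 0, 1, 0, 12, 17, 34, 0, 25, 35, 0, 0, 0, 0, 14, 0, 0, 4, 0, 37, 0, 0,
    26]

theorem strong_9_3_3 : Strong (ZMod 9 × ZMod 3 × ZMod 3) := by
  refine strong_of_table (lk9_3_3 eT9_3_3) (lk9_3_3 gT9_3_3) (lk9_3_3 rT9_3_3) ?_ ?_ ?_ ?_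
  · decide +kernel
  · decide +kernel
  · decide +kernel
  · decide +kernel

def lk9 (T : List ℕ) (x : ZMod 9) : ZMod 9 :=
  let i := T.getD (x.val) 0
  ((i : ℕ) : ZMod 9)

theorem good_9 : Good (ZMod 9) := by
  refine good_of_table (lk9 [0, 2, 6, 8, 7, 3, 5, 4, 1]) (lk9 [0, 3, 8, 7, 5, 1, 4, 6, 2]) (lk9 [0, 8, 1, 5, 7, 6, 2, 4, 3]) (lk9 [0, 5, 8, 1, 6, 4, 7, 3, 2])
    (lk9 [0, 1, 2, 0, 0, 0, 0, 4, 3]) ?_ ?_ ?_ ?_ ?_ ?_ ?_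
  · decide +kernel
  · decide +kernel
  · decide +kernel
  · decide +kernel
  · decide +kernel
  · decide +kernel
  · decide +kernel

theorem dm_27 : DM (ZMod 27) := by
  refine dm_of_table
    (lk27
    [0, 3, 5, 17, 16, 12, 23, 26, 13, 8, 6, 20, 18, 2, 25, 9, 7, 21, 19, 14, 1, 4, 15, 11, 10,
    22, 24])
    (lk27
    [0, 13, 20, 23, 21, 3, 12, 2, 9, 22, 26, 19, 16, 10, 17, 11, 8, 1, 5, 18, 25, 15, 24, 6, 4,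
    7, 14])
    (lk27
    [0, 20, 13, 1, 21, 2, 10, 16, 9, 15, 24, 23, 5, 8, 19, 22, 4, 3, 12, 18, 11, 17, 25, 6, 26,
    14, 7])
    (lk27
    [0, 18, 1, 2, 17, 8, 12, 5, 20, 11, 21, 14, 4, 24, 3, 23, 13, 6, 16, 7, 22, 15, 19, 10, 25,
    26, 9])
    (lk27
    [0, 16, 15, 7, 19, 4, 3, 17, 13, 22, 1, 21, 25, 18, 9, 2, 6, 26, 5, 14, 10, 24, 23, 8, 20,
    12, 11])
    (lk27
    [0, 17, 7, 5, 24, 18, 23, 25, 16, 8, 13, 15, 6, 1, 26, 21, 12, 14, 19, 11, 2, 4, 9, 3, 22,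
    20, 10])
    (lk27
    [0, 8, 22, 14, 12, 20, 6, 24, 11, 25, 23, 17, 1, 9, 18, 26, 10, 4, 2, 16, 3, 21, 7, 15, 13,
    5, 19])
    ?_ ?_ ?_ ?_ ?_
  · decide +kernel
  · decide +kernel
  · decide +kernel
  · decide +kernel
  · decide +kernel

theorem dm_9_3 : DM (ZMod 9 × ZMod 3) := by
  refine dm_of_table
    (lk9_3
    [0, 2, 1, 6, 8, 7, 12, 14, 13, 18, 20, 19, 24, 26, 25, 3, 5, 4, 9, 11, 10, 15, 17, 16, 21,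
    23, 22])
    (lk9_3
    [0, 3, 24, 2, 19, 21, 23, 16, 25, 12, 17, 10, 26, 18, 8, 4, 22, 9, 15, 20, 13, 7, 5, 14, 1,
    6, 11])
    (lk9_3
    [0, 2, 1, 15, 17, 16, 3, 5, 4, 18, 20, 19, 6, 8, 7, 21, 23, 22, 9, 11, 10, 24, 26, 25, 12,
    14, 13])
    (lk9_3
    [0, 1, 2, 3, 4, 5, 6, 7, 8, 9, 10, 11, 12, 13, 14, 15, 16, 17, 18, 19, 20, 21, 22, 23, 24,
    25, 26])
    (lk9_3
    [0, 15, 12, 20, 1, 7, 18, 24, 17, 19, 14, 6, 8, 25, 4, 22, 26, 5, 11, 21, 16, 9, 13, 3, 10,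
    23, 2])
    (lk9_3
    [0, 24, 3, 1, 15, 22, 25, 21, 14, 17, 11, 26, 9, 20, 23, 18, 7, 10, 13, 4, 19, 5, 16, 6, 2,
    8, 12])
    (lk9_3
    [0, 19, 11, 9, 24, 1, 16, 10, 13, 7, 22, 25, 26, 21, 12, 4, 15, 6, 23, 5, 8, 14, 17, 20, 18,
    2, 3])
    ?_ ?_ ?_ ?_ ?_
  · decide +kernel
  · decide +kernel
  · decide +kernel
  · decide +kernel
  · decide +kernel

theorem dm_3_3_3 : DM (ZMod 3 × ZMod 3 × ZMod 3) := by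
  refine dm_of_table
    (lk3_3_3
    [0, 4, 8, 15, 12, 6, 21, 3, 24, 10, 23, 13, 18, 22, 7, 25, 2, 19, 20, 26, 16, 14, 11, 1, 9,
    5, 17])
    (lk3_3_3
    [0, 6, 3, 1, 26, 20, 2, 10, 13, 18, 8, 14, 22, 19, 24, 7, 23, 15, 9, 25, 4, 5, 21, 16, 17,
    12, 11])
    (lk3_3_3
    [0, 23, 16, 7, 1, 25, 5, 14, 2, 24, 9, 22, 4, 11, 21, 3, 20, 26, 12, 17, 18, 6, 13, 10, 8,
    15, 19])
    (lk3_3_3
    [0, 9, 18, 1, 5, 11, 2, 19, 7, 13, 15, 4, 3, 10, 17, 12, 25, 23, 26, 8, 21, 24, 16, 14, 6,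
    22, 20])
    (lk3_3_3
    [0, 11, 19, 26, 12, 1, 13, 2, 24, 15, 25, 9, 10, 22, 4, 23, 7, 6, 21, 18, 14, 16, 3, 5, 20,
    8, 17])
    (lk3_3_3
    [0, 3, 6, 2, 20, 21, 1, 15, 10, 18, 7, 26, 25, 8, 11, 17, 23, 24, 9, 13, 5, 22, 12, 16, 14,
    19, 4])
    (lk3_3_3
    [0, 17, 22, 11, 2, 6, 19, 3, 1, 9, 12, 21, 7, 14, 20, 13, 16, 8, 18, 15, 24, 26, 4, 23, 5,
    10, 25])
    ?_ ?_ ?_ ?_ ?_
  · decide +kernel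
  · decide +kernel
  · decide +kernel
  · decide +kernel
  · decide +kernel

end Pool.Agent.StarterAdder
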