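import Mathlib
import Pool.Agent.MP_b9302b_co.Ext
import Pool.Agent.MP_b9302b_co.Prod2
import Pool.Agent.MP_b9302b_co.Color
import Pool.Agent.MP_b9302b_co.Fermat
import Pool.Agent.MP_b9302b_co.Tables

set_option autoImplicit false

namespace Pool.Agent.StarterAdder

theorem strong_prime (p : ℕ) [hp : Fact p.Prime] (h7 : 7 ≤ p) : Strong (ZMod p) := by
  have h2 : (2 : ZMod p) ≠ 0 := by
    intro h
    have h' : ((2 : ℕ) : ZMod p) = 0 := by exact_mod_cast h
    have := Nat.le_of_dvd (by norm_num) ((ZMod.natCast_eq_zero_iff 2 p).1 h')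
    omega
  rcases Nat.eq_two_pow_or_exists_odd_prime_and_dvd (p - 1) with ⟨k, hk⟩ | ⟨q, hq, hdvd, hodd⟩
  · have hpk : p = 2 ^ k + 1 := by omega
    have hk0 : k ≠ 0 := by rintro rfl; norm_num at hpk; omega
    obtain ⟨m, rfl⟩ := Nat.pow_of_pow_add_prime (a := 2) (by norm_num) hk0 (by rw [← hpk]; exact hp.out)
    rcases Nat.lt_or_ge m 3 with h | h
    · interval_cases m
      · norm_num at hpk; omega
      · norm_num at hpk; omega
      · norm_num at hpk
        subst hpk
        exact strong_17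
    · exact strong_fermat m h p hpk
  · have : Fact q.Prime := ⟨hq⟩
    have hcard : q ∣ Fintype.card (ZMod p)ˣ := by rw [ZMod.card_units p]; exact hdvd
    obtain ⟨u, hu⟩ := exists_prime_orderOf_dvd_card q hcard
    refine strong_of_root h2 q hodd (u : ZMod p) ?_ ?_
    · intro h
      have : u = 1 := by ext; simpa using h
      rw [this, orderOf_one] at hu
      exact hq.one_lt.ne hu
    · have := pow_orderOf_eq_one u
      rw [hu] at this
      have := congrArg Units.val this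
      simpa using this

/-- Short exact sequences. -/
def SES (H G K : Type*) [AddCommGroup H] [AddCommGroup G] [AddCommGroup K] : Prop :=
  ∃ (φ : H →+ G) (π : G →+ K), Function.Injective φ ∧ Function.Surjective π ∧
    ∀ g, π g = 0 ↔ ∃ h, φ h = g

theorem SES.good {H G K : Type*} [AddCommGroup H] [AddCommGroup G] [AddCommGroup K]
    (h : SES H G K) (hK : HasHalf K) (hH : Good H) (hgK : Good K) (dm : DM H) : Good G := by
  obtain ⟨φ, π, h1, h2, h3⟩ := h
  exact good_ext φ π h1 h2 h3 hK hH hgK dm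

theorem SES.left (G K : Type*) [AddCommGroup G] [AddCommGroup K] [Subsingleton K] :
    SES G G K := by
  refine ⟨AddMonoidHom.id G, 0, fun _ _ h => h, fun k => ⟨0, Subsingleton.elim _ _⟩, fun g => ?_⟩
  simp

theorem SES.right (H G : Type*) [AddCommGroup G] [AddCommGroup H] [Subsingleton H] :
    SES H G G := by
  refine ⟨0, AddMonoidHom.id G, fun _ _ _ => Subsingleton.elim _ _, fun k => ⟨k, rfl⟩,
    fun g => ?_⟩
  constructor
  · intro h
    exact ⟨0, by simpa using h.symm⟩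
  · rintro ⟨h, hh⟩
    simpa using hh.symm

theorem SES.prodfst (H K : Type*) [AddCommGroup H] [AddCommGroup K] : SES H (H × K) K := by
  refine ⟨AddMonoidHom.inl H K, AddMonoidHom.snd H K, ?_, ?_, ?_⟩
  · intro x y h
    simpa using h
  · intro k; exact ⟨(0, k), rfl⟩
  · rintro ⟨a, b⟩
    constructor
    · intro h
      exact ⟨a, by simpa using h.symm⟩
    · rintro ⟨h, hh⟩
      simp at hh
      simp [hh.2]

theorem SES.prod {H G K H' G' K' : Type*} [AddCommGroup H] [AddCommGroup G] [AddCommGroup K]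
    [AddCommGroup H'] [AddCommGroup G'] [AddCommGroup K'] (h : SES H G K) (h' : SES H' G' K') :
    SES (H × H') (G × G') (K × K') := by
  obtain ⟨φ, π, h1, h2, h3⟩ := h
  obtain ⟨φ', π', h1', h2', h3'⟩ := h'
  refine ⟨φ.prodMap φ', π.prodMap π', ?_, ?_, ?_⟩
  · rintro ⟨a, b⟩ ⟨c, d⟩ h
    simp only [AddMonoidHom.coe_prodMap, Prod.map_apply, Prod.mk.injEq] at h
    rw [h1 h.1, h1' h.2]
  · rintro ⟨a, b⟩
    obtain ⟨x, rfl⟩ := h2 a
    obtain ⟨y, rfl⟩ := h2' b
    exact ⟨(x, y), rfl⟩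
  · rintro ⟨a, b⟩
    simp only [AddMonoidHom.coe_prodMap, Prod.map_apply, Prod.mk_eq_zero, Prod.exists,
      Prod.mk.injEq]
    rw [h3, h3']
    constructor
    · rintro ⟨⟨x, hx⟩, ⟨y, hy⟩⟩
      exact ⟨x, y, hx, hy⟩
    · rintro ⟨x, y, hx, hy⟩
      exact ⟨⟨x, hx⟩, ⟨y, hy⟩⟩

theorem SES.zmod (a b : ℕ) (_ha : 0 < a) (hb : 0 < b) :
    SES (ZMod a) (ZMod (a * b)) (ZMod b) := by
  let f : ℤ →+ ZMod (a * b) :=
    (AddMonoidHom.mulRight ((b : ℕ) : ZMod (a * b))).comp (Int.castAddHom (ZMod (a * b)))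
  have hf : ∀ m : ℤ, f m = ((m * b : ℤ) : ZMod (a * b)) := by
    intro m; simp [f]
  have hfa : f (a : ℤ) = 0 := by
    rw [hf]
    rw [ZMod.intCast_zmod_eq_zero_iff_dvd]
    push_cast
    exact dvd_refl _
  have hf0 : ∀ m : ℤ, f m = 0 ↔ (a : ℤ) ∣ m := by
    intro m
    rw [hf, ZMod.intCast_zmod_eq_zero_iff_dvd]
    push_cast
    constructor
    · intro h
      exact Int.dvd_of_mul_dvd_mul_right (by exact_mod_cast hb.ne') h
    · intro h
      exact mul_dvd_mul_right h _
  have hab : b ∣ a * b := Dvd.intro_left a rfl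
  refine ⟨ZMod.lift a ⟨f, hfa⟩, (ZMod.castHom hab (ZMod b)).toAddMonoidHom,
    ?_, ?_, ?_⟩
  · rw [ZMod.lift_injective]
    intro m hm
    rw [ZMod.intCast_zmod_eq_zero_iff_dvd]
    exact (hf0 m).1 hm
  · exact ZMod.castHom_surjective hab
  · intro g
    obtain ⟨m, rfl⟩ := ZMod.intCast_surjective g
    have hc : (ZMod.castHom hab (ZMod b)).toAddMonoidHom
        ((m : ℤ) : ZMod (a * b)) = ((m : ℤ) : ZMod b) := by
      simp
    rw [hc, ZMod.intCast_zmod_eq_zero_iff_dvd]
    constructor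
    · rintro ⟨c, rfl⟩
      refine ⟨((c : ℤ) : ZMod a), ?_⟩
      rw [ZMod.lift_coe]
      show f c = _
      rw [hf, mul_comm c]
    · rintro ⟨h, hh⟩
      obtain ⟨c, rfl⟩ := ZMod.intCast_surjective h
      rw [ZMod.lift_coe] at hh
      change f c = _ at hh
      rw [hf, ← sub_eq_zero, ← Int.cast_sub, ZMod.intCast_zmod_eq_zero_iff_dvd] at hh
      have hbd : (b : ℤ) ∣ c * b - m := dvd_trans (by push_cast; exact Dvd.intro_left _ rfl) hh
      have := dvd_sub (Dvd.intro_left c rfl : (b : ℤ) ∣ c * b) hbd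
      simpa using this

theorem SES.congr {H G K H' G' K' : Type*} [AddCommGroup H] [AddCommGroup G] [AddCommGroup K]
    [AddCommGroup H'] [AddCommGroup G'] [AddCommGroup K'] (α : H ≃+ H') (β : G ≃+ G')
    (γ : K ≃+ K') (h : SES H G K) : SES H' G' K' := by
  obtain ⟨φ, π, h1, h2, h3⟩ := h
  refine ⟨(β : G →+ G').comp (φ.comp (α.symm : H' →+ H)),
    (γ : K →+ K').comp (π.comp (β.symm : G' →+ G)), ?_, ?_, ?_⟩
  · intro x y hxy
    simp only [AddMonoidHom.coe_comp, AddMonoidHom.coe_coe, Function.comp_apply] at hxy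
    exact α.symm.injective (h1 (β.injective hxy))
  · intro k
    obtain ⟨g, hg⟩ := h2 (γ.symm k)
    refine ⟨β g, ?_⟩
    simp [hg]
  · intro g
    simp only [AddMonoidHom.coe_comp, AddMonoidHom.coe_coe, Function.comp_apply,
      map_eq_zero_iff γ γ.injective]
    rw [h3]
    constructor
    · rintro ⟨h, hh⟩
      exact ⟨α h, by simp [hh]⟩
    · rintro ⟨h, hh⟩
      exact ⟨α.symm h, by rw [← hh]; simp⟩

end Pool.Agent.StarterAdder
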