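import Mathlib
import Pool.Agent.MP_b9302b_co.Seq

set_option autoImplicit false

namespace Pool.Agent.StarterAdder

/-- Iterated product of cyclic groups. -/
def PL : List ℕ → Type
  | [] => PUnit
  | n :: L => ZMod n × PL L

instance PL.inst : (L : List ℕ) → AddCommGroup (PL L)
  | [] => inferInstanceAs (AddCommGroup PUnit)
  | n :: L => @Prod.instAddCommGroup (ZMod n) (PL L) _ (PL.inst L)

instance : Unique (PL []) := inferInstanceAs (Unique PUnit)

/-- Splitting off the first factor. -/
def PL.cons (n : ℕ) (L : List ℕ) : PL (n :: L) ≃+ ZMod n × PL L := AddEquiv.refl _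

theorem PL.perm {L L' : List ℕ} (h : L.Perm L') : Nonempty (PL L ≃+ PL L') := by
  induction h with
  | nil => exact ⟨AddEquiv.refl _⟩
  | cons x _ ih =>
    obtain ⟨e⟩ := ih
    exact ⟨((PL.cons x _).trans ((AddEquiv.refl _).prodCongr e)).trans (PL.cons x _).symm⟩
  | swap x y l =>
    refine ⟨((PL.cons y _).trans ((AddEquiv.refl _).prodCongr (PL.cons x _))).trans
      ((AddEquiv.prodAssoc.symm.trans ((AddEquiv.prodComm).prodCongr (AddEquiv.refl _))).trans
        (AddEquiv.prodAssoc.trans
          (((AddEquiv.refl _).prodCongr (PL.cons y _).symm).trans (PL.cons x _).symm)))⟩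
  | trans _ _ ih1 ih2 =>
    obtain ⟨e⟩ := ih1
    obtain ⟨e'⟩ := ih2
    exact ⟨e.trans e'⟩

theorem PL.good_perm {L L' : List ℕ} (h : L.Perm L') (hg : Good (PL L')) : Good (PL L) := by
  obtain ⟨e⟩ := PL.perm h.symm
  exact hg.congr e

theorem PL.finite (L : List ℕ) (h : ∀ q ∈ L, 0 < q) : Finite (PL L) := by
  induction L with
  | nil => exact inferInstanceAs (Finite PUnit)
  | cons n L ih =>
    have h1 := ih (fun q hq => h q (List.mem_cons_of_mem _ hq))
    have h2 : 0 < n := h n List.mem_cons_self
    have : NeZero n := ⟨h2.ne'⟩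
    have : Finite (ZMod n × PL L) := inferInstance
    exact Finite.of_equiv _ (PL.cons n L).symm.toEquiv

theorem PL.card (L : List ℕ) : Nat.card (PL L) = L.prod := by
  induction L with
  | nil => exact Nat.card_unique (α := PUnit)
  | cons n L ih =>
    rw [Nat.card_congr (PL.cons n L).toEquiv, Nat.card_prod, ih, Nat.card_zmod, List.prod_cons]

theorem PL.hasHalf (L : List ℕ) (h : ∀ q ∈ L, Odd q) : HasHalf (PL L) := by
  have hpos : ∀ q ∈ L, 0 < q := fun q hq => (h q hq).pos
  have := PL.finite L hpos
  apply hasHalf_of_odd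
  rw [PL.card]
  clear hpos this
  induction L with
  | nil => simp
  | cons n L ih =>
    rw [List.prod_cons]
    exact (h n List.mem_cons_self).mul (ih (fun q hq => h q (List.mem_cons_of_mem _ hq)))

theorem good_nil : Good (PL []) := by
  refine ⟨id, id, fun _ _ h => h, fun _ _ h => h, rfl, rfl, fun _ => Subsingleton.elim _ _,
    fun _ => Subsingleton.elim _ _, fun _ _ _ => Or.inl (Subsingleton.elim _ _)⟩

/-- One factor. -/
def PL.one (a : ℕ) : PL [a] ≃+ ZMod a := (PL.cons a []).trans (AddEquiv.prodUnique)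

/-- Two factors. -/
def PL.two (a b : ℕ) : PL [a, b] ≃+ ZMod a × ZMod b :=
  (PL.cons a [b]).trans ((AddEquiv.refl _).prodCongr (PL.one b))

/-- Three factors. -/
def PL.three (a b c : ℕ) : PL [a, b, c] ≃+ ZMod a × ZMod b × ZMod c :=
  (PL.cons a [b, c]).trans ((AddEquiv.refl _).prodCongr (PL.two b c))

/-- Four factors. -/
def PL.four (a b c d : ℕ) : PL [a, b, c, d] ≃+ ZMod a × ZMod b × ZMod c × ZMod d :=
  (PL.cons a [b, c, d]).trans ((AddEquiv.refl _).prodCongr (PL.three b c d))

/-- Concatenation. -/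
def PL.append : (L L' : List ℕ) → PL (L ++ L') ≃+ PL L × PL L'
  | [], L' => (AddEquiv.uniqueProd (M := PL L') (N := PUnit)).symm
  | a :: L, L' => ((PL.cons a (L ++ L')).trans
      (((AddEquiv.refl _).prodCongr (PL.append L L')).trans AddEquiv.prodAssoc.symm))

theorem PL.good_split (L L' : List ℕ) (h : Good (PL L × PL L')) : Good (PL (L ++ L')) :=
  h.congr (PL.append L L').symm

/-- Product of two groups using a second factor with a suitable permutation. -/
theorem PL.good_mul (L L' : List ℕ) (hL : ∀ q ∈ L, Odd q) (hL' : ∀ q ∈ L', Odd q)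
    (hc : L'.prod ≤ L.prod) (hg : Good (PL L))
    (hθ : ∃ θ : PL L' → PL L', θ 0 = 0 ∧ Function.Injective θ ∧
      Function.Injective (fun x => θ x - x) ∧ Function.Injective (fun x => θ x + θ x - x)) :
    Good (PL (L ++ L')) := by
  apply PL.good_split
  obtain ⟨θ, h0, h1, h2, h3⟩ := hθ
  have := PL.finite L (fun q hq => (hL q hq).pos)
  have := PL.finite L' (fun q hq => (hL' q hq).pos)
  exact good_prod (by rw [PL.card, PL.card]; exact hc) (PL.hasHalf L hL) (PL.hasHalf L' hL') hg θ
    h0 h1 h2 h3

theorem theta_congr {G G' : Type*} [AddCommGroup G] [AddCommGroup G'] (φ : G ≃+ G')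
    (hθ : ∃ θ : G → G, θ 0 = 0 ∧ Function.Injective θ ∧
      Function.Injective (fun x => θ x - x) ∧ Function.Injective (fun x => θ x + θ x - x)) :
    ∃ θ : G' → G', θ 0 = 0 ∧ Function.Injective θ ∧
      Function.Injective (fun x => θ x - x) ∧ Function.Injective (fun x => θ x + θ x - x) := by
  obtain ⟨θ, h0, h1, h2, h3⟩ := hθ
  refine ⟨fun x => φ (θ (φ.symm x)), by simp [h0], ?_, ?_, ?_⟩
  · intro x y hxy
    exact φ.symm.injective (h1 (φ.injective hxy))
  · intro x y hxy
    apply φ.symm.injective
    apply h2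
    apply φ.injective
    simpa using hxy
  · intro x y hxy
    apply φ.symm.injective
    apply h3
    apply φ.injective
    simpa using hxy

theorem theta5 : ∃ θ : PL [5] → PL [5], θ 0 = 0 ∧ Function.Injective θ ∧
      Function.Injective (fun x => θ x - x) ∧ Function.Injective (fun x => θ x + θ x - x) := by
  apply theta_congr (PL.one 5).symm
  exact ⟨fun x => 2 * x, by decide, by decide, by decide, by decide⟩

theorem theta33 : ∃ θ : PL [3, 3] → PL [3, 3], θ 0 = 0 ∧ Function.Injective θ ∧
      Function.Injective (fun x => θ x - x) ∧ Function.Injective (fun x => θ x + θ x - x) := by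
  apply theta_congr (PL.two 3 3).symm
  exact ⟨fun x => (-x.2, x.1), by decide, by decide, by decide, by decide⟩

end Pool.Agent.StarterAdder
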