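import Mathlib
import Pool.Agent.MP_b9302b_co.PL

set_option autoImplicit false

namespace Pool.Agent.StarterAdder

theorem dm_linear {H : Type*} [AddCommGroup H] (h2 : ∀ x : H, x + x = 0 → x = 0)
    (h3 : ∀ x : H, x + x + x = 0 → x = 0) : DM H := by
  refine ⟨fun x => x + x, fun x => x, ?_, ?_, ?_, ?_, ?_⟩
  · intro x y h
    have h' : x + x = y + y := h
    apply sub_eq_zero.1 (h2 _ _)
    calc x - y + (x - y) = (x + x) - (y + y) := by abel
      _ = 0 := by rw [h', sub_self]
  · intro x y h
    simpa using h
  · intro x y h; exact h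
  · intro x y h
    have h' : x + x + x = y + y + y := h
    apply sub_eq_zero.1 (h3 _ _)
    calc x - y + (x - y) + (x - y) = (x + x + x) - (y + y + y) := by abel
      _ = 0 := by rw [h', sub_self]
  · intro x y h
    have h' : x + x = y + y := by simpa using h
    apply sub_eq_zero.1 (h2 _ _)
    calc x - y + (x - y) = (x + x) - (y + y) := by abel
      _ = 0 := by rw [h', sub_self]

theorem dm_of_card {H : Type*} [AddCommGroup H] [Finite H]
    (h : Nat.Coprime (Nat.card H) 6) : DM H := by
  have key : ∀ n : ℕ, n ∣ 6 → ∀ x : H, n • x = 0 → x = 0 := by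
    intro n hn x hx
    have h1 : addOrderOf x ∣ n := addOrderOf_dvd_of_nsmul_eq_zero hx
    have h2 : addOrderOf x ∣ Nat.card H := addOrderOf_dvd_natCard x
    have h3 : addOrderOf x ∣ 1 := by
      rw [← h]
      exact Nat.dvd_gcd h2 (h1.trans hn)
    exact AddMonoid.addOrderOf_eq_one_iff.1 (Nat.dvd_one.1 h3)
  apply dm_linear
  · intro x hx
    apply key 2 (by norm_num) x
    rw [two_nsmul]; exact hx
  · intro x hx
    apply key 3 (by norm_num) x
    rw [show (3 : ℕ) = 2 + 1 by norm_num, add_nsmul, two_nsmul, one_nsmul]; exact hx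

theorem dm_zmod (n : ℕ) (h0 : 0 < n) (h : Nat.Coprime n 6) : DM (ZMod n) := by
  have : NeZero n := ⟨h0.ne'⟩
  apply dm_of_card
  rw [Nat.card_zmod]; exact h

theorem hasHalf_zmod (n : ℕ) (h : Odd n) : HasHalf (ZMod n) := by
  have : NeZero n := ⟨h.pos.ne'⟩
  apply hasHalf_of_odd
  rw [Nat.card_zmod]; exact h

theorem hasHalf_two (a b : ℕ) (ha : Odd a) (hb : Odd b) : HasHalf (ZMod a × ZMod b) :=
  (hasHalf_zmod a ha).prod (hasHalf_zmod b hb)

theorem hasHalf_three (a b c : ℕ) (ha : Odd a) (hb : Odd b) (hc : Odd c) :
    HasHalf (ZMod a × ZMod b × ZMod c) :=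
  (hasHalf_zmod a ha).prod (hasHalf_two b c hb hc)

/-- Admissible lists. -/
def OK (L : List ℕ) : Prop := ∀ q ∈ L, ∃ p k, p.Prime ∧ p ≠ 2 ∧ 0 < k ∧ q = p ^ k

/-- Exceptional lists. -/
def Exc (L : List ℕ) : Prop := L = [3] ∨ L = [5] ∨ L = [3, 3]

theorem OK.odd {L : List ℕ} (h : OK L) : ∀ q ∈ L, Odd q := by
  intro q hq
  obtain ⟨p, k, hp, hp2, hk, rfl⟩ := h q hq
  exact (hp.odd_of_ne_two hp2).pow

theorem OK.half {L : List ℕ} (h : OK L) : HasHalf (PL L) := PL.hasHalf L h.odd

theorem OK.pos {L : List ℕ} (h : OK L) : 0 < L.prod := by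
  apply List.prod_pos
  intro q hq
  exact (h.odd q hq).pos

theorem OK.three {L : List ℕ} (h : OK L) : ∀ q ∈ L, 3 ≤ q := by
  intro q hq
  obtain ⟨p, k, hp, hp2, hk, rfl⟩ := h q hq
  have h3 : 3 ≤ p := by
    have := hp.two_le
    omega
  calc 3 ≤ p := h3
    _ = p ^ 1 := (pow_one p).symm
    _ ≤ p ^ k := Nat.pow_le_pow_right (by omega) hk

theorem OK.cons {L : List ℕ} (h : OK L) (p k : ℕ) (hp : p.Prime) (hp2 : p ≠ 2) (hk : 0 < k) :
    OK (p ^ k :: L) := by
  intro q hq
  rcases List.mem_cons.1 hq with rfl | hq
  · exact ⟨p, k, hp, hp2, hk, rfl⟩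
  · exact h q hq

theorem OK.nil : OK [] := by intro q hq; simp at hq

theorem ses_front (a b : ℕ) (ha : 0 < a) (hb : 0 < b) (L' : List ℕ) :
    SES (ZMod a) (PL (a * b :: L')) (PL (b :: L')) := by
  have h := (SES.zmod a b ha hb).prod (SES.right PUnit.{1} (PL L'))
  exact h.congr (AddEquiv.prodUnique) (PL.cons (a * b) L').symm (PL.cons b L').symm

theorem ses_drop (a : ℕ) (L' : List ℕ) : SES (ZMod a) (PL (a :: L')) (PL L') :=
  (SES.prodfst (ZMod a) (PL L')).congr (AddEquiv.refl _) (PL.cons a L').symm (AddEquiv.refl _)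

theorem case_a (p k : ℕ) (L' : List ℕ) (hp : p.Prime) (h7 : 7 ≤ p) (hk : 0 < k) (hL' : OK L')
    (IH : ∀ M, OK M → M.prod < (p ^ k :: L').prod → Good (PL M) ∨ Exc M) :
    Good (PL (p ^ k :: L')) := by
  have hF : Fact p.Prime := ⟨hp⟩
  have hpodd : Odd p := hp.odd_of_ne_two (by omega)
  have hS : Strong (ZMod p) := strong_prime p h7
  have hG : Good (ZMod p) := hS.good (hasHalf_zmod p hpodd)
  have hD : DM (ZMod p) := by
    apply dm_zmod p hp.pos
    have h6 : (6 : ℕ) = 2 * 3 := by norm_num
    rw [h6]
    apply Nat.Coprime.mul_right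
    · exact (Nat.coprime_primes hp Nat.prime_two).2 (by omega)
    · exact (Nat.coprime_primes hp Nat.prime_three).2 (by omega)
  have hLpos := hL'.pos
  rcases Nat.lt_or_ge k 2 with hk2 | hk2
  · obtain rfl : k = 1 := by omega
    rw [pow_one] at IH ⊢
    have h1 : L'.prod < (p :: L').prod := by
      rw [List.prod_cons]
      nlinarith
    rcases IH L' hL' h1 with h | h
    · exact (ses_drop p L').good hL'.half hG h hD
    · rcases h with rfl | rfl | rfl
      · have h2 : (2 : ZMod p) ≠ 0 := by
          intro h
          have h' : ((2 : ℕ) : ZMod p) = 0 := by exact_mod_cast h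
          have := Nat.le_of_dvd (by norm_num) ((ZMod.natCast_eq_zero_iff 2 p).1 h')
          omega
        exact (good_zmod3_prod h2 hS).congr ((AddEquiv.prodComm).trans (PL.two p 3).symm)
      · apply PL.good_mul [p] [5] (by simpa using hpodd) (by intro q hq; simp at hq; subst hq; decide)
          (by simp; omega) _ theta5
        exact hG.congr (PL.one p).symm
      · rcases Nat.lt_or_ge p 9 with h9 | h9
        · have : p = 7 := by
            interval_cases p
            · rfl
            · exact absurd hp (by norm_num)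
          subst this
          exact (strong_7_3_3.good (hasHalf_three 7 3 3 (by decide) (by decide) (by decide))).congr
            (PL.three 7 3 3).symm
        · apply PL.good_mul [p] [3, 3] (by simpa using hpodd)
            (by intro q hq; simp at hq; subst hq; decide) (by simp; omega) _ theta33
          exact hG.congr (PL.one p).symm
  · obtain ⟨j, rfl⟩ : ∃ j, k = j + 2 := ⟨k - 2, by omega⟩
    have hpj : 0 < p ^ j := pow_pos hp.pos j
    have h1 : (p ^ (j + 1) :: L').prod < (p ^ (j + 2) :: L').prod := by
      rw [List.prod_cons, List.prod_cons]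
      apply Nat.mul_lt_mul_of_pos_right _ hLpos
      exact Nat.pow_lt_pow_right (by omega) (by omega)
    have hOK := hL'.cons p (j + 1) hp (by omega) (by omega)
    have h3 := (ses_front p (p ^ (j + 1)) hp.pos (by positivity) L')
    rw [← pow_succ' p (j + 1)] at h3
    rcases IH _ hOK h1 with h | h
    · exact h3.good hOK.half hG h hD
    · exfalso
      have h7' : 7 ≤ p ^ (j + 1) := by
        calc 7 ≤ p := h7
          _ = p ^ 1 := (pow_one p).symm
          _ ≤ p ^ (j + 1) := Nat.pow_le_pow_right (by omega) (by omega)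
      rcases h with h | h | h <;> rw [List.cons.injEq] at h <;> omega

theorem good_25 : Good (ZMod 25) := strong_25.good (hasHalf_zmod 25 (by decide))

theorem dm_25 : DM (ZMod 25) := dm_zmod 25 (by norm_num) (by decide)

theorem case_b (k : ℕ) (L' : List ℕ) (hk : 2 ≤ k) (hL' : OK L')
    (IH : ∀ M, OK M → M.prod < (5 ^ k :: L').prod → Good (PL M) ∨ Exc M) :
    Good (PL (5 ^ k :: L')) := by
  have hLpos := hL'.pos
  rcases Nat.lt_or_ge k 3 with hk3 | hk3
  · obtain rfl : k = 2 := by omega
    have h25 : (5 : ℕ) ^ 2 = 25 := by norm_num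
    rw [h25] at IH ⊢
    have h1 : L'.prod < (25 :: L').prod := by
      rw [List.prod_cons]
      omega
    rcases IH L' hL' h1 with h | h
    · exact (ses_drop 25 L').good hL'.half good_25 h dm_25
    · rcases h with rfl | rfl | rfl
      · exact (strong_25_3.good (hasHalf_two 25 3 (by decide) (by decide))).congr
          (PL.two 25 3).symm
      · apply PL.good_mul [25] [5] (by intro q hq; simp at hq; subst hq; decide)
          (by intro q hq; simp at hq; subst hq; decide) (by simp) _ theta5
        exact good_25.congr (PL.one 25).symm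
      · apply PL.good_mul [25] [3, 3] (by intro q hq; simp at hq; subst hq; decide)
          (by intro q hq; simp at hq; subst hq; decide) (by simp) _ theta33
        exact good_25.congr (PL.one 25).symm
  · obtain ⟨j, rfl⟩ : ∃ j, k = j + 3 := ⟨k - 3, by omega⟩
    have h1 : (5 ^ (j + 1) :: L').prod < (5 ^ (j + 3) :: L').prod := by
      rw [List.prod_cons, List.prod_cons]
      apply Nat.mul_lt_mul_of_pos_right _ hLpos
      exact Nat.pow_lt_pow_right (by omega) (by omega)
    have hOK := hL'.cons 5 (j + 1) Nat.prime_five (by omega) (by omega)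
    have h3 := (ses_front 25 (5 ^ (j + 1)) (by norm_num) (by positivity) L')
    have h4 : 25 * 5 ^ (j + 1) = 5 ^ (j + 3) := by rw [pow_add 5 j 3, pow_succ 5 j]; ring
    rw [h4] at h3
    rcases IH _ hOK h1 with h | h
    · exact h3.good hOK.half good_25 h dm_25
    · rcases Nat.eq_zero_or_pos j with hj | hj
      · subst hj
        rcases h with h | h | h
        · simp at h
        · simp only [zero_add, pow_one, List.cons.injEq, true_and] at h
          subst h
          exact (strong_125.good (hasHalf_zmod 125 (by decide))).congr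
            (PL.one (5 ^ (0 + 3))).symm
        · simp at h
      · exfalso
        have h7' : 25 ≤ 5 ^ (j + 1) := by
          calc 25 = 5 ^ 2 := by norm_num
            _ ≤ 5 ^ (j + 1) := Nat.pow_le_pow_right (by omega) (by omega)
        rcases h with h | h | h <;> rw [List.cons.injEq] at h <;> omega

theorem case_c2 (L' : List ℕ) (hL' : OK L')
    (IH : ∀ M, OK M → M.prod < (5 :: 5 :: L').prod → Good (PL M) ∨ Exc M) :
    Good (PL (5 :: 5 :: L')) := by
  have hLpos := hL'.pos
  have hG : Good (ZMod 5 × ZMod 5) := strong_5_5.good (hasHalf_two 5 5 (by decide) (by decide))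
  have hD : DM (ZMod 5 × ZMod 5) := by
    apply dm_of_card
    rw [Nat.card_prod, Nat.card_zmod]; decide
  have h1 : L'.prod < (5 :: 5 :: L').prod := by
    rw [List.prod_cons, List.prod_cons]
    omega
  rcases IH L' hL' h1 with h | h
  · have h2 := (SES.prodfst (ZMod 5 × ZMod 5) (PL L')).good hL'.half hG h hD
    refine h2.congr (AddEquiv.prodAssoc.trans ?_)
    exact ((AddEquiv.refl _).prodCongr (PL.cons 5 L').symm).trans (PL.cons 5 (5 :: L')).symm
  · rcases h with rfl | rfl | rfl
    · exact (strong_5_5_3.good (hasHalf_three 5 5 3 (by decide) (by decide) (by decide))).congr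
        (PL.three 5 5 3).symm
    · apply PL.good_mul [5, 5] [5] (by intro q hq; simp at hq; subst hq; decide)
          (by intro q hq; simp at hq; subst hq; decide) (by simp) _ theta5
      exact hG.congr (PL.two 5 5).symm
    · apply PL.good_mul [5, 5] [3, 3] (by intro q hq; simp at hq; subst hq; decide)
          (by intro q hq; simp at hq; subst hq; decide) (by simp) _ theta33
      exact hG.congr (PL.two 5 5).symm

theorem case_c1 (L' : List ℕ) (hL' : OK L') (hne : L' ≠ []) (h5 : 5 ∉ L')
    (IH : ∀ M, OK M → M.prod < (5 :: L').prod → Good (PL M) ∨ Exc M) :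
    Good (PL (5 :: L')) := by
  have hLpos := hL'.pos
  have h1 : L'.prod < (5 :: L').prod := by
    rw [List.prod_cons]
    omega
  have h33 : L' = [3] → Good (PL (5 :: L')) := by
    rintro rfl
    exact (strong_5_3.good (hasHalf_two 5 3 (by decide) (by decide))).congr (PL.two 5 3).symm
  rcases IH L' hL' h1 with h | h
  · by_cases h3 : L' = [3]
    · exact h33 h3
    · have hodd := hL'.odd
      have hge := hL'.three
      have hc : 5 ≤ L'.prod := by
        match L', hne with
        | [a], _ =>
          have ha := hge a (by simp)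
          have ha' := hodd a (by simp)
          have : a ≠ 3 := by rintro rfl; exact h3 rfl
          have : a ≠ 4 := by rintro rfl; revert ha'; decide
          simp; omega
        | a :: b :: M, _ =>
          have ha := hge a (by simp)
          have hb := hge b (by simp)
          have hM : 0 < M.prod := by
            apply List.prod_pos
            intro q hq
            exact (hodd q (by simp [hq])).pos
          rw [List.prod_cons, List.prod_cons]
          have h9 : 3 * 3 ≤ a * b := Nat.mul_le_mul ha hb
          nlinarith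
      have h4 := PL.good_mul L' [5] hodd (by intro q hq; simp at hq; subst hq; decide)
        (by simpa using hc) h theta5
      exact PL.good_perm (List.perm_append_singleton 5 L').symm h4
  · rcases h with rfl | rfl | rfl
    · exact h33 rfl
    · exact absurd (by simp) h5
    · exact (strong_5_3_3.good (hasHalf_three 5 3 3 (by decide) (by decide) (by decide))).congr
        (PL.three 5 3 3).symm

end Pool.Agent.StarterAdder
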