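import Mathlib
import Pool.Agent.MP_b9302b_co.Cases

set_option autoImplicit false

namespace Pool.Agent.StarterAdder

/-- Lists of powers of three. -/
def OK3 (L : List ℕ) : Prop := ∀ q ∈ L, ∃ k, 0 < k ∧ q = 3 ^ k

theorem OK3.ok {L : List ℕ} (h : OK3 L) : OK L := by
  intro q hq
  obtain ⟨k, hk, rfl⟩ := h q hq
  exact ⟨3, k, Nat.prime_three, by norm_num, hk, rfl⟩

theorem OK3.not5 {L : List ℕ} (h : OK3 L) : 5 ∉ L := by
  intro hq
  obtain ⟨k, hk, h5⟩ := h 5 hq
  have : 3 ∣ 5 := by
    rw [h5]
    exact dvd_pow_self 3 hk.ne'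
  omega

theorem OK3.cons {L : List ℕ} (h : OK3 L) (k : ℕ) (hk : 0 < k) : OK3 (3 ^ k :: L) := by
  intro q hq
  rcases List.mem_cons.1 hq with rfl | hq
  · exact ⟨k, hk, rfl⟩
  · exact h q hq

theorem OK3.cons3 {L : List ℕ} (h : OK3 L) : OK3 (3 :: L) := by
  have := h.cons 1 one_pos
  rwa [pow_one] at this

theorem OK3.cons9 {L : List ℕ} (h : OK3 L) : OK3 (9 :: L) := by
  have := h.cons 2 two_pos
  norm_num at this
  exact this

theorem OK3.replicate (r : ℕ) : OK3 (List.replicate r 3) := by
  intro q hq
  rw [List.eq_of_mem_replicate hq]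
  exact ⟨1, one_pos, (pow_one 3).symm⟩

theorem good_27 : Good (ZMod 27) := strong_27.good (hasHalf_zmod 27 (by decide))

theorem good_9_3 : Good (ZMod 9 × ZMod 3) :=
  strong_9_3.good (hasHalf_two 9 3 (by decide) (by decide))

theorem good_3_3_3 : Good (ZMod 3 × ZMod 3 × ZMod 3) :=
  strong_3_3_3.good (hasHalf_three 3 3 3 (by decide) (by decide) (by decide))

theorem case_d1 (k : ℕ) (L' : List ℕ) (hk : 3 ≤ k) (hL' : OK3 L')
    (IH : ∀ M, OK M → M.prod < (3 ^ k :: L').prod → Good (PL M) ∨ Exc M) :
    Good (PL (3 ^ k :: L')) := by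
  have hLpos := hL'.ok.pos
  have h5 := hL'.not5
  rcases Nat.lt_or_ge k 4 with hk3 | hk3
  · obtain rfl : k = 3 := by omega
    have h27 : (3 : ℕ) ^ 3 = 27 := by norm_num
    rw [h27] at IH ⊢
    have h1 : L'.prod < (27 :: L').prod := by
      rw [List.prod_cons]
      omega
    rcases IH L' hL'.ok h1 with h | h
    · exact (ses_drop 27 L').good hL'.ok.half good_27 h dm_27
    · rcases h with rfl | rfl | rfl
      · exact (strong_27_3.good (hasHalf_two 27 3 (by decide) (by decide))).congr
          (PL.two 27 3).symm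
      · exact absurd (by simp) h5
      · apply PL.good_mul [27] [3, 3] (by intro q hq; simp at hq; subst hq; decide)
          (by intro q hq; simp at hq; subst hq; decide) (by simp) _ theta33
        exact good_27.congr (PL.one 27).symm
  · obtain ⟨j, rfl⟩ : ∃ j, k = j + 4 := ⟨k - 4, by omega⟩
    have h1 : (3 ^ (j + 1) :: L').prod < (3 ^ (j + 4) :: L').prod := by
      rw [List.prod_cons, List.prod_cons]
      apply Nat.mul_lt_mul_of_pos_right _ hLpos
      exact Nat.pow_lt_pow_right (by omega) (by omega)
    have hOK := hL'.cons (j + 1) (by omega)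
    have h3 := (ses_front 27 (3 ^ (j + 1)) (by norm_num) (by positivity) L')
    have h4 : 27 * 3 ^ (j + 1) = 3 ^ (j + 4) := by rw [pow_add 3 j 4, pow_succ 3 j]; ring
    rw [h4] at h3
    rcases IH _ hOK.ok h1 with h | h
    · exact h3.good hOK.ok.half good_27 h dm_27
    · rcases Nat.eq_zero_or_pos j with hj | hj
      · subst hj
        rcases h with h | h | h
        · simp only [zero_add, pow_one, List.cons.injEq, true_and] at h
          subst h
          exact (strong_81.good (hasHalf_zmod 81 (by decide))).congr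
            (PL.one (3 ^ (0 + 4))).symm
        · simp at h
        · simp only [zero_add, pow_one, List.cons.injEq, true_and] at h
          subst h
          have h6 := (SES.zmod 9 9 (by norm_num) (by norm_num)).prod (SES.left (ZMod 3) PUnit.{1})
          have h7 := h6.congr (AddEquiv.refl _) (PL.two 81 3).symm AddEquiv.prodUnique
          exact h7.good (hasHalf_zmod 9 (by decide)) good_9_3 good_9 dm_9_3
      · exfalso
        have h7' : 9 ≤ 3 ^ (j + 1) := by
          calc 9 = 3 ^ 2 := by norm_num
            _ ≤ 3 ^ (j + 1) := Nat.pow_le_pow_right (by omega) (by omega)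
        rcases h with h | h | h <;> rw [List.cons.injEq] at h <;> omega

theorem case_d2 (L' : List ℕ) (hL' : OK3 L')
    (IH : ∀ M, OK M → M.prod < (9 :: 9 :: L').prod → Good (PL M) ∨ Exc M) :
    Good (PL (9 :: 9 :: L')) := by
  have hLpos := hL'.ok.pos
  have h5 := hL'.not5
  have h1 : (3 :: L').prod < (9 :: 9 :: L').prod := by
    rw [List.prod_cons, List.prod_cons, List.prod_cons]
    omega
  have hOK := hL'.cons3
  rcases IH _ hOK.ok h1 with h | h
  · have h2 := ((SES.left (ZMod 9) PUnit.{1}).prod
      (SES.zmod 3 3 (by norm_num) (by norm_num))).prod (SES.right PUnit.{1} (PL L'))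
    have h3 : SES (ZMod 9 × ZMod 3) (PL (9 :: 9 :: L')) (PL (3 :: L')) := by
      refine h2.congr AddEquiv.prodUnique ?_ ?_
      · refine AddEquiv.prodAssoc.trans ?_
        exact ((AddEquiv.refl _).prodCongr (PL.cons 9 L').symm).trans (PL.cons 9 (9 :: L')).symm
      · exact ((AddEquiv.uniqueProd).prodCongr (AddEquiv.refl _)).trans (PL.cons 3 L').symm
    exact h3.good hOK.ok.half good_9_3 h dm_9_3
  · rcases h with h | h | h
    · simp only [List.cons.injEq, true_and] at h
      subst h
      exact (strong_9_9.good (hasHalf_two 9 9 (by decide) (by decide))).congr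
        (PL.two 9 9).symm
    · simp at h
    · simp only [List.cons.injEq, true_and] at h
      subst h
      have h6 := SES.prodfst (ZMod 9 × ZMod 3) (ZMod 9)
      have h7 := h6.congr (AddEquiv.refl _)
        (AddEquiv.prodAssoc.trans (PL.three 9 3 9).symm) (AddEquiv.refl _)
      have h8 := h7.good (hasHalf_zmod 9 (by decide)) good_9_3 good_9 dm_9_3
      exact PL.good_perm (by decide) h8

theorem ses_333 (L : List ℕ) :
    SES (ZMod 3 × ZMod 3 × ZMod 3) (PL (3 :: 3 :: 3 :: L)) (PL L) := by
  refine (SES.prodfst (ZMod 3 × ZMod 3 × ZMod 3) (PL L)).congr (AddEquiv.refl _) ?_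
    (AddEquiv.refl _)
  exact ((PL.three 3 3 3).symm.prodCongr (AddEquiv.refl _)).trans (PL.append [3, 3, 3] L).symm

theorem case_d3 (r : ℕ)
    (IH : ∀ M, OK M → M.prod < (9 :: List.replicate r 3).prod → Good (PL M) ∨ Exc M) :
    Good (PL (9 :: List.replicate r 3)) := by
  match r with
  | 0 => exact good_9.congr (PL.one 9).symm
  | 1 => exact good_9_3.congr (PL.two 9 3).symm
  | 2 =>
    exact (strong_9_3_3.good (hasHalf_three 9 3 3 (by decide) (by decide) (by decide))).congr
      (PL.three 9 3 3).symm
  | s + 3 =>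
    have hOK := (OK3.replicate s).cons9
    have h1 : (9 :: List.replicate s 3).prod < (9 :: List.replicate (s + 3) 3).prod := by
      rw [List.prod_cons, List.prod_cons, List.prod_replicate, List.prod_replicate, pow_add]
      have : 0 < 3 ^ s := by positivity
      omega
    have hperm : (9 :: List.replicate (s + 3) 3).Perm (3 :: 3 :: 3 :: 9 :: List.replicate s 3) := by
      have : List.replicate (s + 3) 3 = 3 :: 3 :: 3 :: List.replicate s 3 := rfl
      rw [this]
      refine (List.Perm.swap 3 9 _).trans (List.Perm.cons 3 ?_)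
      refine (List.Perm.swap 3 9 _).trans (List.Perm.cons 3 ?_)
      exact (List.Perm.swap 3 9 _)
    apply PL.good_perm hperm
    rcases IH _ hOK.ok h1 with h | h
    · exact (ses_333 _).good hOK.ok.half good_3_3_3 h dm_3_3_3
    · exfalso
      rcases h with h | h | h <;> rw [List.cons.injEq] at h <;> omega

theorem case_d4 (r : ℕ)
    (IH : ∀ M, OK M → M.prod < (List.replicate r 3).prod → Good (PL M) ∨ Exc M) :
    Good (PL (List.replicate r 3)) ∨ Exc (List.replicate r 3) := by
  match r with
  | 0 => left; exact good_nil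
  | 1 => right; left; rfl
  | 2 => right; right; right; rfl
  | 3 => left; exact good_3_3_3.congr (PL.three 3 3 3).symm
  | 4 =>
    left
    exact (strong_3_3_3_3.good ((hasHalf_zmod 3 (by decide)).prod
      (hasHalf_three 3 3 3 (by decide) (by decide) (by decide)))).congr (PL.four 3 3 3 3).symm
  | 5 =>
    left
    apply PL.good_mul [3, 3, 3] [3, 3] (by intro q hq; simp at hq; subst hq; decide)
      (by intro q hq; simp at hq; subst hq; decide) (by simp) _ theta33
    exact good_3_3_3.congr (PL.three 3 3 3).symm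
  | s + 6 =>
    left
    have hOK := OK3.replicate (s + 3)
    have h1 : (List.replicate (s + 3) 3).prod < (List.replicate (s + 6) 3).prod := by
      rw [List.prod_replicate, List.prod_replicate]
      exact Nat.pow_lt_pow_right (by omega) (by omega)
    have : List.replicate (s + 6) 3 = 3 :: 3 :: 3 :: List.replicate (s + 3) 3 := rfl
    rw [this]
    rcases IH _ hOK.ok h1 with h | h
    · exact (ses_333 _).good hOK.ok.half good_3_3_3 h dm_3_3_3
    · exfalso
      rcases h with h | h | h <;> have := congrArg List.length h <;> simp at this <;> omega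

theorem Exc.of_perm {L L' : List ℕ} (h : L.Perm L') (hE : Exc L') : Exc L := by
  rcases hE with rfl | rfl | rfl
  · left; exact List.perm_singleton.1 h
  · right; left; exact List.perm_singleton.1 h
  · right; right
    have h1 : ∀ q ∈ L, q = 3 := by
      intro q hq
      have := h.mem_iff.1 hq
      simpa using this
    have h2 : L.length = 2 := h.length_eq
    rw [List.eq_replicate_of_mem h1, h2]
    rfl

theorem OK.perm {L L' : List ℕ} (h : L.Perm L') (hE : OK L) : OK L' := by
  intro q hq
  exact hE q (h.mem_iff.2 hq)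

theorem main_list : ∀ N : ℕ, ∀ L : List ℕ, L.prod ≤ N → OK L → Good (PL L) ∨ Exc L := by
  intro N
  induction N using Nat.strong_induction_on with
  | _ N ihN =>
  intro L hN hL
  have IH : ∀ L' : List ℕ, L.Perm L' → ∀ M, OK M → M.prod < L'.prod → Good (PL M) ∨ Exc M := by
    intro L' hp M hM hlt
    rw [← hp.prod_eq] at hlt
    exact ihN M.prod (by omega) M le_rfl hM
  clear ihN
  by_cases ha : ∃ q ∈ L, ∃ p k, p.Prime ∧ 7 ≤ p ∧ 0 < k ∧ q = p ^ k
  · left
    obtain ⟨q, hq, p, k, hp, h7, hk, rfl⟩ := ha
    have hperm := List.perm_cons_erase hq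
    apply PL.good_perm hperm
    have hOK := hL.perm hperm
    exact case_a p k _ hp h7 hk (fun x hx => hOK x (List.mem_cons_of_mem _ hx)) (IH _ hperm)
  have ha' : ∀ q ∈ L, ∃ p k, (p = 3 ∨ p = 5) ∧ 0 < k ∧ q = p ^ k := by
    intro q hq
    obtain ⟨p, k, hp, hp2, hk, rfl⟩ := hL q hq
    refine ⟨p, k, ?_, hk, rfl⟩
    have h7 : ¬ 7 ≤ p := fun h => ha ⟨_, hq, p, k, hp, h, hk, rfl⟩
    have := hp.two_le
    interval_cases p
    · exact absurd rfl hp2
    · left; rfl
    · exact absurd hp (by norm_num)
    · right; rfl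
    · exact absurd hp (by norm_num)
  clear ha
  by_cases hb : ∃ q ∈ L, ∃ k, 2 ≤ k ∧ q = 5 ^ k
  · left
    obtain ⟨q, hq, k, hk, rfl⟩ := hb
    have hperm := List.perm_cons_erase hq
    apply PL.good_perm hperm
    have hOK := hL.perm hperm
    exact case_b k _ hk (fun x hx => hOK x (List.mem_cons_of_mem _ hx)) (IH _ hperm)
  have hb' : ∀ q ∈ L, q = 5 ∨ ∃ k, 0 < k ∧ q = 3 ^ k := by
    intro q hq
    obtain ⟨p, k, hp, hk, rfl⟩ := ha' q hq
    rcases hp with rfl | rfl
    · right; exact ⟨k, hk, rfl⟩
    · left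
      have h2 : ¬ 2 ≤ k := fun h => hb ⟨_, hq, k, h, rfl⟩
      have : k = 1 := by omega
      rw [this, pow_one]
  clear hb ha'
  by_cases hc : 5 ∈ L
  · have hperm := List.perm_cons_erase hc
    have hOK := hL.perm hperm
    have hOK' : OK (L.erase 5) := fun x hx => hOK x (List.mem_cons_of_mem _ hx)
    by_cases hc2 : 5 ∈ L.erase 5
    · left
      have hperm2 := List.perm_cons_erase hc2
      have hperm3 := hperm.trans (List.Perm.cons 5 hperm2)
      apply PL.good_perm hperm3
      have hOK3 := hL.perm hperm3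
      exact case_c2 _ (fun x hx => hOK3 x (List.mem_cons_of_mem _ (List.mem_cons_of_mem _ hx)))
        (IH _ hperm3)
    · by_cases hnil : L.erase 5 = []
      · right
        rw [hnil] at hperm
        exact Exc.of_perm hperm (Or.inr (Or.inl rfl))
      · left
        apply PL.good_perm hperm
        exact case_c1 _ hOK' hnil hc2 (IH _ hperm)
  have hc' : OK3 L := by
    intro q hq
    rcases hb' q hq with rfl | h
    · exact absurd hq hc
    · exact h
  clear hb' hc
  by_cases hd : ∃ q ∈ L, ∃ k, 3 ≤ k ∧ q = 3 ^ k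
  · left
    obtain ⟨q, hq, k, hk, rfl⟩ := hd
    have hperm := List.perm_cons_erase hq
    apply PL.good_perm hperm
    have hOK : OK3 (3 ^ k :: L.erase (3 ^ k)) := fun x hx => hc' x (hperm.mem_iff.2 hx)
    exact case_d1 k _ hk (fun x hx => hOK x (List.mem_cons_of_mem _ hx)) (IH _ hperm)
  have hd' : ∀ q ∈ L, q = 3 ∨ q = 9 := by
    intro q hq
    obtain ⟨k, hk, rfl⟩ := hc' q hq
    have h2 : ¬ 3 ≤ k := fun h => hd ⟨_, hq, k, h, rfl⟩
    have : k = 1 ∨ k = 2 := by omega
    rcases this with rfl | rfl <;> simp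
  clear hd
  by_cases he : 9 ∈ L
  · left
    have hperm := List.perm_cons_erase he
    have hOK : OK3 (9 :: L.erase 9) := fun x hx => hc' x (hperm.mem_iff.2 hx)
    by_cases he2 : 9 ∈ L.erase 9
    · have hperm2 := List.perm_cons_erase he2
      have hperm3 := hperm.trans (List.Perm.cons 9 hperm2)
      apply PL.good_perm hperm3
      exact case_d2 _ (fun x hx => hc' x (hperm3.mem_iff.2
        (List.mem_cons_of_mem _ (List.mem_cons_of_mem _ hx)))) (IH _ hperm3)
    · apply PL.good_perm hperm
      have h3 : ∀ q ∈ L.erase 9, q = 3 := by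
        intro q hq
        rcases hd' q (List.mem_of_mem_erase hq) with h | h
        · exact h
        · subst h; exact absurd hq he2
      have h4 := List.eq_replicate_of_mem h3
      have IH' := IH _ hperm
      rw [h4] at IH' ⊢
      exact case_d3 _ IH'
  · have h3 : ∀ q ∈ L, q = 3 := by
      intro q hq
      rcases hd' q hq with h | h
      · exact h
      · subst h; exact absurd hq he
    have h4 := List.eq_replicate_of_mem h3
    have IH' := IH _ (List.Perm.refl L)
    rw [h4] at IH' ⊢
    exact case_d4 _ IH'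

end Pool.Agent.StarterAdder
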