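import Mathlib
import Pool.Agent.MP_b9302b_co.Cases3

set_option autoImplicit false

namespace Pool.Agent.StarterAdder

/-- Splitting off the first coordinate. -/
def piSucc (n : ℕ) (f : Fin (n + 1) → ℕ) :
    ((i : Fin (n + 1)) → ZMod (f i)) ≃+ ZMod (f 0) × ((i : Fin n) → ZMod (f i.succ)) where
  toFun g := (g 0, fun i => g i.succ)
  invFun x := Fin.cons x.1 x.2
  left_inv g := by
    ext i
    refine Fin.cases ?_ (fun j => ?_) i <;> simp
  right_inv x := by simp
  map_add' x y := rfl

theorem exists_PL (n : ℕ) : ∀ (f : Fin n → ℕ), (∀ i, ∃ p e, p.Prime ∧ f i = p ^ e) →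
    ∃ L : List ℕ, (∀ q ∈ L, ∃ p k, p.Prime ∧ 0 < k ∧ q = p ^ k) ∧
      Nonempty (((i : Fin n) → ZMod (f i)) ≃+ PL L) := by
  induction n with
  | zero =>
    intro f _
    refine ⟨[], by simp, ⟨?_⟩⟩
    exact AddEquiv.ofUnique
  | succ n ih =>
    intro f hf
    obtain ⟨L, hL, ⟨φ⟩⟩ := ih (fun i => f i.succ) (fun i => hf i.succ)
    obtain ⟨p, e, hp, he⟩ := hf 0
    rcases Nat.eq_zero_or_pos e with h0 | h0
    · subst h0
      rw [pow_zero] at he
      refine ⟨L, hL, ⟨(piSucc n f).trans ?_⟩⟩
      have : Unique (ZMod (f 0)) := by rw [he]; exact inferInstanceAs (Unique (Fin 1))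
      exact ((AddEquiv.refl _).prodCongr φ).trans AddEquiv.uniqueProd
    · refine ⟨f 0 :: L, ?_, ⟨(piSucc n f).trans ?_⟩⟩
      · intro q hq
        rcases List.mem_cons.1 hq with rfl | hq
        · exact ⟨p, e, hp, h0, he⟩
        · exact hL q hq
      · exact ((AddEquiv.refl _).prodCongr φ).trans (PL.cons (f 0) L).symm

theorem good_or_small (G : Type) [AddCommGroup G] [Fintype G] (h : Odd (Fintype.card G))
    (h9 : 9 < Fintype.card G) : Good G := by
  classical
  obtain ⟨ι, hι, p, hp, e, ⟨φ⟩⟩ := AddCommGroup.equiv_directSum_zmod_of_finite G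
  let n := Fintype.card ι
  let σ : ι ≃ Fin n := Fintype.equivFin ι
  have φ2 : G ≃+ ((i : ι) → ZMod (p i ^ e i)) := φ.trans (DirectSum.addEquivProd _)
  have φ3 : ((i : ι) → ZMod (p i ^ e i)) ≃+
      ((j : Fin n) → ZMod (p (σ.symm j) ^ e (σ.symm j))) :=
    { toFun := fun g j => g (σ.symm j)
      invFun := fun g i => (Equiv.piCongrLeft (fun i => ZMod (p i ^ e i)) σ.symm) g i
      left_inv := by
        intro g
        ext i
        obtain ⟨j, rfl⟩ := σ.symm.surjective i
        exact Equiv.piCongrLeft_apply_apply (fun i => ZMod (p i ^ e i)) σ.symm _ j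
      right_inv := by
        intro g
        ext j
        exact Equiv.piCongrLeft_apply_apply (fun i => ZMod (p i ^ e i)) σ.symm _ j
      map_add' := fun x y => rfl }
  obtain ⟨L, hL, ⟨ψ⟩⟩ := exists_PL n (fun j => p (σ.symm j) ^ e (σ.symm j))
    (fun j => ⟨_, _, hp _, rfl⟩)
  have Φ : G ≃+ PL L := (φ2.trans φ3).trans ψ
  have hcard : L.prod = Fintype.card G := by
    rw [← PL.card, ← Nat.card_congr Φ.toEquiv, Nat.card_eq_fintype_card]
  have hOK : OK L := by
    intro q hq
    obtain ⟨p, k, hp, hk, rfl⟩ := hL q hq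
    refine ⟨p, k, hp, ?_, hk, rfl⟩
    rintro rfl
    have h1 : 2 ^ k ∣ L.prod := List.dvd_prod hq
    have h2 : 2 ∣ L.prod := (dvd_pow_self 2 hk.ne').trans h1
    rw [hcard] at h2
    exact (Nat.not_even_iff_odd.2 h) (even_iff_two_dvd.2 h2)
  rcases main_list _ L le_rfl hOK with hg | hE
  · exact hg.congr Φ.symm
  · exfalso
    rcases hE with rfl | rfl | rfl <;> simp at hcard <;> omega

theorem exists_starter (G : Type) [AddCommGroup G] [Fintype G] (h : Odd (Fintype.card G))
    (hg : Good G) :
      ∃ (x y a : Fin ((Fintype.card G - 1) / 2) → G),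
        Function.Injective (Sum.elim x y) ∧
        (∀ i, x i ≠ 0 ∧ y i ≠ 0) ∧
        Function.Injective (Sum.elim (fun i => x i - y i) (fun i => y i - x i)) ∧
        Function.Injective a ∧
        (∀ i, a i ≠ 0) ∧
        Function.Injective (Sum.elim (fun i => x i + a i) (fun i => y i + a i)) ∧
        (∀ i, x i + a i ≠ 0 ∧ y i + a i ≠ 0) := by
  classical
  have hh : HasHalf G := hasHalf_of_odd (by rw [Nat.card_eq_fintype_card]; exact h)
  obtain ⟨P, hP⟩ := exists_half_system (G := G) (fun x hx => hh.ne_neg x hx)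
  have hc := card_half P hP
  set S := Finset.univ.filter (fun x : G => x ≠ 0 ∧ P x) with hS
  have hc' : S.card = (Fintype.card G - 1) / 2 := by omega
  let r : Fin ((Fintype.card G - 1) / 2) ≃ S := (finCongr hc'.symm).trans S.equivFin.symm
  have hr0 : ∀ i, (r i : G) ≠ 0 := fun i => (Finset.mem_filter.1 (r i).2).2.1
  have hrP : ∀ i, P (r i : G) := fun i => (Finset.mem_filter.1 (r i).2).2.2
  have hinj : ∀ i j, (r i : G) = r j → i = j := fun i j hij => r.injective (Subtype.ext hij)
  have hneg : ∀ i j, (r i : G) ≠ -(r j : G) := by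
    intro i j hij
    have h1 := hrP i
    rw [hij] at h1
    exact (hP _ (hr0 j)).1 (hrP j) h1
  have key : ∀ e : G → G, Function.Injective e →
      Function.Injective (Sum.elim (fun i => e (r i)) (fun i => e (-(r i : G)))) := by
    intro e he
    rintro (i | i) (j | j) hij
    · simp only [Sum.elim_inl] at hij
      rw [hinj _ _ (he hij)]
    · simp only [Sum.elim_inl, Sum.elim_inr] at hij
      exact absurd (he hij) (hneg i j)
    · simp only [Sum.elim_inl, Sum.elim_inr] at hij
      exact absurd (he hij).symm (hneg j i)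
    · simp only [Sum.elim_inr] at hij
      rw [hinj _ _ (neg_injective (he hij))]
  have key0 : ∀ e : G → G, Function.Injective e → e 0 = 0 →
      ∀ i, e (r i) ≠ 0 ∧ e (-(r i : G)) ≠ 0 := by
    intro e he e0 i
    refine ⟨fun h => hr0 i (he (h.trans e0.symm)), fun h => hr0 i ?_⟩
    exact neg_eq_zero.1 (he (h.trans e0.symm))
  obtain ⟨e, f, he, hf, e0, f0, hen, hfn, ho⟩ := hg
  have hx : ∀ i, e (r i) + (f (r i) - e (r i)) = f (r i) := by intro i; abel
  have hy : ∀ i, e (-(r i : G)) + (f (r i) - e (r i)) = f (-(r i : G)) := by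
    intro i
    rw [hen, hfn]; abel
  have hd : ∀ i, e (r i) - e (-(r i : G)) = r i := by intro i; rw [hen]; abel
  have hd' : ∀ i, e (-(r i : G)) - e (r i) = -(r i : G) := by intro i; rw [hen]; abel
  refine ⟨fun i => e (r i), fun i => e (-(r i : G)), fun i => f (r i) - e (r i), key e he,
    key0 e he e0, ?_, ?_, ?_, ?_, ?_⟩
  · simp only [hd, hd']
    exact key id Function.injective_id
  · intro i j hij
    rcases ho _ _ hij with h | h
    · exact (hinj _ _ h).symm
    · exact absurd h (hneg j i)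
  · intro i hi
    have hi' : f (r i) - e (r i) = 0 := hi
    have h1 : f (r i) - e (r i) = f 0 - e 0 := by rw [hi', e0, f0, sub_self]
    rcases ho _ _ h1 with h | h
    · exact hr0 i h.symm
    · exact hr0 i (neg_eq_zero.1 h.symm)
  · simp only [hx, hy]
    exact key f hf
  · intro i
    simp only [hx, hy]
    exact key0 f hf f0 i

end Pool.Agent.StarterAdder
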