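import Pool.Agent.MP_b9302b_co.Basic

set_option autoImplicit false

namespace Pool.Agent.StarterAdder

theorem field_ne_neg {K : Type*} [Field K] (h2 : (2 : K) ≠ 0) (x : K) (hx : x ≠ 0) : x ≠ -x := by
  intro h
  have : (2 : K) * x = 0 := by
    rw [two_mul]; nth_rewrite 1 [h]; ring
  rcases mul_eq_zero.1 this with h | h
  · exact h2 h
  · exact hx h

/-- Mullin and Nemeth. -/
theorem strong_of_root {K : Type*} [Field K] (h2 : (2 : K) ≠ 0) (t : ℕ) (ht : Odd t)
    (m : K) (hm1 : m ≠ 1) (hmt : m ^ t = 1) : Strong K := by
  classical
  obtain ⟨Q, hQ⟩ := exists_half_system (G := K) (field_ne_neg h2)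
  have ht0 : t ≠ 0 := by rintro rfl; simp at ht
  have hm0 : m ≠ 0 := by
    rintro rfl
    rw [zero_pow ht0] at hmt
    exact zero_ne_one hmt
  have hm : 1 + m ≠ 0 := by
    intro h
    have : m = -1 := by linear_combination h
    rw [this, ht.neg_one_pow] at hmt
    apply h2
    linear_combination -hmt
  set Y : K → Prop := fun y => Q (y ^ t) with hY
  have hYneg : ∀ y, y ≠ 0 → (Y y ↔ ¬ Y (-y)) := by
    intro y hy
    simp only [hY, ht.neg_pow]
    exact hQ _ (pow_ne_zero t hy)
  have hYm : ∀ y, Y (m * y) ↔ Y y := by
    intro y
    simp only [hY, mul_pow, hmt, one_mul]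
  set g : K → K := fun y => if Y y then y else m * y with hg
  have hginj : Function.Injective g := by
    intro x y h
    simp only [hg] at h
    split_ifs at h with h1 h3 h3
    · exact h
    · exfalso
      rw [h, hYm] at h1
      exact h3 h1
    · exfalso
      rw [← h, hYm] at h3
      exact h1 h3
    · exact mul_left_cancel₀ hm0 h
  have hgneg : ∀ y, g (-y) = g y - (1 + m) * y := by
    intro y
    by_cases hy : y = 0
    · subst hy
      simp [hg]
    · simp only [hg]
      by_cases h1 : Y y
      · have := (hYneg y hy).1 h1
        simp only [h1, this, if_true, if_false]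
        ring
      · have : Y (-y) := by
          by_contra hc
          exact h1 ((hYneg y hy).2 hc)
        simp only [h1, this, if_true, if_false]
        ring
  refine ⟨fun d => g (d / (1 + m)), ?_, ?_, ?_, ?_⟩
  · intro x y h
    have := hginj h
    rwa [div_left_inj' hm] at this
  · simp [hg]
  · intro d
    simp only [neg_div, hgneg]
    field_simp
  · intro d d' h
    obtain ⟨y, rfl⟩ : ∃ y, d = (1 + m) * y := ⟨d / (1 + m), by field_simp⟩
    obtain ⟨y', rfl⟩ : ∃ y', d' = (1 + m) * y' := ⟨d' / (1 + m), by field_simp⟩
    simp only [mul_div_cancel_left₀ _ hm] at h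
    have h1m : (1 : K) - m ≠ 0 := sub_ne_zero.2 (Ne.symm hm1)
    simp only [hg] at h
    split_ifs at h with c1 c2 c2
    · left
      have : (1 - m) * (y' - y) = 0 := by linear_combination -h
      rcases mul_eq_zero.1 this with h | h
      · exact absurd h h1m
      · rw [sub_eq_zero.1 h]
    · right
      have : (1 - m) * (y' + y) = 0 := by linear_combination h
      rcases mul_eq_zero.1 this with h | h
      · exact absurd h h1m
      · rw [eq_neg_of_add_eq_zero_left h]; ring
    · right
      have : (1 - m) * (y' + y) = 0 := by linear_combination -h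
      rcases mul_eq_zero.1 this with h | h
      · exact absurd h h1m
      · rw [eq_neg_of_add_eq_zero_left h]; ring
    · left
      have : (1 - m) * (y' - y) = 0 := by linear_combination h
      rcases mul_eq_zero.1 this with h | h
      · exact absurd h h1m
      · rw [sub_eq_zero.1 h]

/-- Quartic class construction. -/
theorem strong_of_quartic {K : Type*} [Field K] (h2 : (2 : K) ≠ 0)
    (c : K → ZMod 4) (hc : ∀ x y, x ≠ 0 → y ≠ 0 → c (x * y) = c x + c y) (hc1 : c (-1) = 0)
    (x : ZMod 4 → K) (hx0 : ∀ j, x j ≠ 0) (hx : ∀ j, c (x j) = j)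
    (J : ZMod 4 → Bool → ZMod 4) (S : ZMod 4 → Bool → Bool)
    (hJS : Function.Injective (fun a : ZMod 4 × Bool => (J a.1 a.2, S a.1 a.2)))
    (w : ZMod 4 → Bool → K) (hw : ∀ i b, w i b = if S i b then x (J i b) else - x (J i b))
    (hd0 : ∀ i, w i true - w i false ≠ 0) (hd : ∀ i, c (w i true - w i false) = i)
    (hs0 : ∀ i, w i true + w i false ≠ 0)
    (hs : Function.Injective (fun i => c (w i true + w i false))) : Strong K := by
  classical
  obtain ⟨Q, hQ⟩ := exists_half_system (G := K) (field_ne_neg h2)
  have hcneg : ∀ y, y ≠ 0 → c (-y) = c y := by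
    intro y hy
    have := hc (-1) y (by simp) hy
    rw [hc1, zero_add] at this
    rw [← this]; congr 1; ring
  have hw0 : ∀ i b, w i b ≠ 0 := by
    intro i b
    rw [hw]
    split_ifs
    · exact hx0 _
    · simpa using hx0 _
  have hcw : ∀ i b, c (w i b) = J i b := by
    intro i b
    rw [hw]
    split_ifs
    · exact hx _
    · rw [hcneg _ (hx0 _), hx]
  have hwinj : ∀ i b i' b', c (w i b) = c (w i' b') → (i = i' ∧ b = b') ∨ w i b = - w i' b' := by
    intro i b i' b' h
    rw [hcw, hcw] at h
    by_cases hS : S i b = S i' b'
    · left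
      have := @hJS (i, b) (i', b') (by simp only [h, hS])
      simpa using this
    · right
      rw [hw, hw, h]
      cases h1 : S i b <;> cases h3 : S i' b'
      · rw [h1, h3] at hS; exact absurd rfl hS
      · simp
      · simp
      · rw [h1, h3] at hS; exact absurd rfl hS
  -- decomposition data for a nonzero difference
  set Y : K → K := fun d => d / (w (c d) true - w (c d) false) with hYdef
  have hYd : ∀ d, d = (w (c d) true - w (c d) false) * Y d := by
    intro d
    simp only [hYdef]
    rw [mul_div_cancel₀ _ (hd0 _)]
  have hY0 : ∀ d, d ≠ 0 → Y d ≠ 0 := by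
    intro d h h'
    apply h
    rw [hYd d, h', mul_zero]
  have hYc : ∀ d, d ≠ 0 → c (Y d) = 0 := by
    intro d h
    have := hc (w (c d) true - w (c d) false) (Y d) (hd0 _) (hY0 d h)
    rw [← hYd, hd] at this
    simpa using this.symm
  have hYneg : ∀ d, d ≠ 0 → Y (-d) = - Y d := by
    intro d h
    simp only [hYdef, hcneg d h]
    rw [neg_div]
  -- the normalized parameter
  set Z : K → K := fun d => if Q (Y d) then Y d else - Y d with hZ
  set b : K → Bool := fun d => if Q (Y d) then true else false with hb
  have hZQ : ∀ d, d ≠ 0 → Q (Z d) := by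
    intro d h
    simp only [hZ]
    split_ifs with h1
    · exact h1
    · by_contra hcon
      exact h1 ((hQ _ (hY0 d h)).2 hcon)
  have hZ0 : ∀ d, d ≠ 0 → Z d ≠ 0 := by
    intro d h
    simp only [hZ]
    split_ifs
    · exact hY0 d h
    · simpa using hY0 d h
  have hZc : ∀ d, d ≠ 0 → c (Z d) = 0 := by
    intro d h
    simp only [hZ]
    split_ifs
    · exact hYc d h
    · rw [hcneg _ (hY0 d h)]; exact hYc d h
  set e : K → K := fun d => if d = 0 then 0 else w (c d) (b d) * Z d with he
  have hed : ∀ d, d ≠ 0 → e d = w (c d) (b d) * Z d := by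
    intro d h; simp [he, h]
  have hce : ∀ d, d ≠ 0 → c (e d) = c (w (c d) (b d)) := by
    intro d h
    rw [hed d h, hc _ _ (hw0 _ _) (hZ0 d h), hZc d h, add_zero]
  have hsum : ∀ d, d ≠ 0 → e d + e d - d = (w (c d) true + w (c d) false) * Z d := by
    intro d h
    rw [hed d h]
    have h3 := hYd d
    simp only [hZ, hb]
    by_cases q : Q (Y d)
    · simp only [q, if_true]
      linear_combination -h3
    · simp only [q, if_false]
      linear_combination -h3
  have hQZ : ∀ z, Q z → Q (-z) → z = 0 := by
    intro z h1 h3
    by_contra h0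
    exact (hQ z h0).1 h1 h3
  refine ⟨e, ?_, by simp [he], ?_, ?_⟩
  · intro d d' h
    by_cases h0 : d = 0
    · by_cases h0' : d' = 0
      · rw [h0, h0']
      · exfalso
        have h1 : e d = 0 := by simp [he, h0]
        rw [h1, hed d' h0'] at h
        exact mul_ne_zero (hw0 _ _) (hZ0 d' h0') h.symm
    · by_cases h0' : d' = 0
      · exfalso
        have h1 : e d' = 0 := by simp [he, h0']
        rw [h1, hed d h0] at h
        exact mul_ne_zero (hw0 _ _) (hZ0 d h0) h
      · have h1 : c (w (c d) (b d)) = c (w (c d') (b d')) := by
          rw [← hce d h0, ← hce d' h0', h]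
        rw [hed d h0, hed d' h0'] at h
        rcases hwinj _ _ _ _ h1 with ⟨h3, h4⟩ | h3
        · rw [h3, h4] at h
          have h5 := mul_left_cancel₀ (hw0 _ _) h
          have h6 : Y d = Y d' := by
            simp only [hZ] at h5
            simp only [hb] at h4
            split_ifs at h5 h4 with q1 q2 q2
            · exact h5
            · exact neg_injective h5
          rw [hYd d, hYd d', h3, h6]
        · exfalso
          rw [h3] at h
          have h5 : Z d = - Z d' := by
            apply mul_left_cancel₀ (hw0 (c d') (b d'))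
            linear_combination -h
          have h6 := hQZ (Z d') (hZQ d' h0') (by rw [← h5]; exact hZQ d h0)
          exact hZ0 d' h0' h6
  · intro d
    by_cases h0 : d = 0
    · simp [he, h0]
    · have h0' : -d ≠ 0 := by simpa using h0
      rw [hed d h0, hed _ h0', hcneg d h0]
      have h3 := hYd d
      simp only [hZ, hb, hYneg d h0]
      by_cases q : Q (Y d)
      · have q' := (hQ _ (hY0 d h0)).1 q
        simp only [q, q', if_true, if_false]
        linear_combination h3
      · have q' : Q (- Y d) := by
          by_contra hcon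
          exact q ((hQ _ (hY0 d h0)).2 hcon)
        simp only [q, q', if_true, if_false]
        linear_combination h3
  · intro d d' h
    by_cases h0 : d = 0
    · by_cases h0' : d' = 0
      · left; rw [h0, h0']
      · exfalso
        have h1 : e d + e d - d = 0 := by simp [he, h0]
        rw [h1, hsum d' h0'] at h
        exact mul_ne_zero (hs0 _) (hZ0 d' h0') h.symm
    · by_cases h0' : d' = 0
      · exfalso
        have h1 : e d' + e d' - d' = 0 := by simp [he, h0']
        rw [h1, hsum d h0] at h
        exact mul_ne_zero (hs0 _) (hZ0 d h0) h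
      · rw [hsum d h0, hsum d' h0'] at h
        have h1 : c (w (c d) true + w (c d) false) = c (w (c d') true + w (c d') false) := by
          have h3 := congrArg c h
          rw [hc _ _ (hs0 _) (hZ0 d h0), hc _ _ (hs0 _) (hZ0 d' h0'), hZc d h0, hZc d' h0',
            add_zero, add_zero] at h3
          exact h3
        have h3 : c d = c d' := hs h1
        rw [h3] at h
        have h5 := mul_left_cancel₀ (hs0 _) h
        have h6 : Y d' = Y d ∨ Y d' = - Y d := by
          simp only [hZ] at h5
          split_ifs at h5
          · left; exact h5.symm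
          · right; rw [h5, neg_neg]
          · right; exact h5.symm
          · left; exact (neg_injective h5).symm
        rcases h6 with h6 | h6
        · left
          rw [hYd d, hYd d', h3, h6]
        · right
          rw [hYd d, hYd d', h3, h6]
          ring

end Pool.Agent.StarterAdder
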