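import Pool.Agent.MP_b9302b_co.Basic

set_option autoImplicit false

namespace Pool.Agent.StarterAdder

/-- Product construction. -/
theorem good_prod_aux {H K : Type*} [AddCommGroup H] [AddCommGroup K]
    (hH2 : ∀ x : H, x ≠ 0 → x ≠ -x) (hK : HasHalf K)
    (eH fH : H → H) (heH : Function.Injective eH) (hfH : Function.Injective fH)
    (eH0 : eH 0 = 0) (fH0 : fH 0 = 0) (heHn : ∀ d, eH (-d) = eH d - d)
    (hfHn : ∀ d, fH (-d) = fH d - d)
    (hoH : ∀ d d', fH d - eH d = fH d' - eH d' → d' = d ∨ d' = -d)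
    (θ : K → K) (θ0 : θ 0 = 0) (hθ1 : Function.Injective θ)
    (hθ2 : Function.Injective (fun x => θ x - x))
    (hθ3 : Function.Injective (fun x => θ x + θ x - x))
    (τ : K → H) (τ0 : τ 0 = 0) (τn : ∀ x, τ (-x) = τ x)
    (τi : ∀ x x', τ x = τ x' → x' = x ∨ x' = -x)
    (τa : ∀ x h, h ≠ 0 → τ x ≠ fH h - eH h) : Good (H × K) := by
  classical
  obtain ⟨P, hP⟩ := exists_half_system hH2
  have hK' := hK
  obtain ⟨half, hhalf⟩ := hK
  have hdouble : ∀ {x y : K}, x + x = y + y → x = y := fun h => hK'.double_inj h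
  set T : H → K → K := fun h x => if h = 0 then half x else (if P h then θ x else θ (-x) + x)
    with hT
  have hTneg : ∀ h x, T (-h) (-x) = T h x - x := by
    intro h x
    simp only [hT, neg_eq_zero, neg_neg]
    by_cases h0 : h = 0
    · simp only [h0, if_true, map_neg]
      nth_rewrite 3 [← hhalf x]; abel
    · simp only [h0, if_false]
      by_cases hp : P h
      · have : ¬ P (-h) := (hP h h0).1 hp
        simp [hp, this, sub_eq_add_neg]
      · have : P (-h) := by
          by_contra hc
          exact hp ((hP h h0).2 hc)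
        simp [hp, this]
  have hhalfinj : ∀ x x', half x = half x' → x = x' := by
    intro x x' h
    rw [← hhalf x, ← hhalf x', h]
  have hTinj : ∀ h x x', T h x = T h x' → x = x' := by
    intro h x x' hx
    simp only [hT] at hx
    split_ifs at hx
    · exact hhalfinj _ _ hx
    · exact hθ1 hx
    · have := @hθ2 (-x) (-x') (by simpa using hx)
      simpa using this
  set e : H × K → H × K := fun d => (eH d.1, T d.1 d.2) with he
  set f : H × K → H × K := fun d => (τ d.2 + fH d.1, half d.2) with hf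
  have hen : ∀ d, e (-d) = e d - d := by
    rintro ⟨h, x⟩
    simp [he, heHn, hTneg]
  have hfn : ∀ d, f (-d) = f d - d := by
    rintro ⟨h, x⟩
    simp only [hf, Prod.fst_neg, Prod.snd_neg, τn, hfHn, map_neg, Prod.mk_sub_mk]
    ext
    · simp; abel
    · simp only
      nth_rewrite 3 [← hhalf x]; abel
  set B : H × K → H × K := fun d => f d - e d with hB
  have hBn : ∀ d, B (-d) = B d := by
    intro d
    simp only [hB, hen, hfn]; abel
  have hB1 : ∀ h x, (B (h, x)).1 = τ x + (fH h - eH h) := by
    intro h x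
    simp [hB, hf, he, add_sub_assoc]
  have hB2 : ∀ h x, (B (h, x)).2 = half x - T h x := by
    intro h x
    simp [hB, hf, he]
  -- normal form
  have hnorm : ∀ d : H × K, ∃ d', (d' = d ∨ d' = -d) ∧ B d' = B d ∧ (d'.1 = 0 ∨ (d'.1 ≠ 0 ∧ P d'.1)) := by
    rintro ⟨h, x⟩
    by_cases h0 : h = 0
    · exact ⟨(h, x), Or.inl rfl, rfl, Or.inl h0⟩
    · by_cases hp : P h
      · exact ⟨(h, x), Or.inl rfl, rfl, Or.inr ⟨h0, hp⟩⟩
      · refine ⟨-(h, x), Or.inr rfl, hBn _, Or.inr ⟨?_, ?_⟩⟩
        · simpa using h0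
        · by_contra hc
          exact hp ((hP h h0).2 hc)
  have hmain : ∀ d d' : H × K, (d.1 = 0 ∨ (d.1 ≠ 0 ∧ P d.1)) → (d'.1 = 0 ∨ (d'.1 ≠ 0 ∧ P d'.1)) →
      B d = B d' → d' = d ∨ d' = -d := by
    rintro ⟨h, x⟩ ⟨h', x'⟩ c1 c2 hBB
    simp only at c1 c2
    have e1 : τ x + (fH h - eH h) = τ x' + (fH h' - eH h') := by rw [← hB1, ← hB1, hBB]
    have e2 : half x - T h x = half x' - T h' x' := by rw [← hB2, ← hB2, hBB]
    have key : ∀ y y' : K, half y - θ y = half y' - θ y' → y = y' := by
      intro y y' hy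
      apply hθ3
      have h1 : (half y - θ y) + (half y - θ y) = (half y' - θ y') + (half y' - θ y') := by rw [hy]
      have h2 : (half y - θ y) + (half y - θ y) = y - (θ y + θ y) := by
        nth_rewrite 5 [← hhalf y]; abel
      have h3 : (half y' - θ y') + (half y' - θ y') = y' - (θ y' + θ y') := by
        nth_rewrite 5 [← hhalf y']; abel
      rw [h2, h3] at h1
      show θ y + θ y - y = θ y' + θ y' - y'
      rw [← neg_sub, h1, neg_sub]
    rcases c1 with c1 | ⟨c1, p1⟩ <;> rcases c2 with c2 | ⟨c2, p2⟩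
    · subst c1; subst c2
      simp only [fH0, eH0, sub_zero, add_zero] at e1
      rcases τi _ _ e1 with h1 | h1
      · left; rw [h1]
      · right; rw [h1]; simp
    · exfalso
      subst c1
      have e3 : half 0 - θ 0 = half x' - θ x' := by
        simpa [hT, c2, p2, θ0] using e2
      have e4 := key _ _ e3
      subst e4
      rw [τ0, fH0, eH0, sub_zero, add_zero, zero_add] at e1
      exact τa x h' c2 e1
    · exfalso
      subst c2
      have e3 : half 0 - θ 0 = half x - θ x := by
        simpa [hT, c1, p1, θ0] using e2.symm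
      have e4 := key _ _ e3
      subst e4
      rw [τ0, fH0, eH0, sub_zero, add_zero, zero_add] at e1
      exact τa x' h c1 e1.symm
    · have e3 : half x - θ x = half x' - θ x' := by
        simpa [hT, c1, p1, c2, p2] using e2
      have e4 := key _ _ e3
      subst e4
      have e5 := add_left_cancel e1
      rcases hoH _ _ e5 with h1 | h1
      · left; rw [h1]
      · exfalso
        rw [h1] at p2
        exact (hP h c1).1 p1 p2
  refine ⟨e, f, ?_, ?_, ?_, ?_, hen, hfn, ?_⟩
  · rintro ⟨h, x⟩ ⟨h', x'⟩ hx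
    simp only [he, Prod.mk.injEq] at hx
    have h1 := heH hx.1
    subst h1
    rw [hTinj _ _ _ hx.2]
  · rintro ⟨h, x⟩ ⟨h', x'⟩ hx
    simp only [hf, Prod.mk.injEq] at hx
    have h1 := hhalfinj _ _ hx.2
    subst h1
    rw [hfH (add_left_cancel hx.1)]
  · simp [he, hT, eH0]
  · simp [hf, τ0, fH0]
  · intro d d' hdd
    obtain ⟨c, hc1, hc2, hc3⟩ := hnorm d
    obtain ⟨c', hc1', hc2', hc3'⟩ := hnorm d'
    have h1 := hmain c c' hc3 hc3' (by rw [hc2, hc2']; exact hdd)
    rcases hc1 with rfl | rfl <;> rcases hc1' with rfl | rfl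
    · exact h1
    · rcases h1 with h1 | h1
      · right; rw [← h1, neg_neg]
      · left; exact neg_injective h1
    · rcases h1 with h1 | h1
      · right; exact h1
      · left; rw [h1, neg_neg]
    · rcases h1 with h1 | h1
      · left; exact neg_injective h1
      · right
        rw [neg_neg] at h1
        rw [← h1, neg_neg]

end Pool.Agent.StarterAdder
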